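import Pool.Agent.Lib.MP_d9bae3_nt.SG.GBase

/-!
# All abelian extensions of a number field: definitions

`F` is a number field, `Ω` its algebraic closure, `Γ = Gal(Ω/F)`.  The homomorphisms `φ : Γ → A = ∏ ℤ/n_i` with an open kernel correspond to the
extensions `H` of `F` in `Ω` with an injective homomorphism `Gal(H/F) → A`.
-/

namespace StarkR

open NumberField IsDedekindDomain Filter Topology
open scoped Pointwise

section ext

/-- The subfields `H` of the algebraic closure of `F` which are Galois extensions of `F` with a group isomorphic to `∏ ℤ/n_i`, unramified at all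
primes outside of `S`. -/
def ExtS (F : Type) [Field F] [NumberField F] {m : ℕ} (n : Fin m → ℕ) (S : Finset (Prm F)) :
    Set (IntermediateField F (AlgebraicClosure F)) :=
  {H | ∃ _ : NumberField H, IsGalois F H ∧ Nonempty (Gal(H/F) ≃* Multiplicative (V n)) ∧ ∀ q : Prm F, Ramified H q → q ∈ S}

end ext

section hom

variable {F : Type} [Field F] [NumberField F]

/-- the homomorphism `φ` is trivial on the automorphisms over a finite normal extension of `F` -/
def Cts {A : Type} [Group A] (φ : Gal(AlgebraicClosure F/F) →* A) : Prop :=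
  ∃ N : IntermediateField F (AlgebraicClosure F), FiniteDimensional F N ∧ Normal F N ∧ ∀ g ∈ N.fixingSubgroup, φ g = 1

/-- the field fixed by the kernel of `φ` -/
noncomputable def fld {A : Type} [Group A] (φ : Gal(AlgebraicClosure F/F) →* A) : IntermediateField F (AlgebraicClosure F) :=
  IntermediateField.fixedField φ.ker

/-- the homomorphisms `φ` with an open kernel such that the field `fld φ` is unramified outside of `S` -/
def HomS {m : ℕ} (n : Fin m → ℕ) (S : Finset (Prm F)) : Set (Gal(AlgebraicClosure F/F) →* Multiplicative (V n)) :=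
  {φ | Cts φ ∧ ∀ (_ : NumberField (fld φ)) (q : Prm F), Ramified (fld φ) q → q ∈ S}

variable {L : IntermediateField F (AlgebraicClosure F)} {m : ℕ} {n : Fin m → ℕ}

/-- The `x_i ∈ L` are Kummer radicals of `φ` over `L`: there are `α_i` with `α_i ^ n_i = x_i` and `g(α_i) = ζ^(e/n_i · φ(g)_i) α_i` for `g` in `Gal(Ω/L)`. -/
def RadOf (e : ℕ) (ζ : L) (φ : Gal(AlgebraicClosure F/F) →* Multiplicative (V n)) (x : Fin m → L) : Prop :=
  (∀ i, x i ≠ 0) ∧ ∃ α : Fin m → AlgebraicClosure F, (∀ i, α i ^ n i = (x i : AlgebraicClosure F)) ∧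
    ∀ g ∈ L.fixingSubgroup, ∀ i, g (α i) = (ζ : AlgebraicClosure F) ^ ((e / n i) * ((φ g).toAdd i).val) * α i

end hom

section loc

variable {L : Type} [Field L] [NumberField L]

/-- `x / y` is, up to an `N`-th power, a unit at `Q` congruent to `1` modulo `Q`. -/
def LocEq (N : ℕ) (Q : Prm L) (x y : L) : Prop :=
  ∃ (z : L) (a b : 𝓞 L), z ≠ 0 ∧ a ∉ Q.asIdeal ∧ b ∉ Q.asIdeal ∧ a - b ∈ Q.asIdeal ∧ x * b = y * z ^ N * a

/-- the group of the `x ∈ Lˣ` which are, up to an `N`-th power, units at `Q` congruent to `1` modulo `Q` -/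
def locS (N : ℕ) (Q : Prm L) : Subgroup Lˣ where
  carrier := {x | LocEq N Q x 1}
  one_mem' := ⟨1, 1, 1, one_ne_zero, fun h => Q.isPrime.ne_top ((Ideal.eq_top_iff_one _).2 h),
    fun h => Q.isPrime.ne_top ((Ideal.eq_top_iff_one _).2 h), by simp, by simp⟩
  mul_mem' := by
    rintro x y ⟨z, a, b, hz, ha, hb, hab, h⟩ ⟨z', a', b', hz', ha', hb', hab', h'⟩
    refine ⟨z * z', a * a', b * b', mul_ne_zero hz hz', ?_, ?_, ?_, ?_⟩
    · exact fun h => (Q.isPrime.mem_or_mem h).elim ha ha'
    · exact fun h => (Q.isPrime.mem_or_mem h).elim hb hb'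
    · have h1 : a * a' - b * b' = a * (a' - b') + b' * (a - b) := by ring
      rw [h1]
      exact Ideal.add_mem _ (Ideal.mul_mem_left _ _ hab') (Ideal.mul_mem_left _ _ hab)
    · have h1 : (((x * y : Lˣ) : L)) * ((b * b' : 𝓞 L) : L) = ((x : L) * b) * ((y : L) * b') := by
        push_cast
        ring
      rw [h1, h, h']
      push_cast
      ring
  inv_mem' := by
    rintro x ⟨z, a, b, hz, ha, hb, hab, h⟩
    refine ⟨z⁻¹, b, a, inv_ne_zero hz, hb, ha, ?_, ?_⟩
    · have h1 : b - a = -(a - b) := by ring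
      rw [h1]
      exact neg_mem hab
    · have hx : (x : L) ≠ 0 := x.ne_zero
      rw [Units.val_inv_eq_inv_val]
      have h2 : (x : L) * b = z ^ N * a := by rw [h, one_mul]
      have h3 : z ^ N ≠ 0 := pow_ne_zero _ hz
      have h4 : (a : L) = (x : L) * b * (z ^ N)⁻¹ := by
        rw [h2, mul_comm (z ^ N), mul_inv_cancel_right₀ h3]
      rw [h4, inv_pow, one_mul, mul_assoc, inv_mul_cancel_left₀ hx, mul_comm]

theorem mem_locS {N : ℕ} {Q : Prm L} {x : Lˣ} : x ∈ locS N Q ↔ LocEq N Q x 1 := Iff.rfl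

/-- `π` is a uniformiser at `Q` and `u` generates the units modulo `Q` -/
structure LocGen (Q : Prm L) (π u : 𝓞 L) : Prop where
  mem : π ∈ Q.asIdeal
  notMem : π ∉ Q.asIdeal ^ 2
  unit : u ∉ Q.asIdeal
  gen : ∀ x : 𝓞 L, x ∉ Q.asIdeal → ∃ l : ℕ, x - u ^ l ∈ Q.asIdeal

end loc

end StarkR
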