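import Pool.Agent.Lib.MP_d9bae3_nt.EX.Fld

/-!
# Module EX-Cnt: counting extensions by homomorphisms

Plan.  `φ ↦ fld φ` maps the surjective `φ ∈ HomS n S` onto `ExtS F n S`: `fld_hom` gives `f : Gal(fld φ/F) ≃* A` for a surjective `φ`; conversely for `H ∈ ExtS F n S` and an isomorphism `f : Gal(H/F) ≃* A`, `φ = f ∘ (restriction to H)` is in `HomS n S`, surjective, and
`fld φ = H` (`fld_of`).  The `φ` with `fld φ = H` are exactly the `f ∘ (restriction to H)`, `f : Gal(H/F) ≃* A`, and `f` is determined by `φ`; there are as many as automorphisms of `A`.  So the fibres of `φ ↦ fld φ` over the `H ∈ ExtS F n S` have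
`Nat.card (A ≃* A)` elements (`Finset.card_eq_sum_card_fiberwise` or `Set.ncard` of a disjoint union; everything is finite by `hfin`).
-/

namespace StarkR

open NumberField IsDedekindDomain

variable {F : Type} [Field F] [NumberField F] {m : ℕ} {n : Fin m → ℕ} [∀ i, NeZero (n i)]

private theorem Cnt_ker {A : Type} [Group A] (σ : A ≃* A) (φ : Gal(AlgebraicClosure F/F) →* A) :
    (σ.toMonoidHom.comp φ).ker = φ.ker := by
  ext g
  rw [MonoidHom.mem_ker, MonoidHom.mem_ker]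
  show σ (φ g) = 1 ↔ φ g = 1
  exact map_eq_one_iff σ σ.injective

private theorem Cnt_fld {A : Type} [Group A] (σ : A ≃* A) (φ : Gal(AlgebraicClosure F/F) →* A) :
    fld (σ.toMonoidHom.comp φ) = fld φ := by
  unfold fld
  rw [Cnt_ker]

private theorem Cnt_cts {A : Type} [Group A] (σ : A ≃* A) {φ : Gal(AlgebraicClosure F/F) →* A} (h : Cts φ) :
    Cts (σ.toMonoidHom.comp φ) := by
  obtain ⟨N, h1, h2, h3⟩ := h
  refine ⟨N, h1, h2, fun g hg => ?_⟩
  show σ (φ g) = 1
  rw [h3 g hg, map_one]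

private theorem Cnt_ram {S : Finset (Prm F)} {K H : IntermediateField F (AlgebraicClosure F)} (hKH : K = H)
    (h : ∀ (_ : NumberField H) (q : Prm F), Ramified H q → q ∈ S) :
    ∀ (_ : NumberField K) (q : Prm F), Ramified K q → q ∈ S := by
  subst hKH
  exact h

/-- two surjective homomorphisms with the same field differ by an automorphism -/
private theorem Cnt_iso {A : Type} [Group A] {φ ψ : Gal(AlgebraicClosure F/F) →* A} (hφ : Cts φ) (hψ : Cts ψ)
    (sφ : Function.Surjective φ) (sψ : Function.Surjective ψ) (h : fld φ = fld ψ) :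
    ∃ σ : A ≃* A, φ = σ.toMonoidHom.comp ψ := by
  have hk : ψ.ker = φ.ker := by
    ext g
    rw [MonoidHom.mem_ker, MonoidHom.mem_ker, fld_ker hφ, fld_ker hψ, h]
  let e := ((QuotientGroup.quotientKerEquivOfSurjective ψ sψ).symm.trans (QuotientGroup.quotientMulEquivOfEq hk)).trans
    (QuotientGroup.quotientKerEquivOfSurjective φ sφ)
  refine ⟨e, ?_⟩
  ext g
  show φ g = e (ψ g)
  have h1 : (QuotientGroup.quotientKerEquivOfSurjective ψ sψ).symm (ψ g) = (g : Gal(AlgebraicClosure F/F) ⧸ ψ.ker) := by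
    rw [MulEquiv.symm_apply_eq]
    rfl
  show φ g = (QuotientGroup.quotientKerEquivOfSurjective φ sφ)
    ((QuotientGroup.quotientMulEquivOfEq hk) ((QuotientGroup.quotientKerEquivOfSurjective ψ sψ).symm (ψ g)))
  rw [h1]
  rfl

/-- a homomorphism for every extension -/
private theorem Cnt_hom {S : Finset (Prm F)} {H : IntermediateField F (AlgebraicClosure F)} (hH : H ∈ ExtS F n S) :
    ∃ r : Gal(AlgebraicClosure F/F) →* Multiplicative (V n), r ∈ HomS n S ∧ Function.Surjective r ∧ fld r = H := by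
  obtain ⟨hnf, hgal, ⟨f⟩, hS⟩ := hH
  haveI : FiniteDimensional F H := Module.Finite.of_restrictScalars_finite ℚ F H
  obtain ⟨h1, h2⟩ := fld_of H f.toMonoidHom f.injective
  refine ⟨f.toMonoidHom.comp (AlgEquiv.restrictNormalHom H), ⟨h1, Cnt_ram h2 fun _ q hq => hS q hq⟩, ?_, h2⟩
  exact f.surjective.comp (AlgEquiv.restrictNormalHom_surjective (AlgebraicClosure F))

/-- the extension of a surjective homomorphism -/
private theorem Cnt_ext {S : Finset (Prm F)} {φ : Gal(AlgebraicClosure F/F) →* Multiplicative (V n)} (h : φ ∈ HomS n S)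
    (hs : Function.Surjective φ) : fld φ ∈ ExtS F n S := by
  obtain ⟨h1, h2⟩ := h
  obtain ⟨_, hgal⟩ := fld_gal h1
  haveI := fld_nf h1
  obtain ⟨f, hf, hfφ⟩ := fld_hom h1
  refine ⟨fld_nf h1, hgal, ⟨MulEquiv.ofBijective f ⟨hf, fun a => ?_⟩⟩, fun q hq => h2 (fld_nf h1) q hq⟩
  obtain ⟨g, hg⟩ := hs a
  exact ⟨_, (hfφ g).trans hg⟩

theorem extS_finite {S : Finset (Prm F)} (hfin : (HomS n S).Finite) : (ExtS F n S).Finite := by
  refine (hfin.image fld).subset fun H hH => ?_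
  obtain ⟨r, hr, _, hf⟩ := Cnt_hom hH
  exact ⟨r, hr, hf⟩

theorem ext_count {S : Finset (Prm F)} (hfin : (HomS n S).Finite) (P : IntermediateField F (AlgebraicClosure F) → Prop) :
    Set.ncard {φ : Gal(AlgebraicClosure F/F) →* Multiplicative (V n) | φ ∈ HomS n S ∧ Function.Surjective φ ∧ P (fld φ)} =
      Nat.card (Multiplicative (V n) ≃* Multiplicative (V n)) * Set.ncard {H | H ∈ ExtS F n S ∧ P H} := by
  choose r hr1 hr2 hr3 using fun H : {H // H ∈ {H | H ∈ ExtS F n S ∧ P H}} => Cnt_hom (n := n) (S := S) H.2.1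
  let Φ : (Multiplicative (V n) ≃* Multiplicative (V n)) × {H // H ∈ {H | H ∈ ExtS F n S ∧ P H}} →
      {φ // φ ∈ {φ : Gal(AlgebraicClosure F/F) →* Multiplicative (V n) | φ ∈ HomS n S ∧ Function.Surjective φ ∧ P (fld φ)}} :=
    fun p => ⟨p.1.toMonoidHom.comp (r p.2), ⟨Cnt_cts p.1 (hr1 p.2).1,
      Cnt_ram (Cnt_fld p.1 (r p.2)) (hr1 p.2).2⟩, p.1.surjective.comp (hr2 p.2), by
        rw [Cnt_fld, hr3]
        exact p.2.2.2⟩
  have hΦ : Function.Bijective Φ := by
    constructor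
    · rintro ⟨σ, H⟩ ⟨σ', H'⟩ h
      have h1 : σ.toMonoidHom.comp (r H) = σ'.toMonoidHom.comp (r H') := congrArg Subtype.val h
      have h2 : H = H' := by
        apply Subtype.ext
        rw [← hr3 H, ← hr3 H', ← Cnt_fld σ (r H), h1, Cnt_fld]
      subst h2
      have h3 : σ = σ' := by
        refine MulEquiv.ext fun a => ?_
        obtain ⟨g, hg⟩ := hr2 H a
        rw [← hg]
        exact congrArg (fun ψ : Gal(AlgebraicClosure F/F) →* Multiplicative (V n) => ψ g) h1
      rw [h3]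
    · rintro ⟨φ, hφ1, hφ2, hφ3⟩
      have h1 : fld φ ∈ {H | H ∈ ExtS F n S ∧ P H} := ⟨Cnt_ext hφ1 hφ2, hφ3⟩
      obtain ⟨σ, hσ⟩ := Cnt_iso hφ1.1 (hr1 ⟨fld φ, h1⟩).1 hφ2 (hr2 ⟨fld φ, h1⟩) (hr3 ⟨fld φ, h1⟩).symm
      refine ⟨(σ, ⟨fld φ, h1⟩), ?_⟩
      apply Subtype.ext
      exact hσ.symm
  rw [← Nat.card_coe_set_eq, ← Nat.card_coe_set_eq, ← Nat.card_prod]
  exact (Nat.card_congr (Equiv.ofBijective Φ hΦ)).symm

end StarkR
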