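import Pool.Agent.Lib.MP_d9bae3_nt.EX.Base

/-!
# Module EX-Crt: uniformisers and primitive roots which are `1` modulo the other primes
-/

namespace StarkR

open NumberField IsDedekindDomain
open scoped Pointwise

variable {F L : Type} [Field F] [NumberField F] [Field L] [NumberField L] [Algebra F L]

omit [NumberField F] in
private theorem crt_smul_prime (Q : Prm L) (τ : Gal(L/F)) : Prime (τ⁻¹ • Q.asIdeal) := by
  have hQ : Q.asIdeal.IsPrime := Q.isPrime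
  refine Ideal.prime_of_isPrime ?_ ?_
  · intro h
    apply Q.ne_bot
    rw [eq_bot_iff]
    intro x hx
    have h1 : τ⁻¹ • x ∈ τ⁻¹ • Q.asIdeal := Ideal.smul_mem_pointwise_smul_iff.2 hx
    rw [h, Ideal.mem_bot] at h1
    rw [Ideal.mem_bot]
    have h2 : τ • (τ⁻¹ • x) = τ • (0 : 𝓞 L) := by rw [h1]
    rwa [smul_inv_smul, smul_zero] at h2
  · constructor
    · intro h
      apply hQ.ne_top
      rw [Ideal.eq_top_iff_one]
      have h1 : (1 : 𝓞 L) ∈ τ⁻¹ • Q.asIdeal := by rw [h]; trivial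
      rw [Ideal.mem_inv_pointwise_smul_iff, smul_one] at h1
      exact h1
    · intro x y hxy
      rw [Ideal.mem_inv_pointwise_smul_iff, smul_mul'] at hxy
      rw [Ideal.mem_inv_pointwise_smul_iff, Ideal.mem_inv_pointwise_smul_iff]
      exact hQ.mem_or_mem hxy

/-- Chinese remainder theorem for the conjugates of the `Q_i` -/
private theorem crt_exists {e N : ℕ} (Q : Fin N → Prm L) (hQ : ∀ j, GoodPrm F e (Q j))
    (hc : ∀ (i j : Fin N) (τ : Gal(L/F)), τ • (Q i).asIdeal = (Q j).asIdeal → i = j) (j : Fin N)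
    (x : 𝓞 L) :
    ∃ y : 𝓞 L, y - x ∈ (Q j).asIdeal ^ 2 ∧ ∀ (i : Fin N) (τ : Gal(L/F)), (i ≠ j ∨ τ ≠ 1) →
      τ • y - 1 ∈ (Q i).asIdeal := by
  classical
  have fL : FiniteDimensional F L := Module.Finite.of_restrictScalars_finite ℚ F L
  have := Fintype.ofFinite (Gal(L/F))
  obtain ⟨y, hy⟩ := IsDedekindDomain.exists_forall_sub_mem_ideal
    (s := (Finset.univ : Finset (Fin N × Gal(L/F)))) (fun p => p.2⁻¹ • (Q p.1).asIdeal)
    (fun _ => 2) (fun p _ => crt_smul_prime (Q p.1) p.2) (by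
      rintro ⟨i, τ⟩ - ⟨k, σ⟩ - hne h
      apply hne
      change τ⁻¹ • (Q i).asIdeal = σ⁻¹ • (Q k).asIdeal at h
      have h1 : (σ * τ⁻¹) • (Q i).asIdeal = (Q k).asIdeal := by
        rw [mul_smul, h, smul_inv_smul]
      have h2 : i = k := hc i k _ h1
      subst h2
      have h3 : σ * τ⁻¹ ∈ MulAction.stabilizer Gal(L/F) (Q i).asIdeal := h1
      rw [(hQ i).2, Subgroup.mem_bot] at h3
      have h4 : σ = τ := by rwa [mul_inv_eq_one] at h3
      rw [h4]) (fun p => if p.1 = (j, (1 : Gal(L/F))) then x else 1)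
  refine ⟨y, ?_, ?_⟩
  · have h1 := hy (j, 1) (Finset.mem_univ _)
    simpa using h1
  · intro i τ h
    have h1 := hy (i, τ) (Finset.mem_univ _)
    have h2 : ¬ ((i, τ) = (j, (1 : Gal(L/F)))) := by
      intro h3
      rw [Prod.mk.injEq] at h3
      rcases h with h | h
      · exact h h3.1
      · exact h h3.2
    simp only [if_neg h2] at h1
    have h3 : y - 1 ∈ τ⁻¹ • (Q i).asIdeal := Ideal.pow_le_self two_ne_zero h1
    rw [Ideal.mem_inv_pointwise_smul_iff, smul_sub, smul_one] at h3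
    exact h3

theorem exists_pu {e N : ℕ} (Q : Fin N → Prm L) (hQ : ∀ j, GoodPrm F e (Q j))
    (hc : ∀ (i j : Fin N) (τ : Gal(L/F)), τ • (Q i).asIdeal = (Q j).asIdeal → i = j) (j : Fin N) :
    ∃ π u : 𝓞 L, LocGen (Q j) π u ∧ ∀ (i : Fin N) (τ : Gal(L/F)), (i ≠ j ∨ τ ≠ 1) →
      τ • π - 1 ∈ (Q i).asIdeal ∧ τ • u - 1 ∈ (Q i).asIdeal := by
  classical
  have hprime : (Q j).asIdeal.IsPrime := (Q j).isPrime
  have hle : (Q j).asIdeal ^ 2 ≤ (Q j).asIdeal := Ideal.pow_le_self two_ne_zero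
  -- a uniformiser
  obtain ⟨p₀, hp₀, hp₀'⟩ := SetLike.exists_of_lt
    (Ideal.pow_lt_self (Q j).asIdeal (Q j).ne_bot hprime.ne_top 2 le_rfl)
  obtain ⟨π, hπ1, hπ2⟩ := crt_exists Q hQ hc j p₀
  -- a generator of the units
  have hfin : Finite (𝓞 L ⧸ (Q j).asIdeal) := Ideal.finiteQuotientOfFreeOfNeBot _ (Q j).ne_bot
  have hmax : (Q j).asIdeal.IsMaximal := (Q j).isMaximal
  let _ : Field (𝓞 L ⧸ (Q j).asIdeal) := Ideal.Quotient.field _
  obtain ⟨g, hg⟩ := IsCyclic.exists_monoid_generator (α := (𝓞 L ⧸ (Q j).asIdeal)ˣ)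
  obtain ⟨u₀, hu₀⟩ := Ideal.Quotient.mk_surjective (g : 𝓞 L ⧸ (Q j).asIdeal)
  obtain ⟨u, hu1, hu2⟩ := crt_exists Q hQ hc j u₀
  have hu : Ideal.Quotient.mk (Q j).asIdeal u = g := by
    rw [← hu₀]
    exact Ideal.Quotient.eq.2 (hle hu1)
  refine ⟨π, u, ⟨?_, ?_, ?_, ?_⟩, fun i τ h => ⟨hπ2 i τ h, hu2 i τ h⟩⟩
  · have : π = (π - p₀) + p₀ := by ring
    rw [this]
    exact Ideal.add_mem _ (hle hπ1) hp₀
  · intro h
    apply hp₀'
    have : p₀ = π - (π - p₀) := by ring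
    rw [this]
    exact Ideal.sub_mem _ h hπ1
  · intro h
    rw [← Ideal.Quotient.eq_zero_iff_mem, hu] at h
    exact g.ne_zero h
  · intro x hx
    have hx0 : Ideal.Quotient.mk (Q j).asIdeal x ≠ 0 := fun h =>
      hx (Ideal.Quotient.eq_zero_iff_mem.1 h)
    obtain ⟨l, hl⟩ := hg (Units.mk0 _ hx0)
    refine ⟨l, Ideal.Quotient.eq.1 ?_⟩
    rw [map_pow, hu]
    have h1 := congrArg (Units.val) hl
    simpa using h1.symm

end StarkR
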