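import Pool.Agent.Lib.MP_d9bae3_nt.EX.Fld
import Pool.Agent.Lib.MP_d9bae3_nt.SG.GRam

/-!
# Module EX-Lift: the compositum of `L` and `H = fld φ` in `Ω`

Plan.  `M = L ⊔ fld φ` (an `IntermediateField F Ω`, finite over `F`, a number field), `Algebra L M`, `Algebra H M` by the inclusions (`(IntermediateField.inclusion le_sup_left).toRingHom.toAlgebra`), the towers by `IsScalarTower.of_algebraMap_eq`.
`IsCompositum`: `adjoin L (range H)` contains the images of `L` and of `H`, and `M` is generated by them over `F`.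
The `α_i ∈ Ω` of `RadOf` are fixed by `M.fixingSubgroup` (such `g` fixes `L` and `H`, so `φ g = 1` by `fld_ker`), so `α_i ∈ M`.  For `σ ∈ Gal(M/L)` choose a lift `g ∈ Γ` (`M/F` is normal); `g ∈ L.fixingSubgroup`, and `resLH σ` is the restriction of `g` to `H`, so
`f (resLH σ) = φ g`.  `adjoin L (range α) = ⊤`: as in the proof of `kummer_gen` (SG/CHil.lean): an automorphism of `M` over `L` which fixes all `α_i` has `f (resLH σ) = 1`, so `resLH σ = 1`, so `σ = 1` (`resLH_injective`, SG/GRam.lean).
-/

namespace StarkR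

open NumberField IsDedekindDomain

variable {F : Type} [Field F] [NumberField F] {L : IntermediateField F (AlgebraicClosure F)} [NumberField L]
variable {m : ℕ} {n : Fin m → ℕ} [∀ i, NeZero (n i)]

private theorem Lift_zero {K : Type} [Field K] {e k : ℕ} [NeZero k] (he : 0 < e) {ζ : K} (hζ : IsPrimitiveRoot ζ e)
    (hk : k ∣ e) (a : ZMod k) (h : ζ ^ ((e / k) * a.val) = 1) : a = 0 := by
  have h1 : e ∣ (e / k) * a.val := (hζ.pow_eq_one_iff_dvd _).1 h
  obtain ⟨c, hc⟩ := hk
  have hk0 : 0 < k := Nat.pos_of_ne_zero (NeZero.ne k)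
  have hc0 : 0 < c := by
    rcases Nat.eq_zero_or_pos c with h | h
    · subst h; simp at hc; omega
    · exact h
  have h2 : e / k = c := by rw [hc]; exact Nat.mul_div_cancel_left c hk0
  rw [h2, hc, mul_comm k c] at h1
  have h3 : k ∣ a.val := Nat.dvd_of_mul_dvd_mul_left hc0 h1
  have h4 : a.val = 0 := Nat.eq_zero_of_dvd_of_lt h3 (ZMod.val_lt a)
  exact (ZMod.val_eq_zero a).1 h4

omit [NumberField F] [NumberField L] in
private theorem Lift_comp {H M : IntermediateField F (AlgebraicClosure F)} (hM : M = L ⊔ H) [Algebra L M] [Algebra H M]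
    [IsScalarTower F L M]
    (hLM : ∀ x : L, ((algebraMap L M x : M) : AlgebraicClosure F) = x)
    (hHM : ∀ x : H, ((algebraMap H M x : M) : AlgebraicClosure F) = x) :
    IntermediateField.adjoin L (Set.range (algebraMap H M)) = ⊤ := by
  rw [eq_top_iff]
  intro y _
  let E : IntermediateField F M := (IntermediateField.adjoin L (Set.range (algebraMap H M))).restrictScalars F
  have hL : L ≤ IntermediateField.lift E := by
    intro x hx
    have h1 : algebraMap L M ⟨x, hx⟩ ∈ E := (IntermediateField.adjoin L (Set.range (algebraMap H M))).algebraMap_mem ⟨x, hx⟩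
    have h2 := (IntermediateField.mem_lift _).2 h1
    rwa [hLM] at h2
  have hH : H ≤ IntermediateField.lift E := by
    intro x hx
    have h1 : algebraMap H M ⟨x, hx⟩ ∈ E := IntermediateField.subset_adjoin L _ ⟨⟨x, hx⟩, rfl⟩
    have h2 := (IntermediateField.mem_lift _).2 h1
    rwa [hHM] at h2
  have h3 : (y : AlgebraicClosure F) ∈ IntermediateField.lift E := by
    have h4 : M ≤ IntermediateField.lift E := by
      conv_lhs => rw [hM]
      exact sup_le hL hH
    exact h4 y.2
  exact (IntermediateField.mem_lift _).1 h3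

private theorem Lift_core [IsGalois F L] {e : ℕ} (he : 0 < e) {ζ : L} (hζ : IsPrimitiveRoot ζ e) (hn : ∀ i, n i ∣ e)
    {φ : Gal(AlgebraicClosure F/F) →* Multiplicative (V n)} (hφ : Cts φ) [NumberField (fld φ)] [IsGalois F (fld φ)]
    {f : Gal(fld φ/F) →* Multiplicative (V n)} (hf : Function.Injective f)
    (hfφ : ∀ g, f (AlgEquiv.restrictNormalHom (fld φ) g) = φ g) {x : Fin m → L} (hx : RadOf e ζ φ x)
    (M : IntermediateField F (AlgebraicClosure F)) (hM : M = L ⊔ fld φ) [NumberField M] [Algebra L M] [Algebra (fld φ) M]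
    [IsScalarTower F L M] [IsScalarTower F (fld φ) M]
    (hLM : ∀ x : L, ((algebraMap L M x : M) : AlgebraicClosure F) = x)
    (hHM : ∀ x : fld φ, ((algebraMap (fld φ) M x : M) : AlgebraicClosure F) = x) :
    ∃ α : Fin m → M, (∀ i, α i ^ n i = algebraMap L M (x i)) ∧
      IntermediateField.adjoin L (Set.range α) = ⊤ ∧
      ∀ (σ : Gal(M/L)) (i : Fin m),
        σ (α i) = algebraMap L M (ζ ^ ((e / n i) * ((f (resLH F L (fld φ) M σ)).toAdd i).val)) * α i := by
  obtain ⟨hx0, α, hα, hαg⟩ := hx
  have hc : IsCompositum L (fld φ) M := Lift_comp hM hLM hHM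
  have hmem : ∀ i, α i ∈ M := by
    intro i
    rw [← InfiniteGalois.fixedField_fixingSubgroup M, IntermediateField.mem_fixedField_iff]
    intro g hg
    have hgL : g ∈ L.fixingSubgroup := IntermediateField.fixingSubgroup_antitone (hM ▸ le_sup_left) hg
    have hgH : g ∈ (fld φ).fixingSubgroup := IntermediateField.fixingSubgroup_antitone (hM ▸ le_sup_right) hg
    have h1 := (fld_ker hφ g).2 hgH
    have h2 := hαg g hgL i
    rw [h1] at h2
    simpa using h2
  have hσ : ∀ (σ : Gal(M/L)) (i : Fin m),
      σ (⟨α i, hmem i⟩ : M) = algebraMap L M (ζ ^ ((e / n i) * ((f (resLH F L (fld φ) M σ)).toAdd i).val)) * ⟨α i, hmem i⟩ := by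
    intro σ i
    obtain ⟨g, hg⟩ : ∃ g : Gal(AlgebraicClosure F/F), ∀ y : M, g (y : AlgebraicClosure F) = (σ y : M) :=
      ⟨(AlgEquiv.restrictScalarsHom F σ).liftNormal (AlgebraicClosure F), fun y =>
        (AlgEquiv.restrictScalarsHom F σ).liftNormal_commutes (AlgebraicClosure F) y⟩
    have hgL : g ∈ L.fixingSubgroup := by
      rw [IntermediateField.mem_fixingSubgroup_iff]
      intro y hy
      have h1 := hg (algebraMap L M ⟨y, hy⟩)
      rwa [AlgEquiv.commutes, hLM] at h1
    have hres : AlgEquiv.restrictNormalHom (fld φ) g = resLH F L (fld φ) M σ := by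
      ext y
      have h1 : ((AlgEquiv.restrictNormalHom (fld φ) g y : fld φ) : AlgebraicClosure F) = g (y : AlgebraicClosure F) :=
        AlgEquiv.restrictNormal_commutes g (fld φ) y
      rw [h1]
      have h2 := hg (algebraMap (fld φ) M y)
      rw [hHM] at h2
      rw [h2, ← resLH_apply (F := F), hHM]
    have h3 := hαg g hgL i
    rw [← hfφ g, hres] at h3
    apply Subtype.ext
    rw [← hg]
    rw [h3]
    push_cast
    rw [hLM]
  refine ⟨fun i => ⟨α i, hmem i⟩, ?_, ?_, hσ⟩
  · intro i
    apply Subtype.ext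
    rw [hLM]
    exact hα i
  · have : IsGalois F M := comp_galois F L (fld φ) M hc
    have : IsGalois L M := IsGalois.tower_top_of_isGalois F L M
    have hα0 : ∀ i, (⟨α i, hmem i⟩ : M) ≠ 0 := by
      intro i h
      have h1 : α i = 0 := congrArg Subtype.val h
      have h2 := hα i
      rw [h1, zero_pow (NeZero.ne (n i))] at h2
      exact hx0 i (Subtype.ext h2.symm)
    have hbot : (IntermediateField.adjoin L (Set.range fun i => (⟨α i, hmem i⟩ : M))).fixingSubgroup = ⊥ := by
      rw [eq_bot_iff]
      intro σ hσ'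
      rw [IntermediateField.mem_fixingSubgroup_iff] at hσ'
      have h1 : f (resLH F L (fld φ) M σ) = 1 := by
        apply Multiplicative.toAdd.injective
        funext i
        have h2 : σ (⟨α i, hmem i⟩ : M) = ⟨α i, hmem i⟩ := hσ' _ (IntermediateField.subset_adjoin L _ ⟨i, rfl⟩)
        rw [hσ σ i] at h2
        have h3 : algebraMap L M (ζ ^ ((e / n i) * ((f (resLH F L (fld φ) M σ)).toAdd i).val)) = 1 :=
          mul_right_cancel₀ (hα0 i) (h2.trans (one_mul _).symm)
        have h4 : ζ ^ ((e / n i) * ((f (resLH F L (fld φ) M σ)).toAdd i).val) = 1 := by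
          apply (algebraMap L M).injective
          rw [h3, map_one]
        exact Lift_zero he hζ (hn i) _ h4
      rw [Subgroup.mem_bot]
      have h5 : resLH F L (fld φ) M σ = 1 := hf (h1.trans (map_one f).symm)
      exact resLH_injective hc (h5.trans (map_one _).symm)
    have h6 := IsGalois.fixedField_fixingSubgroup (IntermediateField.adjoin L (Set.range fun i => (⟨α i, hmem i⟩ : M)))
    rw [← h6, hbot]
    exact IntermediateField.fixedField_bot

theorem lift_M [IsGalois F L] {e : ℕ} (he : 0 < e) {ζ : L} (hζ : IsPrimitiveRoot ζ e) (hn : ∀ i, n i ∣ e)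
    {φ : Gal(AlgebraicClosure F/F) →* Multiplicative (V n)} (hφ : Cts φ) [NumberField (fld φ)] [IsGalois F (fld φ)]
    {f : Gal(fld φ/F) →* Multiplicative (V n)} (hf : Function.Injective f)
    (hfφ : ∀ g, f (AlgEquiv.restrictNormalHom (fld φ) g) = φ g) {x : Fin m → L} (hx : RadOf e ζ φ x) :
    ∃ (M : Type) (_ : Field M) (_ : NumberField M) (_ : Algebra F M) (_ : Algebra L M) (_ : Algebra (fld φ) M)
      (_ : IsScalarTower F L M) (_ : IsScalarTower F (fld φ) M) (α : Fin m → M),
      IsCompositum L (fld φ) M ∧ (∀ i, α i ^ n i = algebraMap L M (x i)) ∧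
      IntermediateField.adjoin L (Set.range α) = ⊤ ∧
      ∀ (σ : Gal(M/L)) (i : Fin m),
        σ (α i) = algebraMap L M (ζ ^ ((e / n i) * ((f (resLH F L (fld φ) M σ)).toAdd i).val)) * α i := by
  let M : IntermediateField F (AlgebraicClosure F) := L ⊔ fld φ
  have : FiniteDimensional F L := Module.Finite.of_restrictScalars_finite ℚ F L
  have : FiniteDimensional F (fld φ) := Module.Finite.of_restrictScalars_finite ℚ F (fld φ)
  have : FiniteDimensional F M := IntermediateField.finiteDimensional_sup L (fld φ)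
  have : NumberField M := NumberField.of_module_finite F M
  let aL : Algebra L M := (IntermediateField.inclusion (le_sup_left : L ≤ L ⊔ fld φ)).toRingHom.toAlgebra
  let aH : Algebra (fld φ) M := (IntermediateField.inclusion (le_sup_right : fld φ ≤ L ⊔ fld φ)).toRingHom.toAlgebra
  have tL : IsScalarTower F L M := IsScalarTower.of_algebraMap_eq fun _ => rfl
  have tH : IsScalarTower F (fld φ) M := IsScalarTower.of_algebraMap_eq fun _ => rfl
  have hLM : ∀ x : L, ((algebraMap L M x : M) : AlgebraicClosure F) = x := fun _ => rfl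
  have hHM : ∀ x : fld φ, ((algebraMap (fld φ) M x : M) : AlgebraicClosure F) = x := fun _ => rfl
  obtain ⟨α, h1, h2, h3⟩ := Lift_core he hζ hn hφ hf hfφ hx M rfl hLM hHM
  exact ⟨M, inferInstance, inferInstance, inferInstance, aL, aH, tL, tH, α, Lift_comp rfl hLM hHM, h1, h2, h3⟩

end StarkR
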