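import Pool.Agent.Lib.MP_d9bae3_nt.EX.Base

/-!
# Module EX-RadU: rules for Kummer radicals

Plan.  Elementary; the elements `g ∈ L.fixingSubgroup` fix `ζ` and `L`.
* `rad_mul`: `α_i β_i`; `((φ ψ) g)_i = (φ g)_i + (ψ g)_i` in `ZMod (n i)`, and `ζ^(e/n_i)` is an `n_i`-th root of unity.
* `rad_one`: `α_i = 1`.
* `rad_scale`: `α_i / z_i`.
* `rad_int`: multiply by `d^(n_i)` with `0 ≠ d ∈ 𝓞 L` such that `d x_i ∈ 𝓞 L`.
* `rad_unique`: `α_i / β_i` is fixed by `L.fixingSubgroup`, so it is in `L` (`InfiniteGalois.fixedField_fixingSubgroup L`, `Ω/L` is Galois).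
* `rad_eq`: `α_i / β_i` is an `n_i`-th root of unity, so it is a power of `ζ^(e/n_i)` and in `L`; then `g(α_i)/α_i = g(β_i)/β_i`, and `ζ^((e/n_i) a) = ζ^((e/n_i) b)` with `a, b < n_i` gives `a = b`.
-/

namespace StarkR

open NumberField IsDedekindDomain

variable {F : Type} [Field F] [NumberField F] {L : IntermediateField F (AlgebraicClosure F)} [NumberField L]
variable {m : ℕ} {n : Fin m → ℕ} [∀ i, NeZero (n i)]

private theorem ru_fix {g : Gal(AlgebraicClosure F/F)} (hg : g ∈ L.fixingSubgroup) (x : L) :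
    g (x : AlgebraicClosure F) = x :=
  (IntermediateField.mem_fixingSubgroup_iff L g).1 hg _ x.2

private theorem ru_mod {R : Type} [Monoid R] {z : R} {e k : ℕ} (hz : z ^ e = 1) (hk : k ∣ e) (s : ℕ) :
    z ^ ((e / k) * (s % k)) = z ^ ((e / k) * s) := by
  conv_rhs => rw [← Nat.div_add_mod s k]
  rw [mul_add, ← mul_assoc, Nat.div_mul_cancel hk, pow_add, pow_mul z e, hz, one_pow, one_mul]

private theorem ru_ne {x : L} {k : ℕ} (hk : k ≠ 0) (hx : x ≠ 0) {α : AlgebraicClosure F} (h : α ^ k = (x : AlgebraicClosure F)) :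
    α ≠ 0 := by
  rintro rfl
  rw [zero_pow hk] at h
  exact hx (Subtype.ext h.symm)

theorem rad_mul {e : ℕ} (he : 0 < e) {ζ : L} (hζ : IsPrimitiveRoot ζ e) (hn : ∀ i, n i ∣ e)
    {φ ψ : Gal(AlgebraicClosure F/F) →* Multiplicative (V n)} {x y : Fin m → L} (hx : RadOf e ζ φ x) (hy : RadOf e ζ ψ y) :
    RadOf e ζ (φ * ψ) (fun i => x i * y i) := by
  obtain ⟨hx0, α, hα, hαg⟩ := hx
  obtain ⟨hy0, β, hβ, hβg⟩ := hy
  have hζe : ((ζ : L) : AlgebraicClosure F) ^ e = 1 := by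
    have h := hζ.pow_eq_one
    have h2 := congrArg (fun z : L => (z : AlgebraicClosure F)) h
    simpa using h2
  refine ⟨fun i => mul_ne_zero (hx0 i) (hy0 i), fun i => α i * β i, ?_, ?_⟩
  · intro i
    rw [mul_pow, hα i, hβ i]
    rfl
  · intro g hg i
    rw [map_mul, hαg g hg i, hβg g hg i]
    have h1 : ((φ * ψ) g).toAdd i = (φ g).toAdd i + (ψ g).toAdd i := rfl
    rw [h1, ZMod.val_add, ru_mod hζe (hn i), mul_add, pow_add]
    ring

theorem rad_one {e : ℕ} {ζ : L} : RadOf e ζ (1 : Gal(AlgebraicClosure F/F) →* Multiplicative (V n)) (fun _ => 1) := by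
  refine ⟨fun i => one_ne_zero, fun _ => 1, ?_, ?_⟩
  · intro i
    rw [one_pow]
    rfl
  · intro g hg i
    have h1 : ((1 : Gal(AlgebraicClosure F/F) →* Multiplicative (V n)) g).toAdd i = 0 := rfl
    rw [h1, ZMod.val_zero, mul_zero, pow_zero, map_one, mul_one]

theorem rad_scale {e : ℕ} {ζ : L} {φ : Gal(AlgebraicClosure F/F) →* Multiplicative (V n)} {x y : Fin m → L}
    (hx : RadOf e ζ φ x) (z : Fin m → L) (hz : ∀ i, z i ≠ 0) (h : ∀ i, x i = y i * z i ^ n i) : RadOf e ζ φ y := by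
  obtain ⟨hx0, α, hα, hαg⟩ := hx
  have hz' : ∀ i, ((z i : L) : AlgebraicClosure F) ≠ 0 := fun i h0 => hz i (Subtype.ext h0)
  refine ⟨?_, fun i => α i / (z i : AlgebraicClosure F), ?_, ?_⟩
  · intro i h0
    refine hx0 i ?_
    rw [h i, h0, zero_mul]
  · intro i
    rw [div_pow, hα i, h i, div_eq_iff (pow_ne_zero _ (hz' i))]
    push_cast
    rfl
  · intro g hg i
    rw [map_div₀, hαg g hg i, ru_fix hg, mul_div_assoc]

theorem rad_int {e : ℕ} {ζ : L} {φ : Gal(AlgebraicClosure F/F) →* Multiplicative (V n)} {x : Fin m → L}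
    (hx : RadOf e ζ φ x) : ∃ y : Fin m → 𝓞 L, RadOf e ζ φ (fun i => (y i : L)) := by
  have h : ∀ i, ∃ a b : 𝓞 L, (b : L) ≠ 0 ∧ x i = (a : L) / (b : L) := by
    intro i
    obtain ⟨a, b, hb, hab⟩ := IsFractionRing.div_surjective (A := 𝓞 L) (x i)
    refine ⟨a, b, ?_, hab.symm⟩
    have hb' : b ≠ 0 := nonZeroDivisors.ne_zero hb
    exact fun h0 => hb' (RingOfIntegers.ext h0)
  choose a b hb hab using h
  refine ⟨fun i => a i * b i ^ (n i - 1), rad_scale hx (fun i => (b i : L)⁻¹) (fun i => inv_ne_zero (hb i)) ?_⟩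
  intro i
  have hni : n i = (n i - 1) + 1 := by
    have := NeZero.pos (n i)
    omega
  have h1 : ((a i * b i ^ (n i - 1) : 𝓞 L) : L) = (a i : L) * (b i : L) ^ (n i - 1) := by
    push_cast
    rfl
  rw [h1, hab i, inv_pow]
  conv_rhs => rw [hni]
  rw [Nat.add_sub_cancel, pow_succ, mul_inv, mul_assoc, ← mul_assoc _ ((b i : L) ^ (n i - 1))⁻¹,
    mul_inv_cancel₀ (pow_ne_zero _ (hb i)), one_mul, div_eq_mul_inv]

theorem rad_unique {e : ℕ} {ζ : L} (hζ : IsPrimitiveRoot ζ e) {φ : Gal(AlgebraicClosure F/F) →* Multiplicative (V n)} {x y : Fin m → L}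
    (hx : RadOf e ζ φ x) (hy : RadOf e ζ φ y) (i : Fin m) : ∃ z : L, z ≠ 0 ∧ x i = y i * z ^ n i := by
  obtain ⟨hx0, α, hα, hαg⟩ := hx
  obtain ⟨hy0, β, hβ, hβg⟩ := hy
  have hα0 : α i ≠ 0 := ru_ne (NeZero.ne (n i)) (hx0 i) (hα i)
  have hβ0 : β i ≠ 0 := ru_ne (NeZero.ne (n i)) (hy0 i) (hβ i)
  have hmem : α i / β i ∈ L := by
    rw [← InfiniteGalois.fixedField_fixingSubgroup L, IntermediateField.mem_fixedField_iff]
    intro g hg
    have h1 : (ζ : AlgebraicClosure F) ^ ((e / n i) * ((φ g).toAdd i).val) ≠ 0 := by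
      intro h0
      have h2 := hαg g hg i
      rw [h0, zero_mul] at h2
      exact hα0 ((map_eq_zero g).1 h2)
    rw [map_div₀, hαg g hg i, hβg g hg i, mul_div_mul_left _ _ h1]
  refine ⟨⟨α i / β i, hmem⟩, ?_, ?_⟩
  · intro h0
    have h1 : α i / β i = 0 := congrArg (fun z : L => (z : AlgebraicClosure F)) h0
    exact (div_ne_zero hα0 hβ0) h1
  · apply Subtype.ext
    push_cast
    rw [← hα i, ← hβ i, div_pow, mul_div_cancel₀]
    exact pow_ne_zero _ hβ0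

theorem rad_eq {e : ℕ} (he : 0 < e) {ζ : L} (hζ : IsPrimitiveRoot ζ e) (hn : ∀ i, n i ∣ e)
    {φ ψ : Gal(AlgebraicClosure F/F) →* Multiplicative (V n)} {x : Fin m → L} (hx : RadOf e ζ φ x) (hy : RadOf e ζ ψ x)
    (g : Gal(AlgebraicClosure F/F)) (hg : g ∈ L.fixingSubgroup) : φ g = ψ g := by
  obtain ⟨hx0, α, hα, hαg⟩ := hx
  obtain ⟨-, β, hβ, hβg⟩ := hy
  have hζ' : IsPrimitiveRoot ((ζ : L) : AlgebraicClosure F) e :=
    hζ.map_of_injective (f := algebraMap L (AlgebraicClosure F)) (FaithfulSMul.algebraMap_injective _ _)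
  refine Multiplicative.toAdd.injective (funext fun i => ?_)
  apply ZMod.val_injective
  have hα0 : α i ≠ 0 := ru_ne (NeZero.ne (n i)) (hx0 i) (hα i)
  have hβ0 : β i ≠ 0 := ru_ne (NeZero.ne (n i)) (hx0 i) (hβ i)
  have hroot : (α i / β i) ^ e = 1 := by
    obtain ⟨t, ht⟩ := hn i
    rw [ht, pow_mul, div_pow, hα i, hβ i, div_self, one_pow]
    exact fun h0 => hx0 i (Subtype.ext h0)
  have hne : NeZero e := ⟨he.ne'⟩
  obtain ⟨j, _, hj⟩ := hζ'.eq_pow_of_pow_eq_one hroot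
  have hfix : g (α i / β i) = α i / β i := by
    rw [← hj, map_pow, ru_fix hg]
  rw [map_div₀, hαg g hg i, hβg g hg i, mul_div_mul_comm] at hfix
  have hq : α i / β i ≠ 0 := div_ne_zero hα0 hβ0
  have hζ0 : ((ζ : L) : AlgebraicClosure F) ≠ 0 := hζ'.ne_zero he.ne'
  have h1 : ((ζ : L) : AlgebraicClosure F) ^ ((e / n i) * ((φ g).toAdd i).val) =
      ((ζ : L) : AlgebraicClosure F) ^ ((e / n i) * ((ψ g).toAdd i).val) := by
    have h2 := mul_right_cancel₀ hq (hfix.trans (one_mul _).symm)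
    rwa [div_eq_one_iff_eq (pow_ne_zero _ hζ0)] at h2
  have hd : 0 < e / n i := Nat.div_pos (Nat.le_of_dvd he (hn i)) (NeZero.pos (n i))
  have hlt : ∀ a : ZMod (n i), (e / n i) * a.val < e := by
    intro a
    calc (e / n i) * a.val < (e / n i) * n i := Nat.mul_lt_mul_of_pos_left (ZMod.val_lt a) hd
      _ = e := Nat.div_mul_cancel (hn i)
  exact Nat.eq_of_mul_eq_mul_left hd (hζ'.pow_inj (hlt _) (hlt _) h1)

end StarkR
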