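import Pool.Agent.Lib.MP_d9bae3_nt.NA.OrdQ
import Pool.Agent.Lib.MP_d9bae3_nt.NA.SEx
import Pool.Agent.Lib.MP_d9bae3_nt.NA.Sel

/-!
# Module EX-SelL: the Selmer group is finite
-/

namespace StarkR

open NumberField IsDedekindDomain

theorem sel_fin (L : Type) [Field L] [NumberField L] {e : ℕ} (he : 0 < e) (S : Finset (Prm L)) :
    ∃ X : Finset (𝓞 L), (∀ y ∈ X, y ≠ 0) ∧ ∀ N : ℕ, 0 < N → N ∣ e → ∀ x : 𝓞 L, x ≠ 0 → (∀ Q : Prm L, Q ∉ S → N ∣ ordQ Q x) →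
      ∃ y ∈ X, ∃ a b : 𝓞 L, a ≠ 0 ∧ b ≠ 0 ∧ x * a ^ N = y * b ^ N := by
  classical
  obtain ⟨S₁, hS₁⟩ := exists_goodS L he
  have hG : GoodS e (S ∪ S₁) := by
    refine ⟨fun q hq => Finset.mem_union_right _ (hS₁.dvd q hq), fun I hI => ?_⟩
    obtain ⟨J, hJ0, hJ, hβ⟩ := hS₁.cls I hI
    exact ⟨J, hJ0, fun q hq => Finset.mem_union_right _ (hJ q hq), hβ⟩
  obtain ⟨E, hE1, hE2⟩ := sel_finite he (S ∪ S₁)
  refine ⟨E, fun y hy => (hE1 y hy).1, fun N hN0 hN x hx h => ?_⟩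
  obtain ⟨ε, hε, y, z, hy, hz, hyz⟩ := pow_unit he hG hE1 hE2 hN0 hN hx (one_ne_zero (α := 𝓞 L)) (by
    intro q hq
    have h1 : ordQ q (1 : 𝓞 L) = 0 := by
      have h2 := ordQ_pow q (one_ne_zero (α := 𝓞 L)) 0
      rw [pow_zero, zero_mul] at h2
      exact h2
    rw [h1, Nat.zero_mod]
    exact Nat.mod_eq_zero_of_dvd (h q fun hqS => hq (Finset.mem_union_left _ hqS)))
  exact ⟨ε, hε, y, z, hy, hz, by rw [hyz, mul_one]⟩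

end StarkR
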