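import Pool.Agent.Lib.MP_d9bae3_nt.EX.Base
import Pool.Agent.Lib.MP_d9bae3_nt.NA.OrdQ
import Pool.Agent.Lib.MP_d9bae3_nt.SG.GRam

/-!
# Module EX-ValR: radicands at unramified primes

Plan.  By `desc_ramified` (SG/GRam.lean) `¬ Ramified M Q`, so the inertia groups of the primes `P` of `M` above `Q` in `Gal(M/L)` are trivial (`M/L` is Galois, `comp_galois`), and their ramification index is `1` (as in the proof of `ev_ramified`, SK/Ram.lean).
Let `P` be such a prime.  `N · v_P(α) = v_P(x) = v_Q(x)` (`α` is an integer as `α^N = x`), so `N` divides `ordQ Q x` (`ordQ` is the multiplicity, NA/OrdQ.lean: `mem_pow_iff`).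
-/

namespace StarkR

open NumberField IsDedekindDomain
open scoped Pointwise

variable {F L H M : Type} [Field F] [NumberField F] [Field L] [NumberField L] [Field H] [NumberField H]
variable [Field M] [NumberField M] [Algebra F L] [Algebra F H] [Algebra F M] [Algebra L M] [Algebra H M]
variable [IsScalarTower F L M] [IsScalarTower F H M]

theorem val_of_unram [IsGalois F L] [IsGalois F H] (hc : IsCompositum L H M) {N : ℕ} (hN : 0 < N) {Q : Prm L}
    (hQ : ¬ Ramified H (Q.under (𝓞 F))) {α : M} {x : 𝓞 L} (hx : x ≠ 0) (h : α ^ N = algebraMap L M (x : L)) :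
    N ∣ ordQ Q x := by
  classical
  have hR : ¬ Ramified M Q := fun h => hQ (desc_ramified (F := F) hc h)
  have hG1 : IsGalois F M := comp_galois F L H M hc
  have hG : IsGalois L M := IsGalois.tower_top_of_isGalois F L M
  obtain ⟨w, hw⟩ : ∃ w : Prm M, w.asIdeal.LiesOver Q.asIdeal := by
    have hq := Q.isMaximal
    obtain ⟨P, hP1, hP2⟩ := Ideal.exists_maximal_ideal_liesOver_of_isIntegral Q.asIdeal (S := 𝓞 M)
    exact ⟨⟨P, hP1.isPrime, Ideal.ne_bot_of_liesOver_of_ne_bot Q.ne_bot P⟩, hP2⟩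
  have hint : IsIntegral ℤ α := by
    refine IsIntegral.of_pow hN ?_
    rw [h]
    exact (RingOfIntegers.isIntegral_coe x).map (algebraMap L M).toIntAlgHom
  set y : 𝓞 M := ⟨α, hint⟩ with hy
  have hyp : y ^ N = algebraMap (𝓞 L) (𝓞 M) x := by
    apply RingOfIntegers.ext
    exact h
  have hE := HeightOneSpectrum.intValuation_liesOver Q w x
  rw [← hyp, map_pow] at hE
  have hin : w.asIdeal.inertia Gal(M/L) = ⊥ := by
    by_contra hb
    exact hR ⟨w.asIdeal, w.isPrime, hw, hb⟩
  have hE1 : Q.asIdeal.ramificationIdx' w.asIdeal = 1 := by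
    have hfin : Finite (𝓞 L ⧸ Q.asIdeal) := Ideal.finiteQuotientOfFreeOfNeBot Q.asIdeal Q.ne_bot
    have hfin2 : Finite Q.asIdeal.ResidueField := by
      have hb := Q.isMaximal
      exact Finite.of_surjective _ (Ideal.bijective_algebraMap_quotient_residueField Q.asIdeal).2
    have h5 := Ideal.card_inertia_eq_ramificationIdxIn (G := Gal(M/L)) Q.asIdeal w.asIdeal
    rw [hin, Subgroup.card_bot] at h5
    rw [Ideal.ramificationIdx'_eq_ramificationIdx Q.asIdeal w.asIdeal Q.ne_bot,
      ← Ideal.ramificationIdxIn_eq_ramificationIdx Q.asIdeal w.asIdeal Gal(M/L), ← h5]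
  rw [hE1, pow_one] at hE
  have hy0 : y ≠ 0 := by
    rintro h0
    rw [h0, map_zero, zero_pow hN.ne'] at hE
    exact HeightOneSpectrum.intValuation_ne_zero Q x hx hE
  rw [HeightOneSpectrum.intValuation_if_neg _ hy0, HeightOneSpectrum.intValuation_if_neg _ hx, ← WithZero.exp_nsmul,
    WithZero.exp_inj, nsmul_eq_mul] at hE
  have hE2 : -(ordQ Q x : ℤ) = (N : ℤ) * -(ordQ w y : ℤ) := hE
  have h2 : (N : ℤ) ∣ (ordQ Q x : ℤ) := ⟨(ordQ w y : ℤ), by linarith⟩
  exact_mod_cast h2

end StarkR
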