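import Pool.Agent.Lib.MP_d9bae3_nt.EX.RadE
import Pool.Agent.Lib.MP_d9bae3_nt.EX.RadU
import Pool.Agent.Lib.MP_d9bae3_nt.EX.Lift
import Pool.Agent.Lib.MP_d9bae3_nt.EX.ValR
import Pool.Agent.Lib.MP_d9bae3_nt.EX.SelL

/-!
# Module EX-FinH: only finitely many homomorphisms are unramified outside of `S`

Plan.  Let `S'` be the finite set of the primes of `L` above `S`.  For `φ ∈ HomS n S` choose integral radicals `x_i` (`rad_exists`, `rad_int`).  With `f` (`fld_hom`), `M`, `α` (`lift_M`) and `val_of_unram`: `n_i ∣ ordQ Q x_i` for all `Q ∉ S'`.  By `sel_fin` there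
are `y_i` in the finite set `X` with `x_i a^(n_i) = y_i b^(n_i)`, and by `rad_scale` `y` is a system of radicals of `φ`.  Two `φ` with the same `y ∈ X^m` agree on `L.fixingSubgroup` (`rad_eq`), so their quotient is a homomorphism of `Γ / L.fixingSubgroup = Gal(L/F)`, a
finite group, to `V n`, and there are finitely many of these.
-/

namespace StarkR

open NumberField IsDedekindDomain

variable {F : Type} [Field F] [NumberField F] {L : IntermediateField F (AlgebraicClosure F)} [NumberField L]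
variable {m : ℕ} {n : Fin m → ℕ} [∀ i, NeZero (n i)]

/-- the primes of `L` above the finite set `S` -/
private theorem finh_above (F L : Type) [Field F] [NumberField F] [Field L] [NumberField L] [Algebra F L] (S : Finset (Prm F)) :
    ∃ S' : Finset (Prm L), ∀ Q : Prm L, Q ∉ S' → Q.under (𝓞 F) ∉ S := by
  have h1 : {Q : Prm L | Q.under (𝓞 F) ∈ S}.Finite := by
    have h2 : {Q : Prm L | Q.under (𝓞 F) ∈ S} ⊆
        ⋃ q ∈ (S : Set (Prm F)), {Q : Prm L | Q.asIdeal ∈ Ideal.primesOver q.asIdeal (𝓞 L)} := by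
      intro Q hQ
      simp only [Set.mem_iUnion]
      exact ⟨Q.under (𝓞 F), hQ, Q.isPrime, ⟨rfl⟩⟩
    refine Set.Finite.subset (Set.Finite.biUnion S.finite_toSet fun q _ => ?_) h2
    have : q.asIdeal.IsMaximal := q.isMaximal
    refine Set.Finite.of_finite_image (f := HeightOneSpectrum.asIdeal) ?_
      (fun _ _ _ _ h => HeightOneSpectrum.ext h)
    refine (IsDedekindDomain.primesOver_finite q.asIdeal (𝓞 L)).subset ?_
    rintro _ ⟨Q, hQ, rfl⟩
    exact hQ
  refine ⟨h1.toFinset, fun Q hQ h => hQ ?_⟩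
  rw [Set.Finite.mem_toFinset]
  exact h

/-- the homomorphisms with given radicals are determined by their values on a section of `Γ → Gal(L/F)` -/
private theorem finh_fiber [IsGalois F L] {e : ℕ} (he : 0 < e) {ζ : L} (hζ : IsPrimitiveRoot ζ e) (hn : ∀ i, n i ∣ e)
    (x : Fin m → L) : {φ : Gal(AlgebraicClosure F/F) →* Multiplicative (V n) | RadOf e ζ φ x}.Finite := by
  have hfd : FiniteDimensional F L := FiniteDimensional.right ℚ F L
  have hsur : Function.Surjective (AlgEquiv.restrictNormalHom (F := F) (K₁ := AlgebraicClosure F) L) :=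
    AlgEquiv.restrictNormalHom_surjective (AlgebraicClosure F)
  choose s hs using hsur
  have : Finite (Gal(L/F) → Multiplicative (V n)) := by
    have : Finite (Multiplicative (V n)) := inferInstanceAs (Finite (V n))
    infer_instance
  refine Set.Finite.of_finite_image (f := fun φ => fun σ : Gal(L/F) => φ (s σ)) (Set.toFinite _) ?_
  intro φ hφ ψ hψ h
  ext1 g
  have h1 : (s (AlgEquiv.restrictNormalHom L g))⁻¹ * g ∈ L.fixingSubgroup := by
    rw [← IntermediateField.restrictNormalHom_ker L, MonoidHom.mem_ker, map_mul, map_inv, hs, inv_mul_cancel]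
  have h2 := rad_eq he hζ hn hφ hψ _ h1
  have h3 : φ (s (AlgEquiv.restrictNormalHom L g)) = ψ (s (AlgEquiv.restrictNormalHom L g)) :=
    congrFun h (AlgEquiv.restrictNormalHom L g)
  rw [map_mul, map_mul, map_inv, map_inv, h3] at h2
  exact mul_left_cancel h2

/-- a homomorphism unramified outside of `S` has radicals in a fixed finite set -/
private theorem finh_rad [IsGalois F L] {e : ℕ} (he : 0 < e) {ζ : L} (hζ : IsPrimitiveRoot ζ e) (hn : ∀ i, n i ∣ e)
    (S : Finset (Prm F)) : ∃ X : Finset (𝓞 L), ∀ φ ∈ HomS n S, ∃ y : Fin m → 𝓞 L, (∀ i, y i ∈ X) ∧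
      RadOf e ζ φ (fun i => (y i : L)) := by
  obtain ⟨S', hS'⟩ := finh_above F L S
  obtain ⟨X, hX0, hX⟩ := sel_fin L he S'
  refine ⟨X, fun φ hφ => ?_⟩
  obtain ⟨hc, hram⟩ := hφ
  obtain ⟨x0, hx0⟩ := rad_exists he hζ hn hc
  obtain ⟨x, hx⟩ := rad_int hx0
  have hnf : NumberField (fld φ) := fld_nf hc
  have hgal : IsGalois F (fld φ) := (fld_gal hc).2
  obtain ⟨f, hf, hfφ⟩ := fld_hom hc
  obtain ⟨M, _, _, _, _, _, _, _, α, hM, hα, -, -⟩ := lift_M he hζ hn hc hf hfφ hx
  have hxne : ∀ i, x i ≠ 0 := fun i h => hx.1 i (by simp [h])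
  have hval : ∀ (i : Fin m) (Q : Prm L), Q ∉ S' → n i ∣ ordQ Q (x i) := by
    intro i Q hQ
    exact val_of_unram (F := F) (H := fld φ) hM (Nat.pos_of_ne_zero (NeZero.ne (n i)))
      (fun hr => hS' Q hQ (hram hnf _ hr)) (hxne i) (hα i)
  have hex : ∀ i, ∃ y ∈ X, ∃ a b : 𝓞 L, a ≠ 0 ∧ b ≠ 0 ∧ x i * a ^ n i = y * b ^ n i := fun i =>
    hX (n i) (Nat.pos_of_ne_zero (NeZero.ne (n i))) (hn i) (x i) (hxne i) (hval i)
  choose y hyX a b ha hb hab using hex
  refine ⟨y, hyX, ?_⟩
  have ha' : ∀ i, (a i : L) ≠ 0 := fun i => RingOfIntegers.coe_ne_zero_iff.mpr (ha i)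
  have hb' : ∀ i, (b i : L) ≠ 0 := fun i => RingOfIntegers.coe_ne_zero_iff.mpr (hb i)
  refine rad_scale hx (fun i => (b i : L) / a i) (fun i => div_ne_zero (hb' i) (ha' i)) fun i => ?_
  have h1 : (x i : L) * (a i : L) ^ n i = (y i : L) * (b i : L) ^ n i := by
    have := congrArg (fun z : 𝓞 L => (z : L)) (hab i)
    simpa using this
  change (x i : L) = (y i : L) * ((b i : L) / a i) ^ n i
  rw [div_pow, mul_div_assoc', ← h1, mul_div_assoc, div_self (pow_ne_zero _ (ha' i)), mul_one]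

theorem homS_finite [IsGalois F L] {e : ℕ} (he : 0 < e) {ζ : L} (hζ : IsPrimitiveRoot ζ e) (hn : ∀ i, n i ∣ e)
    (S : Finset (Prm F)) : (HomS n S).Finite := by
  obtain ⟨X, hX⟩ := finh_rad (n := n) he hζ hn S
  have h1 : HomS n S ⊆ ⋃ y ∈ {y : Fin m → 𝓞 L | ∀ i, y i ∈ X},
      {φ : Gal(AlgebraicClosure F/F) →* Multiplicative (V n) | RadOf e ζ φ (fun i => (y i : L))} := by
    intro φ hφ
    obtain ⟨y, hy, hr⟩ := hX φ hφ
    simp only [Set.mem_iUnion]
    exact ⟨y, hy, hr⟩
  refine Set.Finite.subset (Set.Finite.biUnion ?_ fun y _ => finh_fiber he hζ hn _) h1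
  have h2 : {y : Fin m → 𝓞 L | ∀ i, y i ∈ X} = Set.pi Set.univ fun _ => (X : Set (𝓞 L)) := by
    ext y
    simp
  rw [h2]
  exact Set.Finite.pi fun _ => X.finite_toSet

end StarkR
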