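import Pool.Agent.Lib.MP_d9bae3_nt.EX.Base

/-!
# Module EX-InS: the inertia groups of `N/F` map onto the inertia groups of `H/F`

`F ⊆ H ⊆ N`, `N/F` and `H/F` Galois.
Plan.  Choose a prime `R` of `𝓞 N` over `P`.  `σ ↦ restriction` maps `R.inertia Gal(N/F)` into `P.inertia Gal(H/F)` with kernel `R.inertia Gal(N/H)`.  By `card (inertia) = ramification index` (Mathlib: `Ideal.card_inertia_eq_ramificationIdxIn` or a
similar lemma, for the three Galois extensions `N/F`, `N/H`, `H/F`) and the multiplicativity of the ramification index (`Ideal.ramificationIdx_tower` / `ramificationIdx_algebra_tower`), the image has as many elements as `P.inertia Gal(H/F)`.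
Alternatively (without counting): lift `σ` to `g ∈ Gal(N/F)` in the decomposition group of `R` (as in SG/GDec.lean, by transitivity of `Gal(N/H)`), then `g` acts on `κ(R)` trivially on `κ(P)`, so its action is that of an element of the
decomposition group of `R` in `Gal(N/H)` (surjectivity `Gal(N/H)_R → Gal(κ(R)/κ(P))`, Mathlib: `Ideal.Quotient.stabilizerHom_surjective`), divide by it.  The second way is probably shorter.
-/

namespace StarkR

open NumberField IsDedekindDomain
open scoped Pointwise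

variable {F H N : Type} [Field F] [NumberField F] [Field H] [NumberField H] [Field N] [NumberField N]
variable [Algebra F H] [Algebra F N] [Algebra H N] [IsScalarTower F H N]

/-- the action on the ring of integers of a normal subextension -/
private theorem ins_res_smul [Normal F H] (σ : Gal(N/F)) (x : 𝓞 H) :
    σ • (algebraMap (𝓞 H) (𝓞 N) x) = algebraMap (𝓞 H) (𝓞 N) (AlgEquiv.restrictNormalHom H σ • x) := by
  have hinj : Function.Injective (algebraMap (𝓞 N) N) := FaithfulSMul.algebraMap_injective _ _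
  have hmap : ∀ z : 𝓞 H, algebraMap (𝓞 N) N (algebraMap (𝓞 H) (𝓞 N) z) = algebraMap H N (algebraMap (𝓞 H) H z) := by
    intro z
    rw [← IsScalarTower.algebraMap_apply (𝓞 H) (𝓞 N) N, IsScalarTower.algebraMap_apply (𝓞 H) H N]
  apply hinj
  rw [algebraMap.smul' σ _ N, hmap, hmap, algebraMap.smul' _ x H]
  exact (AlgEquiv.restrictNormal_commutes σ H _).symm

/-- the primes below -/
private theorem ins_res_under [Normal F H] (σ : Gal(N/F)) (P : Ideal (𝓞 N)) :
    (σ • P).under (𝓞 H) = AlgEquiv.restrictNormalHom H σ • P.under (𝓞 H) := by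
  ext x
  rw [Ideal.mem_pointwise_smul_iff_inv_smul_mem, Ideal.under_def, Ideal.under_def, Ideal.mem_comap, Ideal.mem_comap,
    Ideal.mem_pointwise_smul_iff_inv_smul_mem, ← map_inv, ← ins_res_smul]

/-- restriction of scalars and the action on the integers -/
private theorem ins_scal_smul (g : Gal(N/H)) (x : 𝓞 N) :
    (AlgEquiv.restrictScalarsHom F g : Gal(N/F)) • x = g • x := by
  have hinj : Function.Injective (algebraMap (𝓞 N) N) := FaithfulSMul.algebraMap_injective _ _
  apply hinj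
  rw [algebraMap.smul' _ x N, algebraMap.smul' _ x N]
  rfl

/-- restriction of scalars and the action on the ideals -/
private theorem ins_scal_smul_ideal (g : Gal(N/H)) (P : Ideal (𝓞 N)) :
    (AlgEquiv.restrictScalarsHom F g : Gal(N/F)) • P = g • P := by
  ext x
  rw [Ideal.mem_pointwise_smul_iff_inv_smul_mem, Ideal.mem_pointwise_smul_iff_inv_smul_mem, ← map_inv, ins_scal_smul]

/-- elements of `Gal(N/H)` restrict to the identity of `H` -/
private theorem ins_scal_res [IsGalois F H] (g : Gal(N/H)) :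
    AlgEquiv.restrictNormalHom H (AlgEquiv.restrictScalarsHom F g : Gal(N/F)) = 1 := by
  ext x
  apply FaithfulSMul.algebraMap_injective H N
  have h2 := AlgEquiv.restrictNormal_commutes (AlgEquiv.restrictScalarsHom F g : Gal(N/F)) H x
  refine h2.trans ?_
  exact g.commutes x

theorem inertia_lift [IsGalois F H] [IsGalois F N] {P : Ideal (𝓞 H)} (hP : P.IsPrime) {σ : Gal(H/F)} (hσ : σ ∈ P.inertia Gal(H/F)) :
    ∃ (R : Ideal (𝓞 N)) (g : Gal(N/F)), R.IsPrime ∧ R.LiesOver P ∧ g ∈ R.inertia Gal(N/F) ∧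
      AlgEquiv.restrictNormalHom H g = σ := by
  classical
  have : IsGalois H N := IsGalois.tower_top_of_isGalois F H N
  have := hP
  -- a prime of `N` over `P`
  obtain ⟨R, hR, hRP⟩ : ∃ R : Ideal (𝓞 N), R.IsPrime ∧ R.LiesOver P := by
    obtain ⟨P', h1, h2⟩ := Ideal.exists_ideal_over_prime_of_isIntegral_of_isDomain (S := 𝓞 N) P (by
      rw [(RingHom.injective_iff_ker_eq_bot _).1 (FaithfulSMul.algebraMap_injective (𝓞 H) (𝓞 N))]
      exact bot_le)
    exact ⟨P', h1, ⟨h2.symm⟩⟩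
  -- a lift of `σ` fixing `R`
  obtain ⟨σ1, hσ1⟩ := AlgEquiv.restrictNormalHom_surjective (F := F) (K₁ := H) N σ
  have hσP : σ • P = P := MulAction.mem_stabilizer_iff.1 (Ideal.inertia_le_stabilizer P hσ)
  have hunder : (σ1 • R).under (𝓞 H) = R.under (𝓞 H) := by
    rw [ins_res_under, hσ1, ← hRP.over]
    exact hσP
  have := hR
  have : (σ1 • R).IsPrime := hR.smul σ1
  obtain ⟨g, hg⟩ := Algebra.IsInvariant.exists_smul_of_under_eq (𝓞 H) (𝓞 N) Gal(N/H) (σ1 • R) R hunder
  set σ2 : Gal(N/F) := AlgEquiv.restrictScalarsHom F g * σ1 with hσ2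
  have hres2 : AlgEquiv.restrictNormalHom H σ2 = σ := by
    rw [hσ2, map_mul, ins_scal_res, one_mul, hσ1]
  have hfix2 : σ2 • R = R := by
    rw [hσ2, mul_smul, ins_scal_smul_ideal]
    exact hg.symm
  -- the action of `σ2` on the residue field
  have hmap : R = R.map (MulSemiringAction.toRingEquiv Gal(N/F) (𝓞 N) σ2) := by
    conv_lhs => rw [← hfix2]
    rfl
  let φ0 : (𝓞 N ⧸ R) ≃+* (𝓞 N ⧸ R) :=
    Ideal.quotientEquiv R R (MulSemiringAction.toRingEquiv Gal(N/F) (𝓞 N) σ2) hmap
  have hφ0 : ∀ x : 𝓞 N, φ0 (Ideal.Quotient.mk R x) = Ideal.Quotient.mk R (σ2 • x) := fun x => rfl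
  let φ : (𝓞 N ⧸ R) ≃ₐ[𝓞 H ⧸ P] (𝓞 N ⧸ R) := AlgEquiv.ofRingEquiv (f := φ0) (by
    intro y
    obtain ⟨x, rfl⟩ := Ideal.Quotient.mk_surjective y
    rw [Ideal.Quotient.algebraMap_mk_of_liesOver, hφ0, ins_res_smul, hres2, Ideal.Quotient.eq, ← map_sub]
    have h1 : σ • x - x ∈ P := hσ x
    rw [hRP.over] at h1
    exact h1)
  obtain ⟨⟨τ, hτ⟩, hτφ⟩ := Ideal.Quotient.stabilizerHom_surjective Gal(N/H) P R φ
  have hτ2 : ∀ x : 𝓞 N, σ2 • x - τ • x ∈ R := by
    intro x
    have h1 : Ideal.Quotient.stabilizerHom R P Gal(N/H) ⟨τ, hτ⟩ (Ideal.Quotient.mk R x) = φ (Ideal.Quotient.mk R x) := by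
      rw [hτφ]
    have h2 : Ideal.Quotient.mk R (τ • x) = Ideal.Quotient.mk R (σ2 • x) := h1
    exact Ideal.Quotient.eq.1 h2.symm
  have hτR : τ • R = R := MulAction.mem_stabilizer_iff.1 hτ
  refine ⟨R, (AlgEquiv.restrictScalarsHom F τ)⁻¹ * σ2, hR, hRP, ?_, ?_⟩
  · intro x
    change ((AlgEquiv.restrictScalarsHom F τ : Gal(N/F))⁻¹ * σ2) • x - x ∈ R
    have h1 : ((AlgEquiv.restrictScalarsHom F τ : Gal(N/F))⁻¹ * σ2) • x - x = τ⁻¹ • (σ2 • x - τ • x) := by
      rw [mul_smul, ← map_inv, ins_scal_smul, smul_sub, inv_smul_smul]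
    rw [h1]
    have h2 : τ⁻¹ • (σ2 • x - τ • x) ∈ τ⁻¹ • R := Ideal.smul_mem_pointwise_smul _ _ _ (hτ2 x)
    have h3 : τ⁻¹ • R = R := by
      rw [inv_smul_eq_iff, hτR]
    rwa [h3] at h2
  · rw [map_mul, map_inv, ins_scal_res, inv_one, one_mul, hres2]

/-- the restriction of an inertia element -/
theorem inertia_restrict [IsGalois F H] {R : Ideal (𝓞 N)} {g : Gal(N/F)} (hg : g ∈ R.inertia Gal(N/F)) :
    AlgEquiv.restrictNormalHom H g ∈ (R.under (𝓞 H)).inertia Gal(H/F) := by
  intro x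
  change algebraMap (𝓞 H) (𝓞 N) (AlgEquiv.restrictNormalHom H g • x - x) ∈ R
  rw [map_sub, ← ins_res_smul]
  exact hg _

end StarkR
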