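import Pool.Agent.Lib.MP_d9bae3_nt.EX.Fld
import Pool.Agent.Lib.MP_d9bae3_nt.EX.InS

/-!
# Module EX-HomG: the homomorphisms unramified outside of `S` form a group

Plan.  `Cts` for `1`, products (`N ⊔ N'`) and inverses is clear.  Let `φ, ψ ∈ HomS n S`, `H = fld (φ ψ)`, and let `N'` be a finite Galois extension of `F` in `Ω` containing `fld φ`, `fld ψ` (e.g. their compositum, Galois over `F`); it contains
`H`, as the automorphisms over `N'` are in the kernels of `φ` and `ψ` (`fld_ker`).  If `q` is ramified in `H`, there are a prime `P` over `q` and `σ ≠ 1` in its inertia group; by `inertia_lift` (with `N = N'`, `Algebra H N'` by the inclusion)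
`σ` is the restriction of an element `g` of an inertia group of a prime `R` over `P`; its restrictions to `fld φ` and `fld ψ` are in inertia groups of primes above `q` (`inertia_restrict`), so if `q ∉ S` they are trivial, hence `φ g̃ = ψ g̃ = 1` for a lift
`g̃ ∈ Γ` of `g`, `(φ ψ) g̃ = 1`, and `σ = 1`, a contradiction.  Inverses: `fld φ⁻¹ = fld φ` (same kernel).  `fld 1 = ⊥` has the trivial Galois group.
-/

namespace StarkR

open NumberField IsDedekindDomain

variable {F : Type} [Field F] [NumberField F] {m : ℕ} {n : Fin m → ℕ}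

/-- the restrictions of the elements of inertia groups of `N` are in the kernel of `φ` -/
private def UnrN (N : IntermediateField F (AlgebraicClosure F)) [NumberField N] [IsGalois F N]
    (φ : Gal(AlgebraicClosure F/F) →* Multiplicative (V n)) (S : Finset (Prm F)) : Prop :=
  ∀ q : Prm F, q ∉ S → ∀ R : Ideal (𝓞 N), R.IsPrime → R.LiesOver q.asIdeal →
    ∀ g : Gal(AlgebraicClosure F/F), AlgEquiv.restrictNormalHom N g ∈ R.inertia Gal(N/F) → φ g = 1

private theorem hg_fld_le {A : Type} [Group A] {φ : Gal(AlgebraicClosure F/F) →* A}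
    {N : IntermediateField F (AlgebraicClosure F)} (h : ∀ g ∈ N.fixingSubgroup, φ g = 1) : fld φ ≤ N := by
  have h1 : N.fixingSubgroup ≤ φ.ker := fun g hg => h g hg
  have h2 : fld φ ≤ IntermediateField.fixedField N.fixingSubgroup := by
    intro x hx
    rw [IntermediateField.mem_fixedField_iff]
    intro g hg
    exact (IntermediateField.mem_fixedField_iff _ _).1 hx g (h1 hg)
  rwa [InfiniteGalois.fixedField_fixingSubgroup] at h2

/-- `g` fixes the elements of `H` if and only if its restriction to `H` is trivial -/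
private theorem hg_res_iff (H : IntermediateField F (AlgebraicClosure F)) [Normal F H] (g : Gal(AlgebraicClosure F/F)) :
    AlgEquiv.restrictNormalHom H g = 1 ↔ g ∈ H.fixingSubgroup := by
  rw [IntermediateField.mem_fixingSubgroup_iff]
  constructor
  · intro h x hx
    have h1 := AlgEquiv.restrictNormal_commutes g H ⟨x, hx⟩
    have h2 : AlgEquiv.restrictNormal g H ⟨x, hx⟩ = ⟨x, hx⟩ := by
      have h3 : AlgEquiv.restrictNormalHom H g ⟨x, hx⟩ = ⟨x, hx⟩ := by rw [h]; rfl
      exact h3
    rw [h2] at h1
    exact h1.symm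
  · intro h
    ext x
    have h1 := AlgEquiv.restrictNormal_commutes g H x
    exact h1.trans (h x x.2)

private theorem hg_crit (N : IntermediateField F (AlgebraicClosure F)) [NumberField N] [IsGalois F N]
    (φ : Gal(AlgebraicClosure F/F) →* Multiplicative (V n)) (hN : ∀ g ∈ N.fixingSubgroup, φ g = 1)
    (S : Finset (Prm F)) : φ ∈ HomS n S ↔ UnrN N φ S := by
  classical
  have hC : Cts φ := ⟨N, inferInstance, inferInstance, hN⟩
  have hle := hg_fld_le hN
  obtain ⟨hfd, hgal⟩ := fld_gal hC
  have hnf := fld_nf hC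
  let _ : Algebra (fld φ) N := (IntermediateField.inclusion hle).toRingHom.toAlgebra
  have : IsScalarTower F (fld φ) N := IsScalarTower.of_algebraMap_eq fun x => rfl
  -- the two restrictions
  have hres : ∀ g : Gal(AlgebraicClosure F/F),
      AlgEquiv.restrictNormalHom (fld φ) (AlgEquiv.restrictNormalHom N g) = AlgEquiv.restrictNormalHom (fld φ) g := by
    intro g
    ext x
    have h1 : ((algebraMap (fld φ) N (AlgEquiv.restrictNormalHom (fld φ) (AlgEquiv.restrictNormalHom N g) x) : N) :
        AlgebraicClosure F) = ((AlgEquiv.restrictNormalHom N g) (algebraMap (fld φ) N x) : N) := by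
      congr 1
      exact AlgEquiv.restrictNormal_commutes (AlgEquiv.restrictNormalHom N g) (fld φ) x
    have h2 : (((AlgEquiv.restrictNormalHom N g) (algebraMap (fld φ) N x) : N) : AlgebraicClosure F) =
        g ((algebraMap (fld φ) N x : N) : AlgebraicClosure F) :=
      AlgEquiv.restrictNormal_commutes g N (algebraMap (fld φ) N x)
    have h3 : ((AlgEquiv.restrictNormalHom (fld φ) g x : fld φ) : AlgebraicClosure F) = g (x : AlgebraicClosure F) :=
      AlgEquiv.restrictNormal_commutes g (fld φ) x
    exact (h1.trans h2).trans h3.symm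
  constructor
  · rintro ⟨-, hS⟩ q hq R hR hRq g hg
    by_contra hne
    apply hq
    have := hR
    have := hRq
    refine hS hnf q ⟨R.under (𝓞 (fld φ)), inferInstance, ?_, ?_⟩
    · constructor
      rw [hRq.over, Ideal.under_under]
    · intro hbot
      have h1 := inertia_restrict (F := F) (H := fld φ) (N := N) hg
      rw [hbot, Subgroup.mem_bot, hres, hg_res_iff, ← fld_ker hC] at h1
      exact hne h1
  · intro hU
    refine ⟨hC, fun _ q hq => ?_⟩
    obtain ⟨P, hP, hPq, hne⟩ := hq
    by_contra hqS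
    apply hne
    rw [Subgroup.eq_bot_iff_forall]
    intro σ hσ
    obtain ⟨R, g, hR, hRP, hg, hgσ⟩ := inertia_lift (F := F) (H := fld φ) (N := N) hP hσ
    obtain ⟨g', hg'⟩ := AlgEquiv.restrictNormalHom_surjective (F := F) (K₁ := N) (AlgebraicClosure F) g
    have hRq : R.LiesOver q.asIdeal := by
      have := hRP
      have := hPq
      exact Ideal.LiesOver.trans R P q.asIdeal
    have h1 := hU q hqS R hR hRq g' (by rw [hg']; exact hg)
    rw [fld_ker hC, ← hg_res_iff, ← hres, hg', hgσ] at h1
    exact h1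

theorem homS_group (n : Fin m → ℕ) (S : Finset (Prm F)) :
    ∃ G : Subgroup (Gal(AlgebraicClosure F/F) →* Multiplicative (V n)), ∀ φ, φ ∈ G ↔ φ ∈ HomS n S := by
  refine ⟨{ carrier := HomS n S, mul_mem' := ?_, one_mem' := ?_, inv_mem' := ?_ }, fun φ => Iff.rfl⟩
  · intro φ ψ hφ hψ
    obtain ⟨N1, hf1, hn1, h1⟩ := hφ.1
    obtain ⟨N2, hf2, hn2, h2⟩ := hψ.1
    have : FiniteDimensional F (N1 ⊔ N2 : IntermediateField F (AlgebraicClosure F)) := inferInstance
    have : Normal F (N1 ⊔ N2 : IntermediateField F (AlgebraicClosure F)) := inferInstance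
    have : IsGalois F (N1 ⊔ N2 : IntermediateField F (AlgebraicClosure F)) := ⟨⟩
    have : NumberField (N1 ⊔ N2 : IntermediateField F (AlgebraicClosure F)) := NumberField.of_module_finite F _
    have k1 : ∀ g ∈ (N1 ⊔ N2).fixingSubgroup, φ g = 1 := fun g hg =>
      h1 g (IntermediateField.fixingSubgroup_antitone le_sup_left hg)
    have k2 : ∀ g ∈ (N1 ⊔ N2).fixingSubgroup, ψ g = 1 := fun g hg =>
      h2 g (IntermediateField.fixingSubgroup_antitone le_sup_right hg)
    have k3 : ∀ g ∈ (N1 ⊔ N2).fixingSubgroup, (φ * ψ) g = 1 := fun g hg => by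
      rw [MonoidHom.mul_apply, k1 g hg, k2 g hg, mul_one]
    refine (hg_crit (N1 ⊔ N2) (φ * ψ) k3 S).2 ?_
    intro q hq R hR hRq g hg
    rw [MonoidHom.mul_apply, (hg_crit (N1 ⊔ N2) φ k1 S).1 hφ q hq R hR hRq g hg,
      (hg_crit (N1 ⊔ N2) ψ k2 S).1 hψ q hq R hR hRq g hg, mul_one]
  · have : FiniteDimensional F (⊥ : IntermediateField F (AlgebraicClosure F)) := inferInstance
    have : Normal F (⊥ : IntermediateField F (AlgebraicClosure F)) := inferInstance
    have : IsGalois F (⊥ : IntermediateField F (AlgebraicClosure F)) := ⟨⟩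
    have : NumberField (⊥ : IntermediateField F (AlgebraicClosure F)) := NumberField.of_module_finite F _
    refine (hg_crit ⊥ 1 (fun g _ => rfl) S).2 ?_
    intro q hq R hR hRq g hg
    rfl
  · intro φ hφ
    obtain ⟨N1, hf1, hn1, h1⟩ := hφ.1
    have : IsGalois F N1 := ⟨⟩
    have : NumberField N1 := NumberField.of_module_finite F _
    have k3 : ∀ g ∈ N1.fixingSubgroup, (φ⁻¹) g = 1 := fun g hg => by
      rw [MonoidHom.inv_apply, h1 g hg, inv_one]
    refine (hg_crit N1 φ⁻¹ k3 S).2 ?_
    intro q hq R hR hRq g hg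
    rw [MonoidHom.inv_apply, (hg_crit N1 φ h1 S).1 hφ q hq R hR hRq g hg, inv_one]

end StarkR
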