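import Pool.Agent.Lib.MP_d9bae3_nt.EX.Base

/-!
# Module EX-Loc: the local group `Lˣ / locS N Q` is generated by `π` and `u`

Plan.  `locEq_iff`: `mk x = mk y ↔ x⁻¹ y ∈ locS` (`QuotientGroup.eq`); rearrange the definition.
`loc_gen`: it suffices to treat `x ∈ 𝓞 L`, `x ≠ 0` (write `x = y / d`, `d ∈ 𝓞 L`, multiply by the `N`-th power `d^N`).  Let `Q^a` be the exact power of `Q` dividing `x` (multiplicity of `Q.asIdeal` in `(x)`; it is finite as `x ≠ 0`).
`(π) = Q J` with `Q ∤ J`, so there is `s ∈ J^a`, `s ∉ Q`, and `s x ∈ J^a Q^a = (π^a)`: `s x = π^a w` with `w ∉ Q`.  So `x s^N = π^a (w s^(N-1))`.  By `LocGen.gen` `w s^(N-1) ≡ u^l` modulo `Q`.  Hence `x ≡ π^a u^l`; reduce the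
exponents modulo `N` (powers `π^N`, `u^N` are `N`-th powers).  Another way to find `s`, `w`: `valuation` of `L` at `Q` and `IsLocalization`/`HeightOneSpectrum.valuation` lemmas; in the team's file NA/OrdQ.lean there is
a function `ordQ` with `mem_pow_iff`, `ordQ_mul`, `ordQ_pow`.
`loc_card`: `(k, l) ↦ mk (π^k u^l)` is a surjection from `Fin N × Fin N`.
-/

namespace StarkR

open NumberField IsDedekindDomain

variable {L : Type} [Field L] [NumberField L]

theorem locEq_iff {N : ℕ} {Q : Prm L} {x y : Lˣ} :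
    LocEq N Q (x : L) (y : L) ↔ (QuotientGroup.mk x : Lˣ ⧸ locS N Q) = QuotientGroup.mk y := by
  rw [QuotientGroup.eq, mem_locS]
  have hx : (x : L) ≠ 0 := x.ne_zero
  have hy : (y : L) ≠ 0 := y.ne_zero
  constructor
  · rintro ⟨z, a, b, hz, ha, hb, hab, h⟩
    refine ⟨z⁻¹, b, a, inv_ne_zero hz, hb, ha, ?_, ?_⟩
    · have h1 : b - a = -(a - b) := by ring
      rw [h1]
      exact neg_mem hab
    · have h3 : z ^ N ≠ 0 := pow_ne_zero _ hz
      rw [Units.val_mul, Units.val_inv_eq_inv_val, inv_pow, one_mul]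
      field_simp
      linear_combination -h
  · rintro ⟨z, a, b, hz, ha, hb, hab, h⟩
    refine ⟨z⁻¹, b, a, inv_ne_zero hz, hb, ha, ?_, ?_⟩
    · have h1 : b - a = -(a - b) := by ring
      rw [h1]
      exact neg_mem hab
    · have h3 : z ^ N ≠ 0 := pow_ne_zero _ hz
      rw [Units.val_mul, Units.val_inv_eq_inv_val, one_mul] at h
      rw [inv_pow]
      field_simp at h ⊢
      linear_combination -h

private theorem exi_max {Q : Prm L} {y : 𝓞 L} (hy : y ≠ 0) :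
    ∃ a : ℕ, y ∈ Q.asIdeal ^ a ∧ y ∉ Q.asIdeal ^ (a + 1) := by
  classical
  have hf : FiniteMultiplicity Q.asIdeal (Ideal.span {y}) := by
    apply FiniteMultiplicity.of_not_isUnit
    · intro h
      rw [Ideal.isUnit_iff] at h
      exact Q.isPrime.ne_top h
    · rw [Ne, Ideal.zero_eq_bot, Ideal.span_singleton_eq_bot]
      exact hy
  obtain ⟨n, hn⟩ := hf
  rw [Ideal.dvd_span_singleton] at hn
  have hex : ∃ n : ℕ, y ∉ Q.asIdeal ^ (n + 1) := ⟨n, hn⟩
  refine ⟨Nat.find hex, ?_, Nat.find_spec hex⟩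
  rcases Nat.eq_zero_or_pos (Nat.find hex) with h0 | h0
  · rw [h0, pow_zero, Ideal.one_eq_top]
    exact Submodule.mem_top
  · have h1 := Nat.find_min hex (m := Nat.find hex - 1) (by omega)
    rw [not_not, Nat.sub_add_cancel h0] at h1
    exact h1

private theorem step_a {Q : Prm L} {π u : 𝓞 L} (h : LocGen Q π u) {y : 𝓞 L} (hy : y ≠ 0) :
    ∃ (a : ℕ) (s w : 𝓞 L), s ∉ Q.asIdeal ∧ w ∉ Q.asIdeal ∧ s * y = π ^ a * w := by
  have := Q.isPrime
  obtain ⟨a, ha1, ha2⟩ := exi_max (Q := Q) hy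
  obtain ⟨J, hJ⟩ : Q.asIdeal ∣ Ideal.span {π} := Ideal.dvd_span_singleton.2 h.mem
  have hJQ : ¬ J ≤ Q.asIdeal := by
    intro hle
    apply h.notMem
    have h1 : π ∈ Q.asIdeal * J := by
      rw [← hJ]
      exact Ideal.mem_span_singleton_self π
    rw [pow_two]
    exact Ideal.mul_mono_right hle h1
  obtain ⟨j, hjJ, hjQ⟩ := Set.not_subset.1 hJQ
  have hjQ' : j ∉ Q.asIdeal := hjQ
  have hja : j ^ a ∉ Q.asIdeal := fun h' => hjQ' (Q.isPrime.mem_of_pow_mem a h')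
  have h2 : j ^ a * y ∈ Ideal.span {π ^ a} := by
    rw [← Ideal.span_singleton_pow, hJ, mul_pow, mul_comm (Q.asIdeal ^ a)]
    exact Ideal.mul_mem_mul (Ideal.pow_mem_pow hjJ a) ha1
  obtain ⟨w, hw⟩ := Ideal.mem_span_singleton'.1 h2
  refine ⟨a, j ^ a, w, hja, ?_, by rw [← hw]; ring⟩
  intro hwQ
  apply ha2
  have h3 : j ^ a * y ∈ Q.asIdeal ^ (a + 1) := by
    rw [← hw, pow_succ, mul_comm w]
    exact Ideal.mul_mem_mul (Ideal.pow_mem_pow h.mem a) hwQ
  exact (Ideal.IsPrime.mul_mem_pow Q.asIdeal h3).resolve_left hja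

private theorem gen_ne {Q : Prm L} {π u : 𝓞 L} (h : LocGen Q π u) : π ≠ 0 ∧ u ≠ 0 := by
  constructor
  · intro h0
    apply h.notMem
    rw [h0]
    exact Submodule.zero_mem _
  · intro h0
    apply h.unit
    rw [h0]
    exact Submodule.zero_mem _

theorem loc_gen {Q : Prm L} {π u : 𝓞 L} (h : LocGen Q π u) {N : ℕ} (hN : 0 < N) {x : L} (hx : x ≠ 0) :
    ∃ k l : ℕ, k < N ∧ l < N ∧ LocEq N Q x ((π : L) ^ k * (u : L) ^ l) := by
  have := Q.isPrime
  obtain ⟨y, d, hd, hxy⟩ := IsFractionRing.div_surjective (A := 𝓞 L) x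
  have hd0 : d ≠ 0 := nonZeroDivisors.ne_zero hd
  have hdL : (d : L) ≠ 0 := by
    simpa using hd0
  have hxy' : x * (d : L) = (y : L) := by
    rw [← hxy]
    exact div_mul_cancel₀ _ hdL
  have hy0 : y ≠ 0 := by
    intro h0
    rw [h0] at hxy'
    have : x * (d : L) ≠ 0 := mul_ne_zero hx hdL
    apply this
    rw [hxy']
    simp
  have hv : y * d ^ (N - 1) ≠ 0 := mul_ne_zero hy0 (pow_ne_zero _ hd0)
  obtain ⟨a, s, w, hs, hw, hsw⟩ := step_a h hv
  have hs0 : s ≠ 0 := by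
    intro h0
    apply hs
    rw [h0]
    exact Submodule.zero_mem _
  have hsL : (s : L) ≠ 0 := by simpa using hs0
  obtain ⟨hπ0, hu0⟩ := gen_ne h
  have hπL : (π : L) ≠ 0 := by simpa using hπ0
  have huL : (u : L) ≠ 0 := by simpa using hu0
  have ht : w * s ^ (N - 1) ∉ Q.asIdeal := by
    intro h'
    rcases Q.isPrime.mem_or_mem h' with h1 | h1
    · exact hw h1
    · exact hs (Q.isPrime.mem_of_pow_mem _ h1)
  obtain ⟨l0, hl0⟩ := h.gen _ ht
  have hul : u ^ l0 ∉ Q.asIdeal := fun h' => h.unit (Q.isPrime.mem_of_pow_mem _ h')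
  refine ⟨a % N, l0 % N, Nat.mod_lt _ hN, Nat.mod_lt _ hN, ?_⟩
  refine ⟨(π : L) ^ (a / N) * (u : L) ^ (l0 / N) / ((s : L) * d), w * s ^ (N - 1), u ^ l0, ?_, ht, hul, hl0, ?_⟩
  · exact div_ne_zero (mul_ne_zero (pow_ne_zero _ hπL) (pow_ne_zero _ huL)) (mul_ne_zero hsL hdL)
  · have e1 : (s : L) * ((y : L) * (d : L) ^ (N - 1)) = (π : L) ^ a * (w : L) := by
      have := congrArg (fun t : 𝓞 L => (t : L)) hsw
      simpa using this
    have e2 : (π : L) ^ a = (π : L) ^ (a % N) * ((π : L) ^ (a / N)) ^ N := by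
      rw [← pow_mul, ← pow_add, mul_comm (a / N) N, Nat.mod_add_div]
    have e3 : (u : L) ^ l0 = (u : L) ^ (l0 % N) * ((u : L) ^ (l0 / N)) ^ N := by
      rw [← pow_mul, ← pow_add, mul_comm (l0 / N) N, Nat.mod_add_div]
    have e4 : (d : L) ^ N = (d : L) ^ (N - 1) * d := by
      rw [← pow_succ, Nat.sub_add_cancel hN]
    have e5 : (s : L) ^ N = (s : L) ^ (N - 1) * s := by
      rw [← pow_succ, Nat.sub_add_cancel hN]
    have e6 : x * ((s : L) ^ N * (d : L) ^ N) = (s : L) ^ (N - 1) * ((π : L) ^ a * (w : L)) := by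
      rw [← e1, e4, e5, ← hxy']
      ring
    have hsd : (s : L) ^ N * (d : L) ^ N ≠ 0 := mul_ne_zero (pow_ne_zero _ hsL) (pow_ne_zero _ hdL)
    have e7 : ((u ^ l0 : 𝓞 L) : L) = (u : L) ^ l0 := by simp
    have e8 : ((w * s ^ (N - 1) : 𝓞 L) : L) = (w : L) * (s : L) ^ (N - 1) := by simp
    rw [e7, e8, div_pow, mul_pow, mul_pow, ← mul_div_assoc, div_mul_eq_mul_div, eq_div_iff hsd]
    calc x * (u : L) ^ l0 * ((s : L) ^ N * (d : L) ^ N) = (u : L) ^ l0 * (x * ((s : L) ^ N * (d : L) ^ N)) := by ring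
      _ = (u : L) ^ l0 * ((s : L) ^ (N - 1) * ((π : L) ^ a * (w : L))) := by rw [e6]
      _ = _ := by rw [e2, e3]; ring

theorem loc_card {Q : Prm L} {π u : 𝓞 L} (h : LocGen Q π u) {N : ℕ} (hN : 0 < N) :
    Finite (Lˣ ⧸ locS N Q) ∧ Nat.card (Lˣ ⧸ locS N Q) ≤ N ^ 2 := by
  obtain ⟨hπ0, hu0⟩ := gen_ne h
  have hπL : (π : L) ≠ 0 := by simpa using hπ0
  have huL : (u : L) ≠ 0 := by simpa using hu0
  let f : Fin N × Fin N → Lˣ ⧸ locS N Q := fun p =>
    QuotientGroup.mk ((Units.mk0 (π : L) hπL) ^ (p.1 : ℕ) * (Units.mk0 (u : L) huL) ^ (p.2 : ℕ))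
  have hf : Function.Surjective f := by
    intro g
    obtain ⟨x, rfl⟩ := QuotientGroup.mk_surjective g
    obtain ⟨k, l, hk, hl, hkl⟩ := loc_gen h hN x.ne_zero
    refine ⟨(⟨k, hk⟩, ⟨l, hl⟩), ?_⟩
    symm
    rw [← locEq_iff]
    simpa using hkl
  have : Finite (Lˣ ⧸ locS N Q) := Finite.of_surjective f hf
  refine ⟨this, ?_⟩
  have h1 := Nat.card_le_card_of_surjective f hf
  rw [Nat.card_prod, Nat.card_fin] at h1
  rw [pow_two]
  exact h1

end StarkR
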