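import Pool.Agent.Lib.MP_d9bae3_nt.EX.RadE
import Pool.Agent.Lib.MP_d9bae3_nt.EX.RadU
import Pool.Agent.Lib.MP_d9bae3_nt.EX.Loc

/-!
# Module EX-Lam: the local class of the radicals is a homomorphism
-/

namespace StarkR

open NumberField IsDedekindDomain

variable {F : Type} [Field F] [NumberField F] {L : IntermediateField F (AlgebraicClosure F)} [NumberField L]
variable {m : ℕ} {n : Fin m → ℕ} [∀ i, NeZero (n i)]

private theorem lam_eq {e : ℕ} {ζ : L} (hζ : IsPrimitiveRoot ζ e) (Q : Prm L)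
    {φ : Gal(AlgebraicClosure F/F) →* Multiplicative (V n)} {x y : Fin m → Lˣ} (hx : RadOf e ζ φ (fun i => (x i : L)))
    (hy : RadOf e ζ φ (fun i => (y i : L))) (i : Fin m) :
    (QuotientGroup.mk (x i) : Lˣ ⧸ locS (n i) Q) = QuotientGroup.mk (y i) := by
  obtain ⟨z, hz0, hz⟩ := rad_unique hζ hx hy i
  rw [← locEq_iff]
  refine ⟨z, 1, 1, hz0, fun h => Q.isPrime.ne_top ((Ideal.eq_top_iff_one _).2 h), fun h => Q.isPrime.ne_top ((Ideal.eq_top_iff_one _).2 h),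
    by simp, ?_⟩
  rw [hz]

theorem exists_lam [IsGalois F L] {e : ℕ} (he : 0 < e) {ζ : L} (hζ : IsPrimitiveRoot ζ e) (hn : ∀ i, n i ∣ e)
    (G : Subgroup (Gal(AlgebraicClosure F/F) →* Multiplicative (V n))) (hG : ∀ φ ∈ G, Cts φ) (Q : Prm L) :
    ∃ lam : G →* ((i : Fin m) → Lˣ ⧸ locS (n i) Q), ∀ (φ : G) (x : Fin m → Lˣ),
      RadOf e ζ (φ : Gal(AlgebraicClosure F/F) →* Multiplicative (V n)) (fun i => (x i : L)) →
        lam φ = fun i => QuotientGroup.mk (x i) := by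
  have h1 : ∀ φ : G, ∃ x : Fin m → Lˣ, RadOf e ζ (φ : Gal(AlgebraicClosure F/F) →* Multiplicative (V n)) (fun i => (x i : L)) := by
    intro φ
    obtain ⟨x, hx⟩ := rad_exists he hζ hn (hG _ φ.2)
    exact ⟨fun i => Units.mk0 (x i) (hx.1 i), hx⟩
  choose r hr using h1
  refine ⟨⟨⟨fun φ i => QuotientGroup.mk (r φ i), ?_⟩, ?_⟩, ?_⟩
  · funext i
    have h3 : RadOf e ζ ((1 : G) : Gal(AlgebraicClosure F/F) →* Multiplicative (V n)) (fun i => (((1 : Fin m → Lˣ) i : Lˣ) : L)) := rad_one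
    exact lam_eq hζ Q (hr 1) h3 i
  · intro φ ψ
    funext i
    have h2 := rad_mul he hζ hn (hr φ) (hr ψ)
    have h3 : RadOf e ζ ((φ * ψ : G) : Gal(AlgebraicClosure F/F) →* Multiplicative (V n)) (fun i => ((r φ i * r ψ i : Lˣ) : L)) := h2
    exact lam_eq hζ Q (hr (φ * ψ)) h3 i
  · intro φ x hx
    funext i
    exact lam_eq hζ Q (hr φ) hx i

end StarkR
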