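import Pool.Agent.Lib.MP_d9bae3_nt.EX.Base

/-!
# Module EX-PhiL: the local classes of `Φ(b)`

Plan.  `Φ(b) = ∏_τ (τ b)^(t_τ)`.  If `e ≥ 2` then `t_1 = 1` (`ζ^(t_1) = ζ`, `t_1 < e`, `IsPrimitiveRoot.pow_inj`), so `Φ(b) = b · ∏_{τ ≠ 1} (τ b)^(t_τ)`, and the second factor is congruent to `1` modulo `Q`.  If `e = 1`, then `k = 1` and `LocEq 1` holds for
all nonzero elements (`z` is arbitrary).  (`twist_ne`: all factors are nonzero.)
-/

namespace StarkR

open NumberField IsDedekindDomain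
open scoped Pointwise

variable {F L : Type} [Field F] [NumberField F] [Field L] [NumberField L] [Algebra F L]

theorem twist_ne (t : Gal(L/F) → ℕ) {b : 𝓞 L} (hb : b ≠ 0) : twist t b ≠ 0 := by
  unfold twist
  refine Finset.prod_ne_zero_iff.2 fun τ _ => pow_ne_zero _ ?_
  exact fun h => hb ((smul_eq_zero_iff_eq τ).1 h)

private theorem phiL_prod {Q : Prm L} (s : Finset Gal(L/F)) (t : Gal(L/F) → ℕ) (b : 𝓞 L)
    (h : ∀ τ ∈ s, τ • b - 1 ∈ Q.asIdeal) (r : ℕ) : (∏ τ ∈ s, (τ • b) ^ t τ) ^ r - 1 ∈ Q.asIdeal := by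
  rw [← Ideal.Quotient.mk_eq_mk_iff_sub_mem, map_pow, map_prod, map_one]
  rw [Finset.prod_eq_one, one_pow]
  intro τ hτ
  have h1 : Ideal.Quotient.mk Q.asIdeal (τ • b) = 1 := by
    rw [← map_one (Ideal.Quotient.mk Q.asIdeal), Ideal.Quotient.mk_eq_mk_iff_sub_mem]
    exact h τ hτ
  rw [map_pow, h1, one_pow]

omit [NumberField L] in
private theorem phiL_one [NumberField L] (Q : Prm L) : (1 : 𝓞 L) ∉ Q.asIdeal :=
  fun h => Q.isPrime.ne_top ((Ideal.eq_top_iff_one _).2 h)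

private theorem phiL_notMem {Q : Prm L} {a : 𝓞 L} (h : a - 1 ∈ Q.asIdeal) : a ∉ Q.asIdeal := by
  intro ha
  apply phiL_one Q
  have h1 : (1 : 𝓞 L) = a - (a - 1) := by ring
  rw [h1]
  exact Ideal.sub_mem _ ha h

private theorem phiL_loc {k : ℕ} {Q : Prm L} {x y a : 𝓞 L} (ha : a - 1 ∈ Q.asIdeal) (h : x = y * a) :
    LocEq k Q (x : L) (y : L) := by
  refine ⟨1, a, 1, one_ne_zero, phiL_notMem ha, phiL_one Q, ha, ?_⟩
  rw [h]
  push_cast
  ring

theorem twist_loc {e : ℕ} (he : 0 < e) {ζ : L} (hζ : IsPrimitiveRoot ζ e) {t : Gal(L/F) → ℕ} (ht : IsInvCyc e ζ t)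
    {k : ℕ} (hk : k ∣ e) {Q : Prm L} {b : 𝓞 L} (hb : b ≠ 0) (h : ∀ τ : Gal(L/F), τ ≠ 1 → τ • b - 1 ∈ Q.asIdeal) (r : ℕ) :
    LocEq k Q (((twist t b : 𝓞 L) : L) ^ r) ((b : L) ^ r) := by
  classical
  rcases Nat.lt_or_ge 1 e with h1 | h1
  · have ht1 : t 1 = 1 := by
      have h2 := (ht 1).2
      have h3 : ζ ^ t 1 = ζ ^ 1 := by
        rw [pow_one]
        exact h2
      exact hζ.pow_inj (ht 1).1 h1 h3
    have h4 : twist t b = b * ∏ τ ∈ Finset.univ.erase (1 : Gal(L/F)), (τ • b) ^ t τ := by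
      unfold twist
      rw [← Finset.mul_prod_erase Finset.univ _ (Finset.mem_univ (1 : Gal(L/F))), ht1, pow_one, one_smul]
    have h5 := phiL_prod (Q := Q) (Finset.univ.erase (1 : Gal(L/F))) t b (fun τ hτ => h τ (Finset.ne_of_mem_erase hτ)) r
    have h6 := phiL_loc (k := k) (Q := Q) (x := twist t b ^ r) (y := b ^ r) h5 (by rw [h4, mul_pow])
    simpa using h6
  · have he1 : e = 1 := by omega
    subst he1
    have hk1 : k = 1 := Nat.dvd_one.1 hk
    subst hk1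
    have h7 : twist t b = 1 := by
      unfold twist
      refine Finset.prod_eq_one fun τ _ => ?_
      have h8 : t τ = 0 := by
        have := (ht τ).1
        omega
      rw [h8, pow_zero]
    have hb' : ((b : L) ^ r) ≠ 0 := by
      refine pow_ne_zero _ ?_
      intro h0
      exact hb (by exact_mod_cast h0)
    refine ⟨((b : L) ^ r)⁻¹, 1, 1, inv_ne_zero hb', phiL_one Q, phiL_one Q, by simp, ?_⟩
    rw [h7, pow_one, mul_inv_cancel₀ hb']
    push_cast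
    simp

theorem twist_loc_one (t : Gal(L/F) → ℕ) {k : ℕ} {Q : Prm L} {b : 𝓞 L} (hb : b ≠ 0)
    (h : ∀ τ : Gal(L/F), τ • b - 1 ∈ Q.asIdeal) (r : ℕ) : LocEq k Q (((twist t b : 𝓞 L) : L) ^ r) 1 := by
  have h5 := phiL_prod (Q := Q) Finset.univ t b (fun τ _ => h τ) r
  have h6 := phiL_loc (k := k) (Q := Q) (x := twist t b ^ r) (y := 1) h5 (by rw [one_mul]; rfl)
  simpa using h6

end StarkR
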