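import Mathlib

/-!
# Module EX-Prob: a homomorphism onto a product of groups of bounded order

With `X(g)` the number of the `j` with `lam_j(g) = t_j`, the sum of `2 ^ (-X(g))` over `G` is at most `(1 - 1/(2C)) ^ N * card G`.
-/

namespace StarkR

private theorem moment {G : Type} [Group G] [Fintype G] {ι : Type} [DecidableEq ι] (B : ι → Type)
    [∀ j, Group (B j)] [∀ j, Fintype (B j)] (lam : ∀ j, G →* B j) (f : ∀ j, B j → ℝ) (q : ℝ) (hq0 : 0 ≤ q)
    (hf : ∀ j b, 0 ≤ f j b) (hq : ∀ j, ∑ b, f j b ≤ q * Fintype.card (B j))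
    (hsep : ∀ (j : ι) (β : B j), ∃ θ : G, lam j θ = β ∧ ∀ i, i ≠ j → lam i θ = 1) (s : Finset ι) :
    ∑ g : G, ∏ j ∈ s, f j (lam j g) ≤ q ^ s.card * Fintype.card G := by
  induction s using Finset.induction_on with
  | empty => simp
  | insert i s hi ih =>
    choose θ h1 h2 using hsep i
    have hF0 : ∀ g, 0 ≤ ∏ j ∈ s, f j (lam j g) := fun g => Finset.prod_nonneg fun j _ => hf j _
    have hF : ∀ (β : B i) (g : G), ∏ j ∈ s, f j (lam j (g * θ β)) = ∏ j ∈ s, f j (lam j g) := by
      intro β g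
      refine Finset.prod_congr rfl fun j hj => ?_
      rw [map_mul, h2 β j (fun h => hi (h ▸ hj)), mul_one]
    obtain ⟨S, hS⟩ : ∃ S : ℝ, S = ∑ g : G, ∏ j ∈ insert i s, f j (lam j g) := ⟨_, rfl⟩
    have e1 : ∀ β : B i, S = ∑ g : G, f i (lam i g * β) * ∏ j ∈ s, f j (lam j g) := by
      intro β
      rw [hS, ← Equiv.sum_comp (Equiv.mulRight (θ β))]
      refine Finset.sum_congr rfl fun g _ => ?_
      rw [Finset.prod_insert hi]
      simp only [Equiv.coe_mulRight]
      rw [hF β g, map_mul, h1]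
    have e2 : (Fintype.card (B i) : ℝ) * S = ∑ g : G, (∑ b, f i b) * ∏ j ∈ s, f j (lam j g) := by
      have : (Fintype.card (B i) : ℝ) * S = ∑ β : B i, ∑ g : G, f i (lam i g * β) * ∏ j ∈ s, f j (lam j g) := by
        rw [← Finset.sum_congr rfl fun β _ => e1 β, Finset.sum_const, Finset.card_univ, nsmul_eq_mul]
      rw [this, Finset.sum_comm]
      refine Finset.sum_congr rfl fun g _ => ?_
      rw [← Finset.sum_mul]
      congr 1
      exact Equiv.sum_comp (Equiv.mulLeft (lam i g)) (f i)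
    have hc : (0 : ℝ) < Fintype.card (B i) := by
      have : 0 < Fintype.card (B i) := Fintype.card_pos
      exact_mod_cast this
    have e3 : (Fintype.card (B i) : ℝ) * S ≤ Fintype.card (B i) * (q * (q ^ s.card * Fintype.card G)) := by
      rw [e2, ← Finset.mul_sum]
      have k1 : 0 ≤ ∑ g : G, ∏ j ∈ s, f j (lam j g) := Finset.sum_nonneg fun g _ => hF0 g
      calc (∑ b, f i b) * ∑ g : G, ∏ j ∈ s, f j (lam j g)
          ≤ (q * Fintype.card (B i)) * ∑ g : G, ∏ j ∈ s, f j (lam j g) := mul_le_mul_of_nonneg_right (hq i) k1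
        _ ≤ (q * Fintype.card (B i)) * (q ^ s.card * Fintype.card G) :=
            mul_le_mul_of_nonneg_left ih (mul_nonneg hq0 hc.le)
        _ = Fintype.card (B i) * (q * (q ^ s.card * Fintype.card G)) := by ring
    have e4 := le_of_mul_le_mul_left e3 hc
    rw [← hS, Finset.card_insert_of_notMem hi, pow_succ]
    calc S ≤ q * (q ^ s.card * Fintype.card G) := e4
      _ = q ^ s.card * q * Fintype.card G := by ring

theorem prob_lemma {C : ℕ} (hC : 0 < C) (k : ℕ) {ε : ℝ} (hε : 0 < ε) : ∃ N0 : ℕ, ∀ N : ℕ, N0 ≤ N →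
    ∀ (G : Type) [Group G] [Finite G] (B : Fin N → Type) [∀ j, Group (B j)] [∀ j, Finite (B j)] (lam : ∀ j, G →* B j)
      (t : ∀ j, B j), (∀ j, Nat.card (B j) ≤ C) →
      (∀ (j : Fin N) (β : B j), ∃ θ : G, lam j θ = β ∧ ∀ i, i ≠ j → lam i θ = 1) →
      (Set.ncard {g : G | Set.ncard {j : Fin N | lam j g = t j} < k} : ℝ) ≤ ε * (Nat.card G : ℝ) := by
  classical
  have hC' : (0 : ℝ) < C := by exact_mod_cast hC
  have hC1 : (1 : ℝ) ≤ C := by exact_mod_cast hC
  obtain ⟨q, hq⟩ : ∃ q : ℝ, q = 1 - 1 / (2 * C) := ⟨_, rfl⟩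
  have hq1 : q < 1 := by
    rw [hq]
    have : (0 : ℝ) < 1 / (2 * C) := by positivity
    linarith
  have hq0 : 0 ≤ q := by
    rw [hq, sub_nonneg, div_le_one (by positivity)]
    linarith
  obtain ⟨N0, hN0⟩ := exists_pow_lt_of_lt_one (show 0 < ε / 2 ^ k by positivity) hq1
  refine ⟨N0, ?_⟩
  intro N hN G _ _ B _ _ lam t hB hsep
  have hfG : Fintype G := Fintype.ofFinite G
  have hfB : ∀ j, Fintype (B j) := fun j => Fintype.ofFinite (B j)
  have hmom := moment B lam (fun j b => if b = t j then (1 / 2 : ℝ) else 1) q hq0 (fun j b => by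
      show (0 : ℝ) ≤ if b = t j then (1 / 2 : ℝ) else 1
      split_ifs <;> norm_num) (fun j => by
      have h1 : ∑ b, (if b = t j then (1 / 2 : ℝ) else 1) = Fintype.card (B j) - 1 / 2 := by
        have : ∀ b : B j, (if b = t j then (1 / 2 : ℝ) else 1) = 1 - (if b = t j then (1 / 2 : ℝ) else 0) := by
          intro b
          split_ifs <;> norm_num
        rw [Finset.sum_congr rfl fun b _ => this b, Finset.sum_sub_distrib, Finset.sum_ite_eq' Finset.univ (t j)]
        simp
      have h2 : (Fintype.card (B j) : ℝ) ≤ C := by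
        have := hB j
        rw [Nat.card_eq_fintype_card] at this
        exact_mod_cast this
      show ∑ b, (if b = t j then (1 / 2 : ℝ) else 1) ≤ q * Fintype.card (B j)
      rw [h1, hq, sub_mul, one_mul]
      have h3 : 1 / (2 * (C : ℝ)) * Fintype.card (B j) ≤ 1 / 2 := by
        calc 1 / (2 * (C : ℝ)) * Fintype.card (B j) ≤ 1 / (2 * (C : ℝ)) * C :=
              mul_le_mul_of_nonneg_left h2 (by positivity)
          _ = 1 / 2 := by field_simp
      linarith) hsep Finset.univ
  rw [Finset.card_univ, Fintype.card_fin] at hmom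
  obtain ⟨A, hA⟩ : ∃ A : Finset G, A = Finset.univ.filter fun g => Set.ncard {j : Fin N | lam j g = t j} < k := ⟨_, rfl⟩
  have hA2 : Set.ncard {g : G | Set.ncard {j : Fin N | lam j g = t j} < k} = A.card := by
    rw [← Set.ncard_coe_finset, hA]
    congr 1
    ext g
    simp
  have hprod : ∀ g : G, ∏ j, (if lam j g = t j then (1 / 2 : ℝ) else 1) =
      (1 / 2) ^ Set.ncard {j : Fin N | lam j g = t j} := by
    intro g
    rw [Finset.prod_ite, Finset.prod_const, Finset.prod_const_one, mul_one]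
    congr 1
    rw [← Set.ncard_coe_finset]
    congr 1
    ext j
    simp
  have hlow : (A.card : ℝ) * (1 / 2) ^ k ≤ ∑ g : G, ∏ j, (if lam j g = t j then (1 / 2 : ℝ) else 1) := by
    calc (A.card : ℝ) * (1 / 2) ^ k = ∑ g ∈ A, (1 / 2 : ℝ) ^ k := by
          rw [Finset.sum_const, nsmul_eq_mul]
      _ ≤ ∑ g ∈ A, ∏ j, (if lam j g = t j then (1 / 2 : ℝ) else 1) := by
          refine Finset.sum_le_sum fun g hg => ?_
          rw [hprod g]
          rw [hA, Finset.mem_filter] at hg
          exact pow_le_pow_of_le_one (by norm_num) (by norm_num) hg.2.le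
      _ ≤ ∑ g : G, ∏ j, (if lam j g = t j then (1 / 2 : ℝ) else 1) := by
          refine Finset.sum_le_sum_of_subset_of_nonneg (Finset.subset_univ _) fun g _ _ => ?_
          rw [hprod g]
          positivity
  have hup := hlow.trans hmom
  have hN1 : q ^ N ≤ ε / 2 ^ k := (pow_le_pow_of_le_one hq0 hq1.le hN).trans hN0.le
  rw [hA2, Nat.card_eq_fintype_card]
  have h5 : (A.card : ℝ) * (1 / 2) ^ k ≤ ε / 2 ^ k * Fintype.card G :=
    hup.trans (mul_le_mul_of_nonneg_right hN1 (Nat.cast_nonneg _))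
  have h6 : (0 : ℝ) < 2 ^ k := by positivity
  have h7 : (A.card : ℝ) * (1 / 2) ^ k = A.card / 2 ^ k := by
    rw [one_div, inv_pow]
    rfl
  rw [h7, div_mul_eq_mul_div, div_le_div_iff_of_pos_right h6] at h5
  exact h5

end StarkR
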