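import Pool.Agent.Lib.MP_d9bae3_nt.EX.Psi

/-!
# Module EX-PsiV: homomorphisms with the radicals `Φ(b)^(w_i)`

Plan.  `ψ`, `α` from `exists_psi`.  Define `θ g = (w_i · (ψ g mod n_i))_i`: the composition of `ψ` with the homomorphism `ZMod e → V n`, `z ↦ (w_i · z)` (`ZMod.castHom (hn i) (ZMod (n i))`; `V n = ∏ ZMod (n i)`).  Its kernel contains the kernel of `ψ`, so `Cts θ`.
`α_i = α^((e / n_i) (w i).val)`: `α_i^(n_i) = Φ(b)^((w i).val)` and `g α_i = ζ^((e/n_i) (w i).val (ψ g).val) α_i`; `(w i).val (ψ g).val` is congruent to `((θ g) i).val` modulo `n_i`, and `ζ^(e/n_i)` is an `n_i`-th root of unity.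
-/

namespace StarkR

open NumberField IsDedekindDomain

variable {F : Type} [Field F] [NumberField F] {L : IntermediateField F (AlgebraicClosure F)} [NumberField L]
variable {m : ℕ} {n : Fin m → ℕ} [∀ i, NeZero (n i)]

theorem exists_tw [IsGalois F L] {e : ℕ} (he : 0 < e) {ζ : L} (hζ : IsPrimitiveRoot ζ e) {t : Gal(L/F) → ℕ} (ht : IsInvCyc e ζ t)
    (hn : ∀ i, n i ∣ e) {b : 𝓞 L} (hb : b ≠ 0) (w : V n) :
    ∃ θ : Gal(AlgebraicClosure F/F) →* Multiplicative (V n), Cts θ ∧
      RadOf e ζ θ (fun i => ((twist t b : 𝓞 L) : L) ^ (w i).val) := by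
  classical
  have : NeZero e := ⟨he.ne'⟩
  obtain ⟨ψ, α, ⟨N, hN1, hN2, hN3⟩, hα, hg⟩ := exists_psi hζ ht hb
  let h : ZMod e →+ V n := AddMonoidHom.mk' (fun z i => w i * ZMod.castHom (hn i) (ZMod (n i)) z) (by
    intro a c
    funext i
    simp only [map_add, mul_add, Pi.add_apply])
  refine ⟨(AddMonoidHom.toMultiplicative h).comp ψ, ⟨N, hN1, hN2, fun g hgN => ?_⟩, ?_, fun i => α ^ ((e / n i) * (w i).val),
    fun i => ?_, fun g hgL i => ?_⟩
  · rw [MonoidHom.comp_apply, hN3 g hgN, map_one]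
  · intro i
    refine pow_ne_zero _ ?_
    have h1 : twist t b ≠ 0 := by
      unfold twist
      refine Finset.prod_ne_zero_iff.2 fun τ _ => pow_ne_zero _ ?_
      exact fun h0 => hb ((smul_eq_zero_iff_eq τ).1 h0)
    exact fun h0 => h1 (RingOfIntegers.ext (by simpa using h0))
  · have h1 : e / n i * (w i).val * n i = e * (w i).val := by
      have h2 : e / n i * n i = e := Nat.div_mul_cancel (hn i)
      calc e / n i * (w i).val * n i = e / n i * n i * (w i).val := by ring
        _ = _ := by rw [h2]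
    change (α ^ ((e / n i) * (w i).val)) ^ n i = _
    rw [← pow_mul, h1, pow_mul, hα]
    push_cast
    rfl
  · change g (α ^ ((e / n i) * (w i).val)) = _ * α ^ ((e / n i) * (w i).val)
    rw [map_pow, hg g hgL, mul_pow, ← pow_mul]
    congr 1
    have hξ : ((ζ : AlgebraicClosure F) ^ (e / n i)) ^ n i = 1 := by
      rw [← pow_mul, Nat.div_mul_cancel (hn i)]
      have := congrArg (fun z : L => (z : AlgebraicClosure F)) hζ.pow_eq_one
      simpa using this
    have h1 : ((ψ g).toAdd).val * (e / n i * (w i).val) = (e / n i) * (((ψ g).toAdd).val * (w i).val) := by ring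
    rw [h1, pow_mul (ζ : AlgebraicClosure F) (e / n i) (((ψ g).toAdd).val * (w i).val),
      pow_mul (ζ : AlgebraicClosure F) (e / n i)]
    refine pow_eq_pow_of_modEq ?_ hξ
    refine (ZMod.natCast_eq_natCast_iff _ _ _).1 ?_
    rw [ZMod.natCast_zmod_val]
    push_cast
    rw [ZMod.natCast_zmod_val, ZMod.natCast_val]
    change _ = w i * ZMod.castHom (hn i) (ZMod (n i)) ((ψ g).toAdd)
    rw [ZMod.castHom_apply, mul_comm]

end StarkR
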