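import Pool.Agent.Lib.MP_d9bae3_nt.EX.Base

/-!
# Module EX-RamF: only finitely many primes are ramified

Plan.  For `σ ∈ Gal(H/F)`, `σ ≠ 1`, choose `a ∈ 𝓞 H` with `σ • a ≠ a` (`H` is the fraction field of `𝓞 H`).  If `σ` is in the inertia group of the prime `P` above `q`, then `σ • a - a ∈ P`, so `P` is one of the finitely many primes which
divide the nonzero element `σ • a - a` (`Ideal.finite_factors`), and `q = P.under (𝓞 F)` is one of finitely many.  `Gal(H/F)` is finite (`H/F` is finite-dimensional).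
-/

namespace StarkR

open NumberField IsDedekindDomain
open scoped Pointwise

private theorem RamF_move {F H : Type} [Field F] [NumberField F] [Field H] [NumberField H] [Algebra F H] {σ : Gal(H/F)}
    (hσ : σ ≠ 1) : ∃ a : 𝓞 H, σ • a ≠ a := by
  by_contra hcon
  push Not at hcon
  refine hσ (AlgEquiv.ext fun h => ?_)
  obtain ⟨a, b, hb, rfl⟩ := IsFractionRing.div_surjective (A := 𝓞 H) h
  have h1 : ∀ c : 𝓞 H, σ (algebraMap (𝓞 H) H c) = algebraMap (𝓞 H) H c := by
    intro c
    have h2 := congrArg (algebraMap (𝓞 H) H) (hcon c)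
    exact h2
  rw [map_div₀, h1, h1]
  rfl

theorem ramified_finite (F H : Type) [Field F] [NumberField F] [Field H] [NumberField H] [Algebra F H] :
    {q : Prm F | Ramified H q}.Finite := by
  classical
  have fH : FiniteDimensional F H := Module.Finite.of_restrictScalars_finite ℚ F H
  have hG : Finite Gal(H/F) := inferInstance
  have hex : ∀ σ : Gal(H/F), ∃ a : 𝓞 H, σ ≠ 1 → σ • a ≠ a := by
    intro σ
    by_cases h : σ = 1
    · exact ⟨0, fun h' => absurd h h'⟩
    · obtain ⟨a, ha⟩ := RamF_move h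
      exact ⟨a, fun _ => ha⟩
  choose a ha using hex
  have hfin : (⋃ σ : {σ : Gal(H/F) // σ ≠ 1}, (fun P : Prm H => P.asIdeal.comap (algebraMap (𝓞 F) (𝓞 H))) ''
      {P : Prm H | P.asIdeal ∣ Ideal.span {σ.1 • a σ.1 - a σ.1}}).Finite := by
    refine Set.finite_iUnion fun σ => Set.Finite.image _ (Ideal.finite_factors ?_)
    rw [Ne, Ideal.zero_eq_bot, Ideal.span_singleton_eq_bot]
    exact sub_ne_zero.2 (ha σ.1 σ.2)
  refine Set.Finite.of_finite_image (f := fun q : Prm F => q.asIdeal) (hfin.subset ?_) ?_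
  · rintro _ ⟨q, ⟨Q, hQ, hl, hin⟩, rfl⟩
    obtain ⟨σ, hσ0⟩ := (Subgroup.ne_bot_iff_exists_ne_one).1 hin
    have hσ : σ.1 ∈ Q.inertia Gal(H/F) := σ.2
    have hσ1 : σ.1 ≠ 1 := fun h' => hσ0 (Subtype.ext h')
    have hQ0 : Q ≠ ⊥ := by
      rintro rfl
      refine q.ne_bot ?_
      rw [hl.over]
      exact Ideal.under_bot (𝓞 F) (𝓞 H)
    refine Set.mem_iUnion.2 ⟨⟨σ.1, hσ1⟩, ⟨⟨Q, hQ, hQ0⟩, ?_, ?_⟩⟩
    · show Q ∣ _
      rw [Ideal.dvd_span_singleton]
      exact hσ _
    · exact hl.over.symm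
  · intro q _ q' _ he
    exact HeightOneSpectrum.ext he

end StarkR
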