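import Pool.Agent.Lib.MP_d9bae3_nt.EX.GoodF
import Pool.Agent.Lib.MP_d9bae3_nt.EX.Prob
import Pool.Agent.Lib.MP_d9bae3_nt.EX.Crt
import Pool.Agent.Lib.MP_d9bae3_nt.EX.PhiL
import Pool.Agent.Lib.MP_d9bae3_nt.EX.PsiV
import Pool.Agent.Lib.MP_d9bae3_nt.EX.RamF
import Pool.Agent.Lib.MP_d9bae3_nt.EX.HomG
import Pool.Agent.Lib.MP_d9bae3_nt.EX.FinH
import Pool.Agent.Lib.MP_d9bae3_nt.EX.Lam
import Pool.Agent.Lib.MP_d9bae3_nt.SG.GSum

/-!
# Module EX-Dens: almost all homomorphisms have many good primes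
-/

namespace StarkR

open NumberField IsDedekindDomain
open scoped Pointwise

section iu

variable {L : Type} [Field L] [NumberField L]

/-- a nonzero integer as a unit of the field -/
private noncomputable def iu (x : 𝓞 L) (hx : x ≠ 0) : Lˣ :=
  Units.mk0 (x : L) (fun h => hx (RingOfIntegers.coe_eq_zero_iff.1 h))

private theorem iu_pow (x : 𝓞 L) (hx : x ≠ 0) (a : ℕ) : ((iu x hx ^ a : Lˣ) : L) = (x : L) ^ a := by
  rw [Units.val_pow_eq_pow_val]
  rfl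

private theorem iu_mul (x : 𝓞 L) (hx : x ≠ 0) (y : 𝓞 L) (hy : y ≠ 0) (a b : ℕ) :
    ((iu x hx ^ a * iu y hy ^ b : Lˣ) : L) = (x : L) ^ a * (y : L) ^ b := by
  rw [Units.val_mul, iu_pow, iu_pow]

private theorem mk_of_loc {N : ℕ} {Q : Prm L} {x y x' y' : Lˣ} (h1 : LocEq N Q (x : L) (y : L)) (h2 : LocEq N Q (x' : L) (y' : L)) :
    (QuotientGroup.mk (x * x') : Lˣ ⧸ locS N Q) = QuotientGroup.mk (y * y') := by
  rw [QuotientGroup.mk_mul, QuotientGroup.mk_mul, locEq_iff.1 h1, locEq_iff.1 h2]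

end iu

variable {F : Type} [Field F] [NumberField F] {L : IntermediateField F (AlgebraicClosure F)} [NumberField L]
variable {m : ℕ} {n : Fin m → ℕ} [∀ i, NeZero (n i)]

private theorem under_inj [IsGalois F L] {Q Q' : Prm L} (h : Q.under (𝓞 F) = Q'.under (𝓞 F)) :
    ∃ τ : Gal(L/F), τ • Q.asIdeal = Q'.asIdeal := by
  have hu : Q.asIdeal.under (𝓞 F) = Q'.asIdeal.under (𝓞 F) := congrArg HeightOneSpectrum.asIdeal h
  have := Q.isPrime
  have := Q'.isPrime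
  obtain ⟨τ, hτ⟩ := Algebra.IsInvariant.exists_smul_of_under_eq (𝓞 F) (𝓞 L) Gal(L/F) Q.asIdeal Q'.asIdeal hu
  exact ⟨τ, hτ.symm⟩

/-- enough primes -/
private theorem primes [IsGalois F L] {e : ℕ} (he : 0 < e) {ζ : L} (hζ : IsPrimitiveRoot ζ e) [IsCyclotomicExtension {e} F L] (N0 : ℕ) :
    ∃ (N : ℕ) (Q : Fin N → Prm L), N0 ≤ N ∧ (∀ j, GoodPrm F e (Q j)) ∧
      ∀ (i j : Fin N) (τ : Gal(L/F)), τ • (Q i).asIdeal = (Q j).asIdeal → i = j := by
  obtain ⟨A, h1, h2, h3⟩ := good_sum (F := F) he hζ (N0 : ℝ)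
  refine ⟨A.card, fun j => (A.equivFin.symm j : Prm L), ?_, fun j => h1 _ (A.equivFin.symm j).2, fun i j τ h => ?_⟩
  · have h4 : ∑ Q ∈ A, 1 / (nm Q : ℝ) ≤ ∑ _Q ∈ A, (1 : ℝ) := by
      refine Finset.sum_le_sum fun Q _ => ?_
      have h5 : (1 : ℝ) ≤ nm Q := by
        have h6 : nm Q ≠ 0 := by
          unfold nm
          rw [Ne, Ideal.absNorm_eq_zero_iff]
          exact Q.ne_bot
        exact_mod_cast Nat.one_le_iff_ne_zero.2 h6
      rw [div_le_one (by linarith)]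
      exact h5
    rw [Finset.sum_const, nsmul_eq_mul, mul_one] at h4
    exact_mod_cast h3.trans h4
  · have h5 := h2 _ (A.equivFin.symm i).2 _ (A.equivFin.symm j).2 τ h
    exact A.equivFin.symm.injective (Subtype.ext h5)

/-- the local classes are independent -/
private theorem surj_aux [IsGalois F L] {e : ℕ} (he : 0 < e) {ζ : L} (hζ : IsPrimitiveRoot ζ e)
    {t : Gal(L/F) → ℕ} (ht : IsInvCyc e ζ t) (hn : ∀ i, n i ∣ e) {N : ℕ} {Q : Fin N → Prm L} {π u : Fin N → 𝓞 L}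
    (hpu : ∀ j, LocGen (Q j) (π j) (u j))
    (hpu1 : ∀ (j i : Fin N) (τ : Gal(L/F)), (i ≠ j ∨ τ ≠ 1) → τ • π j - 1 ∈ (Q i).asIdeal ∧ τ • u j - 1 ∈ (Q i).asIdeal)
    (hπ0 : ∀ j, π j ≠ 0) (hu0 : ∀ j, u j ≠ 0) {θ1 θ2 : Fin N → V n → Gal(AlgebraicClosure F/F) →* Multiplicative (V n)}
    (hr1 : ∀ (j : Fin N) (w : V n), RadOf e ζ (θ1 j w) (fun i => ((twist t (π j) : 𝓞 L) : L) ^ (w i).val))
    (hr2 : ∀ (j : Fin N) (w : V n), RadOf e ζ (θ2 j w) (fun i => ((twist t (u j) : 𝓞 L) : L) ^ (w i).val))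
    (G : Subgroup (Gal(AlgebraicClosure F/F) →* Multiplicative (V n))) (hm1 : ∀ j w, θ1 j w ∈ G) (hm2 : ∀ j w, θ2 j w ∈ G)
    {lam : ∀ j, G →* ((i : Fin m) → (L : Type)ˣ ⧸ locS (n i) (Q j))}
    (hlam : ∀ (j : Fin N) (φ : G) (x : Fin m → (L : Type)ˣ),
      RadOf e ζ (φ : Gal(AlgebraicClosure F/F) →* Multiplicative (V n)) (fun i => (x i : L)) →
        lam j φ = fun i => QuotientGroup.mk (x i))
    (j : Fin N) (β : (i : Fin m) → (L : Type)ˣ ⧸ locS (n i) (Q j)) : ∃ θ : G, lam j θ = β ∧ ∀ i, i ≠ j → lam i θ = 1 := by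
  have hn0 : ∀ i, 0 < n i := fun i => Nat.pos_of_ne_zero (NeZero.ne (n i))
  choose x hx using fun i => QuotientGroup.mk_surjective (β i)
  choose a b ha hb hab using fun i => loc_gen (hpu j) (hn0 i) (x i).ne_zero
  obtain ⟨w, hw⟩ : ∃ w : V n, ∀ i, (w i).val = a i := ⟨fun i => (a i : ZMod (n i)), fun i => ZMod.val_natCast_of_lt (ha i)⟩
  obtain ⟨w', hw'⟩ : ∃ w : V n, ∀ i, (w i).val = b i := ⟨fun i => (b i : ZMod (n i)), fun i => ZMod.val_natCast_of_lt (hb i)⟩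
  have hmem : θ1 j w * θ2 j w' ∈ G := G.mul_mem (hm1 j w) (hm2 j w')
  have hrad := rad_mul he hζ hn (hr1 j w) (hr2 j w')
  have hP := twist_ne t (hπ0 j)
  have hU := twist_ne t (hu0 j)
  have hrad' : RadOf e ζ ((⟨θ1 j w * θ2 j w', hmem⟩ : G) : Gal(AlgebraicClosure F/F) →* Multiplicative (V n))
      (fun i => (((iu (twist t (π j)) hP ^ a i * iu (twist t (u j)) hU ^ b i : (L : Type)ˣ)) : L)) := by
    have h1 : (fun i => (((iu (twist t (π j)) hP ^ a i * iu (twist t (u j)) hU ^ b i : (L : Type)ˣ)) : L)) =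
        fun i => ((twist t (π j) : 𝓞 L) : L) ^ (w i).val * ((twist t (u j) : 𝓞 L) : L) ^ (w' i).val := by
      funext i
      rw [hw, hw', iu_mul]
    rw [h1]
    exact hrad
  refine ⟨⟨_, hmem⟩, ?_, fun i hi => ?_⟩
  · rw [hlam j _ _ hrad']
    funext i
    rw [← hx i]
    have e3 : (QuotientGroup.mk (x i) : (L : Type)ˣ ⧸ locS (n i) (Q j)) =
        QuotientGroup.mk (iu (π j) (hπ0 j) ^ a i * iu (u j) (hu0 j) ^ b i) := by
      rw [← locEq_iff, iu_mul]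
      exact hab i
    rw [e3]
    refine mk_of_loc ?_ ?_
    · rw [iu_pow, iu_pow]
      exact twist_loc he hζ ht (hn i) (hπ0 j) (fun τ hτ => (hpu1 j j τ (Or.inr hτ)).1) _
    · rw [iu_pow, iu_pow]
      exact twist_loc he hζ ht (hn i) (hu0 j) (fun τ hτ => (hpu1 j j τ (Or.inr hτ)).2) _
  · rw [hlam i _ _ hrad']
    funext r
    have e1 : (QuotientGroup.mk (iu (twist t (π j)) hP ^ a r * iu (twist t (u j)) hU ^ b r) : (L : Type)ˣ ⧸ locS (n r) (Q i)) =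
        QuotientGroup.mk (1 * 1) := by
      refine mk_of_loc ?_ ?_
      · rw [iu_pow, Units.val_one]
        exact twist_loc_one t (hπ0 j) (fun τ => (hpu1 j i τ (Or.inl hi)).1) _
      · rw [iu_pow, Units.val_one]
        exact twist_loc_one t (hu0 j) (fun τ => (hpu1 j i τ (Or.inl hi)).2) _
    rw [e1, mul_one]
    rfl

/-- enough good primes of each class give a good homomorphism -/
private theorem good_aux [IsGalois F L] {e : ℕ} {ζ : L} {k N : ℕ} {Q : Fin N → Prm L} (hQ : ∀ j, GoodPrm F e (Q j))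
    (hc : ∀ (i j : Fin N) (τ : Gal(L/F)), τ • (Q i).asIdeal = (Q j).asIdeal → i = j) {π u : Fin N → 𝓞 L}
    (hpu : ∀ j, LocGen (Q j) (π j) (u j)) (hπ0 : ∀ j, π j ≠ 0)
    (G : Subgroup (Gal(AlgebraicClosure F/F) →* Multiplicative (V n)))
    {lam : ∀ j, G →* ((i : Fin m) → (L : Type)ˣ ⧸ locS (n i) (Q j))}
    (hlam : ∀ (j : Fin N) (φ : G) (x : Fin m → (L : Type)ˣ),
      RadOf e ζ (φ : Gal(AlgebraicClosure F/F) →* Multiplicative (V n)) (fun i => (x i : L)) →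
        lam j φ = fun i => QuotientGroup.mk (x i))
    (g : G) (hg : ∀ v : V n, k ≤ Set.ncard {j : Fin N | lam j g = fun i => QuotientGroup.mk (iu (π j) (hπ0 j) ^ (v i).val)}) :
    GoodHom e k ζ (g : Gal(AlgebraicClosure F/F) →* Multiplicative (V n)) := by
  classical
  intro v hv
  have hinj : Function.Injective Q := fun i j h => hc i j 1 (by rw [one_smul, h])
  refine ⟨(Finset.univ.filter fun j => lam j g = fun i => QuotientGroup.mk (iu (π j) (hπ0 j) ^ (v i).val)).image Q, ?_, ?_,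
    fun P hP => ?_⟩
  · rw [Finset.card_image_of_injective _ hinj]
    have h1 := hg v
    rw [Set.ncard_eq_toFinset_card'] at h1
    refine h1.trans (Finset.card_le_card fun j hj => Finset.mem_filter.2 ⟨Finset.mem_univ _, ?_⟩)
    rw [Set.mem_toFinset] at hj
    exact hj
  · intro P hP P' hP' hh
    rw [Finset.mem_coe] at hP hP'
    obtain ⟨i, -, rfl⟩ := Finset.mem_image.1 hP
    obtain ⟨j, -, rfl⟩ := Finset.mem_image.1 hP'
    obtain ⟨τ, hτ⟩ := under_inj hh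
    rw [hc i j τ hτ]
  · obtain ⟨j, hj, rfl⟩ := Finset.mem_image.1 hP
    rw [Finset.mem_filter] at hj
    refine ⟨hQ j, π j, (hpu j).mem, (hpu j).notMem, fun x hx i => ?_⟩
    have h1 := hlam j g (fun i => Units.mk0 (x i) (hx.1 i)) hx
    rw [hj.2] at h1
    have h2 := congrFun h1 i
    have h3 := locEq_iff.2 h2.symm
    rw [iu_pow] at h3
    exact h3

/-- the union bound -/
private theorem union_aux {X : Type} {W : Type} [Fintype W] {T : Set X} {G : Type} [Finite G] (f : G → X) (hf : ∀ x ∈ T, ∃ g, f g = x)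
    (good : X → Prop) (bad : W → Set G) {ε : ℝ} (hW : 0 < Fintype.card W)
    (hgood : ∀ g, (∀ v, g ∉ bad v) → good (f g))
    (hbad : ∀ v, (Set.ncard (bad v) : ℝ) ≤ ε / Fintype.card W * (Nat.card G : ℝ)) :
    (Set.ncard {x | x ∈ T ∧ ¬ good x} : ℝ) ≤ ε * (Nat.card G : ℝ) := by
  have hcard : (0 : ℝ) < Fintype.card W := by exact_mod_cast hW
  have hsub : {x | x ∈ T ∧ ¬ good x} ⊆ ⋃ v ∈ (Finset.univ : Finset W), f '' bad v := by
    rintro x ⟨h1, h2⟩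
    obtain ⟨g, rfl⟩ := hf x h1
    by_contra h3
    refine h2 (hgood g fun v h4 => ?_)
    exact h3 (Set.mem_iUnion₂.2 ⟨v, Finset.mem_univ _, ⟨g, h4, rfl⟩⟩)
  have hle : (Set.ncard {x | x ∈ T ∧ ¬ good x} : ℝ) ≤ ∑ v : W, (Set.ncard (bad v) : ℝ) := by
    have h1 : Set.ncard {x | x ∈ T ∧ ¬ good x} ≤ ∑ v : W, Set.ncard (bad v) := by
      refine (Set.ncard_le_ncard hsub ?_).trans ((Finset.set_ncard_biUnion_le _ _).trans (Finset.sum_le_sum fun v _ => ?_))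
      · exact Set.Finite.biUnion (Set.toFinite _) fun v _ => (Set.toFinite _).image _
      · exact Set.ncard_image_le (Set.toFinite _)
    exact_mod_cast h1
  refine hle.trans ((Finset.sum_le_sum fun v _ => hbad v).trans ?_)
  rw [Finset.sum_const, Finset.card_univ, nsmul_eq_mul, ← mul_assoc, mul_div_cancel₀ _ hcard.ne']

private theorem prod_fin {Q : Prm L} {π u : 𝓞 L} (hpu : LocGen Q π u) :
    Finite ((i : Fin m) → (L : Type)ˣ ⧸ locS (n i) Q) := by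
  have : ∀ i, Finite ((L : Type)ˣ ⧸ locS (n i) Q) := fun i => (loc_card hpu (Nat.pos_of_ne_zero (NeZero.ne (n i)))).1
  infer_instance

private theorem prod_card {Q : Prm L} {π u : 𝓞 L} (hpu : LocGen Q π u) :
    Nat.card ((i : Fin m) → (L : Type)ˣ ⧸ locS (n i) Q) ≤ ∏ i, n i ^ 2 := by
  rw [Nat.card_pi]
  exact Finset.prod_le_prod' fun i _ => (loc_card hpu (Nat.pos_of_ne_zero (NeZero.ne (n i)))).2

/-- the counting -/
private theorem count_aux [IsGalois F L] {e : ℕ} (he : 0 < e) {ζ : L} (hζ : IsPrimitiveRoot ζ e) (hn : ∀ i, n i ∣ e)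
    {t : Gal(L/F) → ℕ} (ht : IsInvCyc e ζ t) {k : ℕ} {ε : ℝ} {N0 : ℕ}
    (hN0 : ∀ N : ℕ, N0 ≤ N → ∀ (G : Type) [Group G] [Finite G] (B : Fin N → Type) [∀ j, Group (B j)] [∀ j, Finite (B j)]
      (lam : ∀ j, G →* B j) (t : ∀ j, B j), (∀ j, Nat.card (B j) ≤ ∏ i, n i ^ 2) →
      (∀ (j : Fin N) (β : B j), ∃ θ : G, lam j θ = β ∧ ∀ i, i ≠ j → lam i θ = 1) →
      (Set.ncard {g : G | Set.ncard {j : Fin N | lam j g = t j} < k} : ℝ) ≤ ε / Fintype.card (V n) * (Nat.card G : ℝ))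
    {N : ℕ} (hN : N0 ≤ N) {Q : Fin N → Prm L} (hQ : ∀ j, GoodPrm F e (Q j))
    (hc : ∀ (i j : Fin N) (τ : Gal(L/F)), τ • (Q i).asIdeal = (Q j).asIdeal → i = j) {π u : Fin N → 𝓞 L}
    (hpu : ∀ j, LocGen (Q j) (π j) (u j))
    (hpu1 : ∀ (j i : Fin N) (τ : Gal(L/F)), (i ≠ j ∨ τ ≠ 1) → τ • π j - 1 ∈ (Q i).asIdeal ∧ τ • u j - 1 ∈ (Q i).asIdeal)
    (hπ0 : ∀ j, π j ≠ 0) (hu0 : ∀ j, u j ≠ 0) {θ1 θ2 : Fin N → V n → Gal(AlgebraicClosure F/F) →* Multiplicative (V n)}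
    (hr1 : ∀ (j : Fin N) (w : V n), RadOf e ζ (θ1 j w) (fun i => ((twist t (π j) : 𝓞 L) : L) ^ (w i).val))
    (hr2 : ∀ (j : Fin N) (w : V n), RadOf e ζ (θ2 j w) (fun i => ((twist t (u j) : 𝓞 L) : L) ^ (w i).val))
    (G : Subgroup (Gal(AlgebraicClosure F/F) →* Multiplicative (V n))) [Finite G] (hGc : ∀ φ ∈ G, Cts φ)
    (hm1 : ∀ j w, θ1 j w ∈ G) (hm2 : ∀ j w, θ2 j w ∈ G) :
    (Set.ncard {φ : Gal(AlgebraicClosure F/F) →* Multiplicative (V n) | φ ∈ (G : Set _) ∧ ¬ GoodHom e k ζ φ} : ℝ) ≤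
        ε * (Nat.card G : ℝ) := by
  have hcard0 : 0 < Fintype.card (V n) := Fintype.card_pos_iff.2 ⟨0⟩
  have hlam' := fun j => exists_lam he hζ hn G hGc (Q j)
  choose lam hlam using hlam'
  have hBf : ∀ j, Finite ((i : Fin m) → (L : Type)ˣ ⧸ locS (n i) (Q j)) := fun j => prod_fin (hpu j)
  refine union_aux (fun g : G => (g : Gal(AlgebraicClosure F/F) →* Multiplicative (V n))) (fun x hx => ⟨⟨x, hx⟩, rfl⟩) _
    (fun v : V n => {g : G | Set.ncard {j : Fin N | lam j g = fun i => QuotientGroup.mk (iu (π j) (hπ0 j) ^ (v i).val)} < k})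
    hcard0 ?_ fun v => ?_
  · exact fun g hg => good_aux hQ hc hpu hπ0 G hlam g fun v => not_lt.1 (hg v)
  · have h5 := hN0 N hN G (fun j => (i : Fin m) → (L : Type)ˣ ⧸ locS (n i) (Q j))
    have h6 := h5 lam (fun j i => QuotientGroup.mk (iu (π j) (hπ0 j) ^ (v i).val)) (fun j => prod_card (hpu j))
    have h7 := fun j β => surj_aux he hζ ht hn hpu hpu1 hπ0 hu0 hr1 hr2 G hm1 hm2 hlam j β
    exact h6 h7

theorem dens_good [IsGalois F L] {e : ℕ} (he : 0 < e) {ζ : L} (hζ : IsPrimitiveRoot ζ e) [IsCyclotomicExtension {e} F L]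
    {t : Gal(L/F) → ℕ} (ht : IsInvCyc e ζ t) (hn : ∀ i, n i ∣ e) (k : ℕ) {ε : ℝ} (hε : 0 < ε) :
    ∃ S0 : Finset (Prm F), ∀ S : Finset (Prm F), S0 ⊆ S →
      (Set.ncard {φ : Gal(AlgebraicClosure F/F) →* Multiplicative (V n) | φ ∈ HomS n S ∧ ¬ GoodHom e k ζ φ} : ℝ) ≤
        ε * (Set.ncard (HomS n S) : ℝ) := by
  have hn0 : ∀ i, 0 < n i := fun i => Nat.pos_of_ne_zero (NeZero.ne (n i))
  have hC0 : 0 < ∏ i, n i ^ 2 := Finset.prod_pos fun i _ => pow_pos (hn0 i) 2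
  have hcard0 : 0 < Fintype.card (V n) := Fintype.card_pos_iff.2 ⟨0⟩
  have hcard : (0 : ℝ) < Fintype.card (V n) := by exact_mod_cast hcard0
  obtain ⟨N0, hN0⟩ := prob_lemma hC0 k (ε := ε / Fintype.card (V n)) (div_pos hε hcard)
  obtain ⟨N, Q, hN, hQ, hc⟩ := primes (F := F) he hζ N0
  choose π u hpu hpu1 using fun j => exists_pu Q hQ hc j
  have hπ0 : ∀ j, π j ≠ 0 := fun j h => (hpu j).notMem (h ▸ Ideal.zero_mem _)
  have hu0 : ∀ j, u j ≠ 0 := fun j h => (hpu j).unit (h ▸ Ideal.zero_mem _)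
  choose θ1 hθ1 hr1 using fun (j : Fin N) (w : V n) => exists_tw he hζ ht hn (hπ0 j) w
  choose θ2 hθ2 hr2 using fun (j : Fin N) (w : V n) => exists_tw he hζ ht hn (hu0 j) w
  have hfin1 : ∀ j w, {q : Prm F | ∀ (_ : NumberField (fld (θ1 j w))), Ramified (fld (θ1 j w)) q}.Finite := fun j w => by
    have := fld_nf (hθ1 j w)
    exact (ramified_finite F (fld (θ1 j w))).subset fun q hq => hq this
  have hfin2 : ∀ j w, {q : Prm F | ∀ (_ : NumberField (fld (θ2 j w))), Ramified (fld (θ2 j w)) q}.Finite := fun j w => by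
    have := fld_nf (hθ2 j w)
    exact (ramified_finite F (fld (θ2 j w))).subset fun q hq => hq this
  have hfin : (⋃ p : Fin N × V n, ({q : Prm F | ∀ (_ : NumberField (fld (θ1 p.1 p.2))), Ramified (fld (θ1 p.1 p.2)) q} ∪
      {q : Prm F | ∀ (_ : NumberField (fld (θ2 p.1 p.2))), Ramified (fld (θ2 p.1 p.2)) q})).Finite :=
    Set.finite_iUnion fun p => (hfin1 _ _).union (hfin2 _ _)
  refine ⟨hfin.toFinset, fun S hS => ?_⟩
  obtain ⟨G, hG⟩ := homS_group n S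
  have hGfin : (HomS n S).Finite := homS_finite he hζ hn S
  have hGe : (G : Set (Gal(AlgebraicClosure F/F) →* Multiplicative (V n))) = HomS n S := Set.ext hG
  have hGf : Finite G := by
    have h1 : (G : Set (Gal(AlgebraicClosure F/F) →* Multiplicative (V n))).Finite := by
      rw [hGe]
      exact hGfin
    exact h1.to_subtype
  have h2 := count_aux he hζ hn ht hN0 hN hQ hc hpu hpu1 hπ0 hu0 hr1 hr2 G (fun φ hφ => ((hG φ).1 hφ).1)
    (fun j w => (hG _).2 ⟨hθ1 j w, fun inst q hq => hS (by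
      rw [Set.Finite.mem_toFinset]
      exact Set.mem_iUnion.2 ⟨(j, w), Or.inl fun _ => hq⟩)⟩)
    (fun j w => (hG _).2 ⟨hθ2 j w, fun inst q hq => hS (by
      rw [Set.Finite.mem_toFinset]
      exact Set.mem_iUnion.2 ⟨(j, w), Or.inr fun _ => hq⟩)⟩)
  have h3 : (Nat.card G : ℝ) = (Set.ncard (HomS n S) : ℝ) := by
    rw [← hGe, ← Nat.card_coe_set_eq]
    rfl
  rw [hGe, h3] at h2
  exact h2

end StarkR
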