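import Pool.Agent.Lib.MP_d9bae3_nt.EX.Base

/-!
# Module EX-Fld: homomorphisms with open kernel and finite Galois extensions

Plan.  If `N` is as in `Cts φ`, then `φ` factors through the finite group `Gal(N/F) = Γ / N.fixingSubgroup` (`AlgEquiv.restrictNormalHom N` is surjective with kernel `N.fixingSubgroup`); `fld φ` is contained in `N` (an element of `Ω` fixed by the kernel of `φ` is
fixed by `N.fixingSubgroup`, so it is in `N`), it is the fixed field of the image of `ker φ` in `Gal(N/F)`, and it is Galois over `F` since `ker φ` is normal.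
`fld_ker`: the group of the automorphisms over `fld φ` is `ker φ` (finite Galois theory in `N`; or `InfiniteGalois.fixingSubgroup_fixedField` for the closed subgroup `ker φ`, which is open because it contains the open subgroup `N.fixingSubgroup`).
`fld_hom`: `f (g|H) = φ g` is well defined and injective by `fld_ker` (`QuotientGroup.lift`, or `MonoidHom.liftOfSurjective`-like constructions for the surjective `restrictNormalHom`).
`fld_of`: the kernel of `f ∘ (restriction to H)` is `H.fixingSubgroup`, and `fixedField (fixingSubgroup H) = H` (`IsGalois.fixedField_fixingSubgroup`, `InfiniteGalois.fixedField_fixingSubgroup`).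
-/

namespace StarkR

open NumberField IsDedekindDomain

variable {F : Type} [Field F] [NumberField F] {A : Type} [Group A]

/-- The kernel is open. -/
private theorem ker_open {φ : Gal(AlgebraicClosure F/F) →* A} (hφ : Cts φ) :
    IsOpen (φ.ker : Set Gal(AlgebraicClosure F/F)) := by
  obtain ⟨N, hN, -, h⟩ := hφ
  exact Subgroup.isOpen_mono (H₁ := N.fixingSubgroup) (H₂ := φ.ker) (fun g hg => h g hg) (IntermediateField.fixingSubgroup_isOpen N)

private theorem ker_eq {φ : Gal(AlgebraicClosure F/F) →* A} (hφ : Cts φ) : (fld φ).fixingSubgroup = φ.ker :=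
  InfiniteGalois.fixingSubgroup_fixedField
    (⟨φ.ker, Subgroup.isClosed_of_isOpen φ.ker (ker_open hφ)⟩ : ClosedSubgroup Gal(AlgebraicClosure F/F))

theorem fld_gal {φ : Gal(AlgebraicClosure F/F) →* A} (hφ : Cts φ) : FiniteDimensional F (fld φ) ∧ IsGalois F (fld φ) := by
  refine (InfiniteGalois.isOpen_and_normal_iff_finite_and_isGalois (fld φ)).mp ⟨?_, ?_⟩
  · rw [ker_eq hφ]
    exact ker_open hφ
  · rw [ker_eq hφ]
    exact MonoidHom.normal_ker φ

theorem fld_nf {φ : Gal(AlgebraicClosure F/F) →* A} (hφ : Cts φ) : NumberField (fld φ) := by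
  have h := (fld_gal hφ).1
  exact NumberField.of_module_finite F (fld φ)

theorem fld_ker {φ : Gal(AlgebraicClosure F/F) →* A} (hφ : Cts φ) (g : Gal(AlgebraicClosure F/F)) :
    φ g = 1 ↔ g ∈ (fld φ).fixingSubgroup := by
  rw [ker_eq hφ, MonoidHom.mem_ker]

theorem fld_hom {φ : Gal(AlgebraicClosure F/F) →* A} (hφ : Cts φ) [IsGalois F (fld φ)] :
    ∃ f : Gal(fld φ/F) →* A, Function.Injective f ∧ ∀ g, f (AlgEquiv.restrictNormalHom (fld φ) g) = φ g := by
  have hs : Function.Surjective (AlgEquiv.restrictNormalHom (F := F) (K₁ := AlgebraicClosure F) (fld φ)) :=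
    AlgEquiv.restrictNormalHom_surjective (AlgebraicClosure F)
  have hk : (AlgEquiv.restrictNormalHom (F := F) (K₁ := AlgebraicClosure F) (fld φ)).ker = φ.ker := by
    rw [IntermediateField.restrictNormalHom_ker, ker_eq hφ]
  have hf : ∀ g, (MonoidHom.liftOfRightInverse _ _ (Function.rightInverse_surjInv hs) ⟨φ, hk.le⟩)
      (AlgEquiv.restrictNormalHom (fld φ) g) = φ g :=
    MonoidHom.liftOfRightInverse_comp_apply _ _ (Function.rightInverse_surjInv hs) ⟨φ, hk.le⟩
  refine ⟨MonoidHom.liftOfRightInverse _ _ (Function.rightInverse_surjInv hs) ⟨φ, hk.le⟩, ?_, hf⟩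
  rw [injective_iff_map_eq_one]
  intro h hh
  obtain ⟨g, rfl⟩ := hs h
  rw [hf g] at hh
  have h1 : g ∈ φ.ker := hh
  rw [← hk] at h1
  exact h1

theorem fld_of (H : IntermediateField F (AlgebraicClosure F)) [FiniteDimensional F H] [IsGalois F H] (f : Gal(H/F) →* A)
    (hf : Function.Injective f) : Cts (f.comp (AlgEquiv.restrictNormalHom H)) ∧ fld (f.comp (AlgEquiv.restrictNormalHom H)) = H := by
  have hk : (f.comp (AlgEquiv.restrictNormalHom (K₁ := AlgebraicClosure F) H)).ker = H.fixingSubgroup := by
    rw [← IntermediateField.restrictNormalHom_ker H]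
    ext g
    rw [MonoidHom.mem_ker, MonoidHom.mem_ker, MonoidHom.comp_apply, map_eq_one_iff f hf]
  refine ⟨⟨H, inferInstance, inferInstance, fun g hg => ?_⟩, ?_⟩
  · rw [← hk] at hg
    exact hg
  · unfold fld
    rw [hk]
    exact InfiniteGalois.fixedField_fixingSubgroup H

end StarkR
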