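import Pool.Agent.Lib.MP_d9bae3_nt.EX.Base

/-!
# Module EX-GoodB: local classes `π^(v_i)` and families `b` with `Ev`

Plan.  `x_i b' = π^(v_i) z^(n_i) a'` with `a', b' ∉ Q`, `a' - b' ∈ Q`, `z ≠ 0` (`hloc`).  Choose `c ∈ 𝓞 L` with `c b' - 1 ∈ Q` (`𝓞 L / Q` is a field).  Let `z_i = a' b'^(n_i - 1) c^(n_i)`, an integer with `z_i ≡ (b' c)^(n_i) ≡ 1` modulo `Q`, and
`y_i = b' c / z`: then `x_i y_i^(n_i) = π^(v_i) z_i`.  Let `e_i = Pi.single i 1` and `b_w = (if w = v then π else 1) · ∏_{i with e_i = w} z_i`.  If `n_i ≠ 1`, then `rad b i = ∏_w b_w^(w_i) = π^(v_i) z_i` (the exponent `(e_j)_i` is `1` for `j = i` and `0` for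
`j ≠ i`).  If `n_i = 1`, then `rad b i = 1` (all `(w i).val = 0`) and we take `y_i = x_i⁻¹` instead.  `Ev e v b Q`: `b_v = π · (≡ 1)` is in `Q` and not in `Q^2`; `b_w ≡ 1` for `w ≠ v`.
-/

namespace StarkR

open NumberField IsDedekindDomain

variable {L : Type} [Field L] [NumberField L] {m : ℕ} {n : Fin m → ℕ} [∀ i, NeZero (n i)]

private theorem GoodB_one_notMem (Q : Prm L) : (1 : 𝓞 L) ∉ Q.asIdeal := fun h =>
  Q.isPrime.ne_top ((Ideal.eq_top_iff_one _).2 h)

private theorem GoodB_notMem {Q : Prm L} {z : 𝓞 L} (h : z - 1 ∈ Q.asIdeal) : z ∉ Q.asIdeal := by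
  intro hz
  refine GoodB_one_notMem Q ?_
  have h1 : (1 : 𝓞 L) = z - (z - 1) := by ring
  rw [h1]
  exact Ideal.sub_mem _ hz h

private theorem GoodB_pow_sub {Q : Prm L} {z : 𝓞 L} (h : z - 1 ∈ Q.asIdeal) (k : ℕ) :
    z ^ k - 1 ∈ Q.asIdeal := by
  have h1 : z - 1 ∣ z ^ k - 1 ^ k := sub_dvd_pow_sub_pow z 1 k
  rw [one_pow] at h1
  exact Ideal.mem_of_dvd _ h1 h

private theorem GoodB_prod_sub {ι : Type*} (s : Finset ι) {Q : Prm L} {z : ι → 𝓞 L}
    (h : ∀ i, z i - 1 ∈ Q.asIdeal) : (∏ i ∈ s, z i) - 1 ∈ Q.asIdeal := by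
  classical
  induction s using Finset.induction_on with
  | empty => rw [Finset.prod_empty, sub_self]; exact Ideal.zero_mem _
  | insert a s ha ih =>
    rw [Finset.prod_insert ha]
    have h1 : z a * (∏ i ∈ s, z i) - 1 = z a * ((∏ i ∈ s, z i) - 1) + (z a - 1) := by ring
    rw [h1]
    exact Ideal.add_mem _ (Ideal.mul_mem_left _ _ ih) (h a)

private theorem GoodB_inv {Q : Prm L} {b : 𝓞 L} (hb : b ∉ Q.asIdeal) :
    ∃ c : 𝓞 L, b * c - 1 ∈ Q.asIdeal := by
  have hmax : Q.asIdeal.IsMaximal := Q.isMaximal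
  obtain ⟨c, i, hi, hc⟩ := hmax.exists_inv hb
  refine ⟨c, ?_⟩
  have h1 : b * c - 1 = -i := by rw [← hc]; ring
  rw [h1]
  exact neg_mem hi

/-- One component. -/
private theorem GoodB_comp {Q : Prm L} {N k : ℕ} (hN : 1 ≤ N) {π : 𝓞 L} {x : L}
    (hloc : LocEq N Q x ((π : L) ^ k)) :
    ∃ (z : 𝓞 L) (y : L), y ≠ 0 ∧ z - 1 ∈ Q.asIdeal ∧ ((π ^ k * z : 𝓞 L) : L) = x * y ^ N := by
  obtain ⟨z, a, b, hz, ha, hb, hab, h⟩ := hloc
  obtain ⟨c, hc⟩ := GoodB_inv hb
  have hb0 : (b : L) ≠ 0 := by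
    intro h0
    have h1 : b = 0 := by exact_mod_cast h0
    exact hb (by rw [h1]; exact Ideal.zero_mem _)
  have hc0 : (c : L) ≠ 0 := by
    intro h0
    have h1 : c = 0 := by exact_mod_cast h0
    rw [h1, mul_zero, zero_sub] at hc
    exact GoodB_one_notMem Q (by simpa using neg_mem hc)
  refine ⟨a * b ^ (N - 1) * c ^ N, b * c / z, div_ne_zero (mul_ne_zero hb0 hc0) hz, ?_, ?_⟩
  · have h1 : b ^ N = b * b ^ (N - 1) := by rw [← pow_succ', Nat.sub_add_cancel hN]
    have h2 : a * b ^ (N - 1) * c ^ N - 1 =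
        (a - b) * (b ^ (N - 1) * c ^ N) + ((b * c) ^ N - 1) := by
      rw [mul_pow, h1]
      ring
    rw [h2]
    exact Ideal.add_mem _ (Ideal.mul_mem_right _ _ hab) (GoodB_pow_sub hc N)
  · have h1 : (b : L) ^ N = b * (b : L) ^ (N - 1) := by rw [← pow_succ', Nat.sub_add_cancel hN]
    have hzN : z ^ N ≠ 0 := pow_ne_zero _ hz
    rw [div_pow, mul_pow, h1]
    push_cast
    rw [← mul_div_assoc, eq_div_iff hzN]
    linear_combination (-((b : L) ^ (N - 1) * (c : L) ^ N)) * h

theorem exists_bEv {e : ℕ} {Q : Prm L} {π : 𝓞 L} (h1 : π ∈ Q.asIdeal) (h2 : π ∉ Q.asIdeal ^ 2) {v : V n}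
    {x : Fin m → L} (hx : ∀ i, x i ≠ 0) (hloc : ∀ i, LocEq (n i) Q (x i) ((π : L) ^ (v i).val)) :
    ∃ (b : V n → 𝓞 L) (y : Fin m → L), (∀ i, y i ≠ 0) ∧ Ev e v b Q ∧
      ∀ i, ((rad b i : 𝓞 L) : L) = x i * y i ^ n i := by
  classical
  have hn : ∀ i, 1 ≤ n i := fun i => Nat.one_le_iff_ne_zero.2 (NeZero.ne (n i))
  choose z y hy hz hzy using fun i => GoodB_comp (hn i) (hloc i)
  set E : Fin m → V n := fun i => Pi.single i 1 with hE
  set b : V n → 𝓞 L := fun w => (if w = v then π else 1) * ∏ i with E i = w, z i with hb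
  have hprod : ∀ w, (∏ i with E i = w, z i) - 1 ∈ Q.asIdeal := fun w => GoodB_prod_sub _ hz
  have hEi : ∀ i, n i ≠ 1 → (E i i).val = 1 := by
    intro i hi
    have h3 : E i i = 1 := Pi.single_eq_same i 1
    haveI : Fact (1 < n i) := ⟨by have := hn i; omega⟩
    rw [h3, ZMod.val_one]
  have hEj : ∀ i j, j ≠ i → (E j i).val = 0 := by
    intro i j hij
    have h3 : E j i = 0 := Pi.single_eq_of_ne hij.symm 1
    rw [h3, ZMod.val_zero]
  refine ⟨b, fun i => if n i = 1 then (x i)⁻¹ else y i, ?_, ⟨?_, ?_, ?_⟩, ?_⟩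
  · intro i
    by_cases hi : n i = 1
    · simp only [hi, if_true]
      exact inv_ne_zero (hx i)
    · simp only [hi, if_false]
      exact hy i
  · have h3 : b v = π * ∏ i with E i = v, z i := by simp only [hb, if_true]
    rw [h3]
    exact Ideal.mul_mem_right _ _ h1
  · have h3 : b v = π * ∏ i with E i = v, z i := by simp only [hb, if_true]
    rw [h3, mul_comm]
    intro h4
    haveI := Q.isPrime
    rcases Ideal.IsPrime.mul_mem_pow Q.asIdeal h4 with h5 | h5
    · exact GoodB_notMem (hprod v) h5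
    · exact h2 h5
  · intro w hw
    have h3 : b w = ∏ i with E i = w, z i := by simp only [hb, if_neg hw, one_mul]
    rw [h3]
    refine ⟨GoodB_notMem (hprod w), 1, ?_⟩
    rw [one_pow]
    exact hprod w
  · intro i
    by_cases hi : n i = 1
    · have h3 : rad b i = 1 := by
        unfold rad
        apply Finset.prod_eq_one
        intro w _
        have h4 : (w i).val = 0 := by
          have h5 : (w i).val < n i := ZMod.val_lt (w i)
          omega
        rw [h4, pow_zero]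
      rw [h3]
      simp only [hi, if_true, pow_one]
      rw [mul_inv_cancel₀ (hx i)]
      simp
    · have h3 : rad b i = π ^ (v i).val * z i := by
        unfold rad
        simp only [hb, mul_pow]
        rw [Finset.prod_mul_distrib]
        congr 1
        · rw [Finset.prod_eq_single v]
          · rw [if_pos rfl]
          · intro w _ hw
            rw [if_neg hw, one_pow]
          · intro h; exact absurd (Finset.mem_univ v) h
        · have h4 : ∀ w : V n, (∏ j with E j = w, z j) ^ (w i).val =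
              ∏ j with E j = w, z j ^ (E j i).val := by
            intro w
            rw [← Finset.prod_pow]
            apply Finset.prod_congr rfl
            intro j hj
            rw [Finset.mem_filter] at hj
            rw [hj.2]
          rw [Finset.prod_congr rfl fun w _ => h4 w, Finset.prod_fiberwise]
          rw [Finset.prod_eq_single i]
          · rw [hEi i hi, pow_one]
          · intro j _ hj
            rw [hEj i j hj, pow_zero]
          · intro h; exact absurd (Finset.mem_univ i) h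
      rw [h3, hzy i]
      simp only [hi, if_false]

end StarkR
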