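import Pool.Agent.Lib.MP_d9bae3_nt.EX.GoodB
import Pool.Agent.Lib.MP_d9bae3_nt.SK.Kum
import Pool.Agent.Lib.MP_d9bae3_nt.SK.Dec
import Pool.Agent.Lib.MP_d9bae3_nt.SK.Ram
import Pool.Agent.Lib.MP_d9bae3_nt.SG.GDec
import Pool.Agent.Lib.MP_d9bae3_nt.SG.GRam

/-!
# Module EX-GoodL: inertia and decomposition at a prime with the local class `π^(v_i)`

`κ = f ∘ resLH`, a homomorphism `Gal(M/L) → V n`.
Plan.  `b, y` from `exists_bEv`; `α'_i = α_i y_i` satisfies `IsExt b M α'` (same field, `α'_i^(n_i) = rad b i`) and the same formula for `σ(α'_i)`.  So `σ (bet α' c) = ζ^(pr e c (κ σ)) bet α' c` (product over `i`; `pr e c v = ∑ c_i v_i e/n_i`).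
(1) `ev_ramified` (SK/Ram.lean) and `desc_ramified` (SG/GRam.lean).
(2) `desc_trivial` (SG/GDec.lean): for `σ ∈ Gal(M/L)` in the stabilizer of a prime `P` over `Q`, `dec_fix` (SK/Dec.lean) gives `σ (bet α' c) = bet α' c`, so `ζ^(pr e c (κ σ)) = 1`, `e ∣ pr e c (κ σ)`, and `χ (resLH σ) = 1` by the hypothesis on `c`.  (Compare the proof of `g_set` in
SG/GMain.lean.)
(3) If `e ∣ pr e c (κ σ)` for all `σ`, then `bet α' c` is fixed by `Gal(M/L)`, so it is in `L`, and `(bet α' c)^e = ∏_w b_w^(pr e c w)` (`bet_pow`, SK/Kum.lean); compare the multiplicities of `Q`: `e ∣ pr e c v` since `Q` divides `b_v` exactly once and no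
other `b_w` (compare `dvd_of_pow_eq` and `fix_zero` in SK/Surj.lean: the same argument with one prime `Q`).
-/

namespace StarkR

open NumberField IsDedekindDomain

variable {F L H M : Type} [Field F] [NumberField F] [Field L] [NumberField L] [Field H] [NumberField H]
variable [Field M] [NumberField M] [Algebra F L] [Algebra F H] [Algebra F M] [Algebra L M] [Algebra H M]
variable [IsScalarTower F L M] [IsScalarTower F H M]
variable {m : ℕ} {n : Fin m → ℕ} [∀ i, NeZero (n i)]

omit [∀ i, NeZero (n i)] in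
/-- the argument of `dvd_of_pow_eq` with one prime -/
private theorem GoodL_dvd {e : ℕ} (he : 0 < e) {b : V n → 𝓞 L} {v : V n} {q : Prm L} (hv : Ev e v b q) {y : 𝓞 L}
    {k : V n → ℕ} [Fintype (V n)] (hy : y ^ e = ∏ w : V n, b w ^ k w) : e ∣ k v := by
  classical
  obtain ⟨h1, h2, h3⟩ := hv
  have hb0 : ∀ w, b w ≠ 0 := by
    intro w h0
    by_cases hw : w = v
    · subst hw
      exact h2 (h0 ▸ Ideal.zero_mem _)
    · exact (h3 w hw).1 (h0 ▸ Ideal.zero_mem _)
  have hp : Prime q.asIdeal := q.prime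
  have hI : Ideal.span {y} ^ e = ∏ w : V n, Ideal.span {b w} ^ k w := by
    rw [Ideal.span_singleton_pow, hy, ← Ideal.prod_span_singleton]
    exact Finset.prod_congr rfl fun w _ => (Ideal.span_singleton_pow _ _).symm
  have hm := congrArg (emultiplicity q.asIdeal) hI
  rw [emultiplicity_pow hp, Finset.emultiplicity_prod hp] at hm
  have h0 : ∀ w ∈ (Finset.univ : Finset (V n)), w ≠ v →
      emultiplicity q.asIdeal (Ideal.span {b w} ^ k w) = 0 := by
    intro w _ hw
    rw [emultiplicity_pow hp, emultiplicity_eq_zero.2, mul_zero]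
    rw [Ideal.dvd_span_singleton]
    exact (h3 w hw).1
  rw [Finset.sum_eq_single v h0 (fun h => absurd (Finset.mem_univ v) h), emultiplicity_pow hp] at hm
  have hv1 : emultiplicity q.asIdeal (Ideal.span {b v}) = (1 : ℕ) := by
    rw [emultiplicity_eq_coe]
    refine ⟨?_, ?_⟩
    · rw [pow_one, Ideal.dvd_span_singleton]
      exact h1
    · rw [Ideal.dvd_span_singleton]
      exact h2
  rw [hv1, Nat.cast_one, mul_one] at hm
  have hfin : FiniteMultiplicity q.asIdeal (Ideal.span {y}) := by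
    have hy0 : y ≠ 0 := by
      rintro rfl
      rw [zero_pow he.ne'] at hy
      exact Finset.prod_ne_zero_iff.2 (fun w _ => pow_ne_zero _ (hb0 w)) hy.symm
    refine FiniteMultiplicity.of_prime_left hp ?_
    rw [Ne, Ideal.zero_eq_bot, Ideal.span_singleton_eq_bot]
    exact hy0
  obtain ⟨j, hj⟩ : ∃ j : ℕ, emultiplicity q.asIdeal (Ideal.span {y}) = j :=
    ⟨_, hfin.emultiplicity_eq_multiplicity⟩
  rw [hj] at hm
  exact ⟨j, by exact_mod_cast hm.symm⟩

theorem good_local [IsGalois F L] [IsGalois F H] {e : ℕ} {ζ : L} (hζ : IsPrimitiveRoot ζ e) (he : 0 < e) (hn : ∀ i, n i ∣ e)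
    {f : Gal(H/F) →* Multiplicative (V n)} {α : Fin m → M} {x : Fin m → L} (hx : ∀ i, x i ≠ 0)
    (hα : ∀ i, α i ^ n i = algebraMap L M (x i)) (hgen : IntermediateField.adjoin L (Set.range α) = ⊤)
    (hκ : ∀ (σ : Gal(M/L)) (i : Fin m), σ (α i) = algebraMap L M (ζ ^ ((e / n i) * ((f (resLH F L H M σ)).toAdd i).val)) * α i)
    (hc : IsCompositum L H M) {Q : Prm L} (hQ : GoodPrm F e Q) {π : 𝓞 L} (h1 : π ∈ Q.asIdeal) (h2 : π ∉ Q.asIdeal ^ 2)
    {v : V n} (hv : v ≠ 0) (hloc : ∀ i, LocEq (n i) Q (x i) ((π : L) ^ (v i).val)) :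
    Ramified H (Q.under (𝓞 F)) ∧
    (∀ (χ : Gal(H/F) →* ℂˣ) (c : V n), (∀ σ, χ σ = 1 ↔ e ∣ pr e c (f σ).toAdd) → e ∣ pr e c v → TrivialAt χ (Q.under (𝓞 F))) ∧
    ∀ c : V n, (∀ σ : Gal(M/L), e ∣ pr e c (f (resLH F L H M σ)).toAdd) → e ∣ pr e c v := by
  classical
  have hgal : IsGalois F M := comp_galois F L H M hc
  have hgalL : IsGalois L M := IsGalois.tower_top_of_isGalois F L M
  obtain ⟨b, y, hy, hev, hrad⟩ := exists_bEv (e := e) h1 h2 hx hloc
  set α' : Fin m → M := fun i => α i * algebraMap L M (y i) with hα'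
  have hext : IsExt b M α' := by
    refine ⟨fun i => ?_, ?_⟩
    · rw [hα']
      simp only
      rw [mul_pow, hα i, ← map_pow, ← map_mul, hrad i]
    · rw [eq_top_iff, ← hgen, IntermediateField.adjoin_le_iff]
      rintro _ ⟨i, rfl⟩
      have h3 : α i = α' i * algebraMap L M (y i)⁻¹ := by
        rw [hα']
        simp only
        rw [mul_assoc, ← map_mul, mul_inv_cancel₀ (hy i), map_one, mul_one]
      rw [SetLike.mem_coe, h3]
      exact mul_mem (IntermediateField.subset_adjoin L _ ⟨i, rfl⟩) (IntermediateField.algebraMap_mem _ _)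
  have hrad0 : ∀ i, rad b i ≠ 0 := by
    intro i h0
    have h3 := hrad i
    rw [h0] at h3
    exact mul_ne_zero (hx i) (pow_ne_zero _ (hy i)) (by rw [← h3]; simp)
  have hκ' : ∀ (σ : Gal(M/L)) (i : Fin m),
      σ (α' i) = algebraMap L M (ζ ^ ((e / n i) * ((f (resLH F L H M σ)).toAdd i).val)) * α' i := by
    intro σ i
    rw [hα']
    simp only
    rw [map_mul, hκ σ i, AlgEquiv.commutes, mul_assoc]
  have hbetσ : ∀ (σ : Gal(M/L)) (c : V n),
      σ (bet α' c) = algebraMap L M (ζ ^ pr e c (f (resLH F L H M σ)).toAdd) * bet α' c := by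
    intro σ c
    unfold bet pr
    rw [map_prod, ← Finset.prod_pow_eq_pow_sum, map_prod, ← Finset.prod_mul_distrib]
    refine Finset.prod_congr rfl fun i _ => ?_
    rw [map_pow, hκ' σ i, mul_pow, map_pow, map_pow, ← pow_mul]
    congr 2
    ring
  have hbet : ∀ c : V n, bet α' c ≠ 0 := by
    intro c
    unfold bet
    refine Finset.prod_ne_zero_iff.2 fun i _ => pow_ne_zero _ fun h0 => ?_
    have h4 := hext.pow i
    rw [h0, zero_pow (NeZero.ne (n i)), eq_comm, map_eq_zero] at h4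
    exact hrad0 i (RingOfIntegers.coe_eq_zero_iff.1 h4)
  refine ⟨desc_ramified hc (ev_ramified hext hv hev), ?_, ?_⟩
  · intro χ c hχ hcv
    refine desc_trivial (L := L) (M := M) hQ.2 χ ?_
    intro P hP hPQ σ hσ
    rw [hχ]
    have h3 := dec_fix hζ he hn hext hQ.1 hev hcv P hP hPQ σ hσ
    rw [hbetσ] at h3
    have h5 : algebraMap L M (ζ ^ pr e c (f (resLH F L H M σ)).toAdd) = 1 :=
      mul_right_cancel₀ (hbet c) (h3.trans (one_mul _).symm)
    rw [map_eq_one_iff _ (algebraMap L M).injective] at h5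
    exact (hζ.pow_eq_one_iff_dvd _).1 h5
  · intro c hcσ
    have hfix : ∀ σ : Gal(M/L), σ (bet α' c) = bet α' c := by
      intro σ
      rw [hbetσ, (hζ.pow_eq_one_iff_dvd _).2 (hcσ σ), map_one, one_mul]
    have h3 : bet α' c ∈ (⊥ : IntermediateField L M) := (IsGalois.mem_bot_iff_fixed (bet α' c)).2 hfix
    obtain ⟨z, hz⟩ := IntermediateField.mem_bot.1 h3
    have h4 : z ^ e = ((∏ w : V n, b w ^ pr e c w : 𝓞 L) : L) := by
      apply (algebraMap L M).injective
      rw [map_pow, hz, bet_pow hn hext c]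
    have h5 : IsIntegral ℤ z := by
      refine IsIntegral.of_pow he ?_
      rw [h4]
      exact RingOfIntegers.isIntegral_coe _
    obtain ⟨z', hz'⟩ : ∃ z' : 𝓞 L, (z' : L) = z := ⟨⟨z, h5⟩, rfl⟩
    have h6 : z' ^ e = ∏ w : V n, b w ^ pr e c w := by
      apply RingOfIntegers.coe_injective
      rw [map_pow]
      exact (congrArg (· ^ e) hz').trans h4
    exact GoodL_dvd he hev h6

end StarkR
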