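import Pool.Agent.Lib.MP_d9bae3_nt.EX.RadE
import Pool.Agent.Lib.MP_d9bae3_nt.EX.Lift
import Pool.Agent.Lib.MP_d9bae3_nt.EX.GoodL
import Pool.Agent.Lib.MP_d9bae3_nt.SK.Chr

/-!
# Module EX-GoodF: homomorphisms with many good primes
-/

namespace StarkR

open NumberField IsDedekindDomain

variable {F : Type} [Field F] [NumberField F] {L : IntermediateField F (AlgebraicClosure F)} [NumberField L]
variable {m : ℕ} {n : Fin m → ℕ} [∀ i, NeZero (n i)]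

/-- for every `v ≠ 0` there are at least `k` good primes at which the radicals of `φ` have the local class `π^(v_i)`, `π` a uniformiser -/
def GoodHom (e k : ℕ) (ζ : L) (φ : Gal(AlgebraicClosure F/F) →* Multiplicative (V n)) : Prop :=
  ∀ v : V n, v ≠ 0 → ∃ A : Finset (Prm L), k ≤ A.card ∧ Set.InjOn (fun Q : Prm L => Q.under (𝓞 F)) (A : Set (Prm L)) ∧
    ∀ Q ∈ A, GoodPrm F e Q ∧ ∃ π : 𝓞 L, π ∈ Q.asIdeal ∧ π ∉ Q.asIdeal ^ 2 ∧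
      ∀ x : Fin m → L, RadOf e ζ φ x → ∀ i, LocEq (n i) Q (x i) ((π : L) ^ (v i).val)

theorem good_fine [IsGalois F L] {e : ℕ} (he : 0 < e) {ζ : L} (hζ : IsPrimitiveRoot ζ e) (hn : ∀ i, n i ∣ e) {k : ℕ} (hk : 0 < k)
    {φ : Gal(AlgebraicClosure F/F) →* Multiplicative (V n)} (hφ : Cts φ) (hg : GoodHom e k ζ φ) [NumberField (fld φ)]
    [IsGalois F (fld φ)] : Function.Surjective φ ∧
    ∀ χ : Gal(fld φ/F) →* ℂˣ, χ.ker ≠ ⊥ → ∃ A : Finset (Prm F), k ≤ A.card ∧ ∀ q ∈ A, Ramified (fld φ) q ∧ TrivialAt χ q := by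
  classical
  obtain ⟨f, hf, hfφ⟩ := fld_hom hφ
  obtain ⟨x, hx⟩ := rad_exists he hζ hn hφ
  obtain ⟨M, i1, i2, i3, i4, i5, i6, i7, α, hc, hα, hgen, hκ⟩ := lift_M he hζ hn hφ hf hfφ hx
  have key : ∀ v : V n, v ≠ 0 → ∃ A : Finset (Prm L), k ≤ A.card ∧ Set.InjOn (fun Q : Prm L => Q.under (𝓞 F)) (A : Set (Prm L)) ∧
      ∀ Q ∈ A, Ramified (fld φ) (Q.under (𝓞 F)) ∧
        (∀ (χ : Gal(fld φ/F) →* ℂˣ) (c : V n), (∀ σ, χ σ = 1 ↔ e ∣ pr e c (f σ).toAdd) → e ∣ pr e c v →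
          TrivialAt χ (Q.under (𝓞 F))) ∧
        ∀ c : V n, (∀ σ : Gal(M/L), e ∣ pr e c (f (resLH F L (fld φ) M σ)).toAdd) → e ∣ pr e c v := by
    intro v hv
    obtain ⟨A, h1, h2, h3⟩ := hg v hv
    refine ⟨A, h1, h2, fun Q hQ => ?_⟩
    obtain ⟨h4, π, h5, h6, h7⟩ := h3 Q hQ
    exact good_local hζ he hn hx.1 hα hgen hκ hc h4 h5 h6 hv (h7 x hx)
  have hsurj : Function.Surjective f := by
    refine chr_surj f he hn fun c hcc => pr_zero_of he hn c fun v hv => ?_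
    obtain ⟨A, h1, -, h3⟩ := key v hv
    obtain ⟨Q, hQ⟩ := Finset.card_pos.1 (lt_of_lt_of_le hk h1)
    exact (h3 Q hQ).2.2 c fun σ => hcc _
  refine ⟨fun a => ?_, fun χ hχ => ?_⟩
  · obtain ⟨σ, hσ⟩ := hsurj a
    obtain ⟨g, hg'⟩ := AlgEquiv.restrictNormalHom_surjective (F := F) (K₁ := fld φ) (AlgebraicClosure F) σ
    exact ⟨g, by rw [← hfφ, hg', hσ]⟩
  · obtain ⟨c, v, hv0, hcv, hcc⟩ := chr_ker f hf he hn χ hχ
    obtain ⟨A, h1, h2, h3⟩ := key v hv0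
    refine ⟨A.image fun Q : Prm L => Q.under (𝓞 F), ?_, fun q hq => ?_⟩
    · rw [Finset.card_image_of_injOn h2]
      exact h1
    · obtain ⟨Q, hQ, rfl⟩ := Finset.mem_image.1 hq
      exact ⟨(h3 Q hQ).1, (h3 Q hQ).2.1 χ c hcc hcv⟩

end StarkR
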