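import Pool.Agent.Lib.MP_d9bae3_nt.EX.Dens
import Pool.Agent.Lib.MP_d9bae3_nt.EX.Cnt

/-!
# Module EX-Main: the density among all abelian extensions of a number field with a given group
-/

namespace StarkR

open NumberField IsDedekindDomain Filter Topology

/-- the field of the `e`-th roots of unity -/
theorem exists_cyc (F : Type) [Field F] [NumberField F] {e : ℕ} (he : 0 < e) :
    ∃ (L : IntermediateField F (AlgebraicClosure F)) (_ : NumberField L) (_ : IsGalois F L) (_ : IsCyclotomicExtension {e} F L)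
      (ζ : L) (t : Gal(L/F) → ℕ), IsPrimitiveRoot ζ e ∧ IsInvCyc e ζ t := by
  have : NeZero e := ⟨he.ne'⟩
  obtain ⟨z, hz⟩ := HasEnoughRootsOfUnity.exists_primitiveRoot (AlgebraicClosure F) e
  have h1 : IsCyclotomicExtension {e} F (IntermediateField.adjoin F {z}) :=
    hz.intermediateField_adjoin_isCyclotomicExtension F
  have h2 : NumberField (IntermediateField.adjoin F {z}) := IsCyclotomicExtension.numberField {e} F _
  have h3 : IsGalois F (IntermediateField.adjoin F {z}) := IsCyclotomicExtension.isGalois {e} F _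
  let ζ : IntermediateField.adjoin F {z} := ⟨z, IntermediateField.mem_adjoin_simple_self F z⟩
  have hζ : IsPrimitiveRoot ζ e := by
    refine IsPrimitiveRoot.of_map_of_injective (f := (IntermediateField.adjoin F {z}).val) ?_ (IntermediateField.adjoin F {z}).val.injective
    exact hz
  have h4 : ∀ τ : Gal(IntermediateField.adjoin F {z}/F), ∃ t : ℕ, t < e ∧ τ ζ ^ t = ζ := by
    intro τ
    have h5 : IsPrimitiveRoot (τ ζ) e := hζ.map_of_injective τ.injective
    obtain ⟨i, hi, h6⟩ := h5.eq_pow_of_pow_eq_one hζ.pow_eq_one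
    exact ⟨i, hi, h6⟩
  choose t ht using h4
  exact ⟨_, h2, h3, h1, ζ, t, hζ, ht⟩

variable {F : Type} [Field F] [NumberField F] {m : ℕ} {n : Fin m → ℕ} [∀ i, NeZero (n i)]

/-- the trivial homomorphism -/
private theorem one_mem (S : Finset (Prm F)) : (HomS n S).Nonempty := by
  obtain ⟨G, hG⟩ := homS_group n S
  exact ⟨1, (hG 1).1 G.one_mem⟩

/-- the real numbers -/
private theorem real_aux {c a b h bad δ ε : ℝ} (hc : 0 < c) (hh : 0 < h) (hδ : δ < 1) (hε : δ < ε) (h1 : bad ≤ δ * h)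
    (h2 : h - bad ≤ c * a) (h3 : a ≤ b) (h4 : c * b ≤ h) : dist (a / b) 1 < ε := by
  have h5 : (1 - δ) * h ≤ c * a := by linarith
  have h6 : 0 < c * a := lt_of_lt_of_le (mul_pos (by linarith) hh) h5
  have ha : 0 < a := by
    by_contra h
    exact absurd h6 (not_lt.2 (mul_nonpos_of_nonneg_of_nonpos hc.le (not_lt.1 h)))
  have hb : 0 < b := lt_of_lt_of_le ha h3
  have h7 : a / b ≤ 1 := (div_le_one hb).2 h3
  have h8 : 1 - δ ≤ a / b := by
    rw [le_div_iff₀ hb]
    have h9 : (1 - δ) * (c * b) ≤ c * a := (mul_le_mul_of_nonneg_left h4 (by linarith)).trans h5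
    nlinarith
  rw [Real.dist_eq, abs_lt]
  constructor <;> linarith

theorem ratio_main (n : Fin m → ℕ) [∀ i, NeZero (n i)] {k : ℕ} (hk : 0 < k) (P : IntermediateField F (AlgebraicClosure F) → Prop)
    (hP : ∀ (H : IntermediateField F (AlgebraicClosure F)) (_ : NumberField H) (_ : IsGalois F H),
      Nonempty (Gal(H/F) ≃* Multiplicative (V n)) →
      (∀ χ : Gal(H/F) →* ℂˣ, χ.ker ≠ ⊥ → ∃ A : Finset (Prm F), k ≤ A.card ∧ ∀ q ∈ A, Ramified H q ∧ TrivialAt χ q) → P H) :
    (∀ S : Finset (Prm F), (ExtS F n S).Finite) ∧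
    Tendsto (fun S : Finset (Prm F) => (Set.ncard {H | H ∈ ExtS F n S ∧ P H} : ℝ) / ((ExtS F n S).ncard : ℝ)) atTop (𝓝 1) := by
  have hn0 : ∀ i, 0 < n i := fun i => Nat.pos_of_ne_zero (NeZero.ne (n i))
  obtain ⟨e, he, hn⟩ : ∃ e : ℕ, 0 < e ∧ ∀ i, n i ∣ e :=
    ⟨∏ i, n i, Finset.prod_pos fun i _ => hn0 i, fun i => Finset.dvd_prod_of_mem n (Finset.mem_univ i)⟩
  obtain ⟨L, i1, i2, i3, ζ, t, hζ, ht⟩ := exists_cyc F he
  have hfin : ∀ S : Finset (Prm F), (HomS n S).Finite := fun S => homS_finite he hζ hn S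
  refine ⟨fun S => extS_finite (hfin S), ?_⟩
  have hgood : ∀ {S : Finset (Prm F)} (φ : Gal(AlgebraicClosure F/F) →* Multiplicative (V n)), φ ∈ HomS n S → GoodHom e k ζ φ →
      Function.Surjective φ ∧ P (fld φ) := by
    intro S φ hφ hg
    have i4 : NumberField (fld φ) := fld_nf hφ.1
    have i5 : IsGalois F (fld φ) := (fld_gal hφ.1).2
    obtain ⟨h1, h2⟩ := good_fine he hζ hn hk hφ.1 hg
    refine ⟨h1, hP (fld φ) i4 i5 ?_ h2⟩
    obtain ⟨f, hf, hfφ⟩ := fld_hom hφ.1
    refine ⟨MulEquiv.ofBijective f ⟨hf, fun a => ?_⟩⟩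
    obtain ⟨g, hg⟩ := h1 a
    exact ⟨AlgEquiv.restrictNormalHom (fld φ) g, by rw [hfφ, hg]⟩
  have hc0 : 0 < Nat.card (Multiplicative (V n) ≃* Multiplicative (V n)) := by
    have : Finite (Multiplicative (V n) ≃* Multiplicative (V n)) :=
      Finite.of_injective (fun f : Multiplicative (V n) ≃* Multiplicative (V n) => (f : Multiplicative (V n) → Multiplicative (V n)))
        fun f g h => DFunLike.coe_injective h
    have : Nonempty (Multiplicative (V n) ≃* Multiplicative (V n)) := ⟨MulEquiv.refl _⟩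
    exact Nat.card_pos
  rw [Metric.tendsto_nhds]
  intro ε hε
  obtain ⟨δ, hδ0, hδ1, hδ2⟩ : ∃ δ : ℝ, 0 < δ ∧ δ < 1 ∧ δ < ε :=
    ⟨min (ε / 2) (1 / 2), by positivity, lt_of_le_of_lt (min_le_right _ _) (by norm_num),
      lt_of_le_of_lt (min_le_left _ _) (by linarith)⟩
  obtain ⟨S0, hS0⟩ := dens_good (n := n) he hζ ht hn k hδ0
  filter_upwards [eventually_ge_atTop S0] with S hS
  have hbad := hS0 S hS
  have hH := hfin S
  have hE := extS_finite hH
  have h1 : Set.ncard {H | H ∈ ExtS F n S ∧ P H} ≤ (ExtS F n S).ncard := Set.ncard_le_ncard (fun H h => h.1) hE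
  have h2 : Nat.card (Multiplicative (V n) ≃* Multiplicative (V n)) * (ExtS F n S).ncard ≤ (HomS n S).ncard := by
    have h3 := ext_count hH (fun _ => True)
    have h4 : {H | H ∈ ExtS F n S ∧ True} = ExtS F n S := by
      ext H
      exact and_iff_left trivial
    rw [h4] at h3
    rw [← h3]
    exact Set.ncard_le_ncard (fun φ h => h.1) hH
  have h3 : (HomS n S).ncard ≤ Nat.card (Multiplicative (V n) ≃* Multiplicative (V n)) * Set.ncard {H | H ∈ ExtS F n S ∧ P H} +
      Set.ncard {φ : Gal(AlgebraicClosure F/F) →* Multiplicative (V n) | φ ∈ HomS n S ∧ ¬ GoodHom e k ζ φ} := by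
    rw [← ext_count hH P]
    refine (Set.ncard_le_ncard ?_ ?_).trans (Set.ncard_union_le _ _)
    · intro φ hφ
      by_cases hg : GoodHom e k ζ φ
      · exact Or.inl ⟨hφ, hgood φ hφ hg⟩
      · exact Or.inr ⟨hφ, hg⟩
    · exact (hH.subset fun φ h => h.1).union (hH.subset fun φ h => h.1)
  have h4 : 0 < (HomS n S).ncard := (Set.ncard_pos hH).2 (one_mem S)
  refine real_aux (c := (Nat.card (Multiplicative (V n) ≃* Multiplicative (V n)) : ℝ)) (h := ((HomS n S).ncard : ℝ))
    (bad := (Set.ncard {φ : Gal(AlgebraicClosure F/F) →* Multiplicative (V n) | φ ∈ HomS n S ∧ ¬ GoodHom e k ζ φ} : ℝ)) (δ := δ)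
    (by exact_mod_cast hc0) (by exact_mod_cast h4) hδ1 hδ2 hbad ?_ (by exact_mod_cast h1) (by exact_mod_cast h2)
  have h5 : ((HomS n S).ncard : ℝ) ≤ (Nat.card (Multiplicative (V n) ≃* Multiplicative (V n)) : ℝ) *
      (Set.ncard {H | H ∈ ExtS F n S ∧ P H} : ℝ) +
      (Set.ncard {φ : Gal(AlgebraicClosure F/F) →* Multiplicative (V n) | φ ∈ HomS n S ∧ ¬ GoodHom e k ζ φ} : ℝ) := by
    exact_mod_cast h3
  linarith

end StarkR
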