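import Pool.Agent.Lib.MP_d9bae3_nt.EX.Base

/-!
# Module EX-Psi: the transfer of a Kummer character

Let `Γ = Gal(Ω/F)`, `U = L.fixingSubgroup`, a normal subgroup of finite index (`Γ / U = Gal(L/F)`).  Choose `β ∈ Ω` with `β^e = b` and lifts `s_τ ∈ Γ` of the `τ ∈ Gal(L/F)`; `β_τ = s_τ β`,
`z_τ = τ(ζ)`.  For `g ∈ Γ` with image `σ` in `Gal(L/F)`: `g β_τ = z_(στ)^(κ(g,τ)) β_(στ)` with a unique `κ(g,τ) ∈ ℤ/e`, and `κ(g g',τ) = κ(g',τ) + κ(g,σ'τ)`.  So `ψ g = ∑_τ κ(g,τ)` is a homomorphism
(the transfer of the Kummer character).  `α = ∏_τ β_τ^(t_τ)` satisfies `α^e = ∏_τ τ(b)^(t_τ) = Φ(b)` and for `g ∈ U`: `g α = ∏ (z_τ^(t_τ))^(κ(g,τ)) α = ζ^(ψ g) α`.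
`Cts ψ`: the normal closure of the field generated by `L` and the `β_τ`.
-/

namespace StarkR

open NumberField IsDedekindDomain

variable {F : Type} [Field F] [NumberField F] {L : IntermediateField F (AlgebraicClosure F)} [NumberField L]

private theorem psi_pow_add {M : Type} [CommMonoid M] {e : ℕ} [NeZero e] {z : M} (hz : z ^ e = 1) (a b : ZMod e) :
    z ^ (a + b).val = z ^ a.val * z ^ b.val := by
  rw [ZMod.val_add, ← pow_add]
  exact (pow_eq_pow_mod _ hz).symm

private theorem psi_pow_sum {M : Type} [CommMonoid M] {e : ℕ} [NeZero e] {z : M} (hz : z ^ e = 1) {ι : Type}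
    (s : Finset ι) (k : ι → ZMod e) : z ^ (∑ i ∈ s, k i).val = ∏ i ∈ s, z ^ (k i).val := by
  classical
  induction s using Finset.induction_on with
  | empty => simp
  | insert i s hi ih => rw [Finset.sum_insert hi, Finset.prod_insert hi, psi_pow_add hz, ih]

theorem exists_psi [IsGalois F L] {e : ℕ} [NeZero e] {ζ : L} (hζ : IsPrimitiveRoot ζ e) {t : Gal(L/F) → ℕ} (ht : IsInvCyc e ζ t)
    {b : 𝓞 L} (hb : b ≠ 0) :
    ∃ (ψ : Gal(AlgebraicClosure F/F) →* Multiplicative (ZMod e)) (α : AlgebraicClosure F), Cts ψ ∧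
      α ^ e = (((twist t b : 𝓞 L) : L) : AlgebraicClosure F) ∧
      ∀ g ∈ L.fixingSubgroup, g α = (ζ : AlgebraicClosure F) ^ ((ψ g).toAdd).val * α := by
  classical
  have he : 0 < e := Nat.pos_of_ne_zero (NeZero.ne e)
  -- restriction to `L`
  let R : Gal(AlgebraicClosure F/F) →* Gal(L/F) := AlgEquiv.restrictNormalHom L
  have hR : ∀ (g : Gal(AlgebraicClosure F/F)) (x : L), ((R g x : L) : AlgebraicClosure F) = g (x : AlgebraicClosure F) :=
    fun g x => AlgEquiv.restrictNormal_commutes g L x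
  have hsurj : ∀ τ : Gal(L/F), ∃ g : Gal(AlgebraicClosure F/F), R g = τ := fun τ =>
    AlgEquiv.restrictNormalHom_surjective (AlgebraicClosure F) τ
  choose s hs using hsurj
  obtain ⟨β, hβ⟩ := IsAlgClosed.exists_pow_nat_eq (((b : L) : AlgebraicClosure F)) he
  have hbL : ((b : L) : AlgebraicClosure F) ≠ 0 := by
    intro h
    apply hb
    have h1 : (b : L) = 0 := by exact_mod_cast h
    exact_mod_cast h1
  have hβ0 : β ≠ 0 := by
    rintro rfl
    rw [zero_pow he.ne'] at hβ
    exact hbL hβ.symm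
  -- the roots of the conjugates
  let B : Gal(L/F) → AlgebraicClosure F := fun τ => s τ β
  have hB : ∀ τ : Gal(L/F), B τ ^ e = ((τ (b : L) : L) : AlgebraicClosure F) := by
    intro τ
    show (s τ β) ^ e = _
    rw [← map_pow, hβ, ← hR, hs]
  have hB0 : ∀ τ, B τ ≠ 0 := fun τ => (map_ne_zero (s τ)).2 hβ0
  let z : Gal(L/F) → AlgebraicClosure F := fun τ => ((τ ζ : L) : AlgebraicClosure F)
  have hz : ∀ τ, IsPrimitiveRoot (z τ) e := by
    intro τ
    have h1 : IsPrimitiveRoot (τ ζ) e := hζ.map_of_injective τ.injective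
    exact h1.map_of_injective (f := algebraMap L (AlgebraicClosure F)) (algebraMap L (AlgebraicClosure F)).injective
  have hze : ∀ τ, z τ ^ e = 1 := fun τ => (hz τ).pow_eq_one
  have hgz : ∀ (g : Gal(AlgebraicClosure F/F)) (τ : Gal(L/F)), g (z τ) = z (R g * τ) := by
    intro g τ
    show g ((τ ζ : L) : AlgebraicClosure F) = (((R g * τ) ζ : L) : AlgebraicClosure F)
    rw [← hR]
    rfl
  have hex : ∀ (g : Gal(AlgebraicClosure F/F)) (τ : Gal(L/F)), ∃ k : ZMod e,
      g (B τ) = z (R g * τ) ^ k.val * B (R g * τ) := by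
    intro g τ
    have h1 : (g (B τ) / B (R g * τ)) ^ e = 1 := by
      rw [div_pow, ← map_pow, hB, hB, ← hR, div_eq_one_iff_eq]
      · rfl
      · rw [← hB]
        exact pow_ne_zero _ (hB0 _)
    obtain ⟨i, hi, hi2⟩ := (hz (R g * τ)).eq_pow_of_pow_eq_one h1
    refine ⟨(i : ZMod e), ?_⟩
    rw [ZMod.val_natCast_of_lt hi, hi2, div_mul_cancel₀ _ (hB0 _)]
  choose κ hκ using hex
  have huniq : ∀ (τ : Gal(L/F)) (k l : ZMod e), z τ ^ k.val * B τ = z τ ^ l.val * B τ → k = l := by
    intro τ k l h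
    have h1 := mul_right_cancel₀ (hB0 τ) h
    exact ZMod.val_injective e ((hz τ).pow_inj (ZMod.val_lt k) (ZMod.val_lt l) h1)
  have hcoc : ∀ (g g' : Gal(AlgebraicClosure F/F)) (τ : Gal(L/F)), κ (g * g') τ = κ g' τ + κ g (R g' * τ) := by
    intro g g' τ
    apply huniq (R (g * g') * τ)
    rw [← hκ (g * g') τ, psi_pow_add (hze _), AlgEquiv.mul_apply, hκ g' τ, map_mul, map_pow, hgz, hκ g (R g' * τ),
      map_mul R, mul_assoc (R g), mul_assoc]
  let ψ : Gal(AlgebraicClosure F/F) →* Multiplicative (ZMod e) :=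
    MonoidHom.mk' (fun g => Multiplicative.ofAdd (∑ τ : Gal(L/F), κ g τ)) (by
      intro g g'
      rw [← ofAdd_add]
      congr 1
      rw [Finset.sum_congr rfl fun τ _ => hcoc g g' τ, Finset.sum_add_distrib, add_comm]
      congr 1
      exact Equiv.sum_comp (Equiv.mulLeft (R g')) (fun τ => κ g τ))
  have hψ : ∀ g, (ψ g).toAdd = ∑ τ : Gal(L/F), κ g τ := fun g => rfl
  refine ⟨ψ, ∏ τ : Gal(L/F), B τ ^ t τ, ?_, ?_, ?_⟩
  · -- the kernel is open
    have : FiniteDimensional F L := Module.Finite.of_restrictScalars_finite ℚ F L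
    let E0 : IntermediateField F (AlgebraicClosure F) := IntermediateField.adjoin F (Set.range B)
    have f0 : FiniteDimensional F E0 := by
      have hfin : (Set.range B).Finite := Set.finite_range B
      have : Finite (Set.range B) := hfin
      exact IntermediateField.finiteDimensional_adjoin fun x _ => Algebra.IsIntegral.isIntegral x
    let E : IntermediateField F (AlgebraicClosure F) := L ⊔ E0
    have f1 : FiniteDimensional F E := IntermediateField.finiteDimensional_sup L E0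
    refine ⟨IntermediateField.normalClosure F E (AlgebraicClosure F), inferInstance, inferInstance, ?_⟩
    intro g hg
    rw [IntermediateField.mem_fixingSubgroup_iff] at hg
    have hgE : ∀ x ∈ E, g x = x := fun x hx => hg x (IntermediateField.le_normalClosure E hx)
    have hgL : R g = 1 := by
      apply AlgEquiv.ext
      intro x
      apply Subtype.ext
      rw [hR]
      exact hgE _ ((le_sup_left : L ≤ E) x.2)
    have h0 : ∀ τ, κ g τ = 0 := by
      intro τ
      have h1 := hκ g τ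
      rw [hgL, one_mul] at h1
      apply huniq τ
      rw [← h1, ZMod.val_zero, pow_zero, one_mul]
      exact hgE _ ((le_sup_right : E0 ≤ E) (IntermediateField.subset_adjoin F _ ⟨τ, rfl⟩))
    show Multiplicative.ofAdd (∑ τ : Gal(L/F), κ g τ) = 1
    rw [Finset.sum_eq_zero fun τ _ => h0 τ]
    rfl
  · -- the `e`-th power
    have hsm : ∀ (τ : Gal(L/F)) (w : 𝓞 L), ((τ • w : 𝓞 L) : L) = τ (w : L) := by
      intro τ w
      exact algebraMap.smul' τ w L
    unfold twist
    have h1 : (((∏ τ : Gal(L/F), (τ • b) ^ t τ : 𝓞 L)) : L) =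
        ∏ τ : Gal(L/F), (((τ • b : 𝓞 L) : L)) ^ t τ := by
      refine (map_prod (algebraMap (𝓞 L) L) (fun τ : Gal(L/F) => (τ • b) ^ t τ) _).trans ?_
      exact Finset.prod_congr rfl fun τ _ => map_pow (algebraMap (𝓞 L) L) _ _
    have h2 : ((∏ τ : Gal(L/F), (((τ • b : 𝓞 L) : L)) ^ t τ : L) : AlgebraicClosure F) =
        ∏ τ : Gal(L/F), ((τ (b : L) : L) : AlgebraicClosure F) ^ t τ := by
      refine (map_prod (algebraMap L (AlgebraicClosure F)) (fun τ : Gal(L/F) => (((τ • b : 𝓞 L) : L)) ^ t τ) _).trans ?_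
      refine Finset.prod_congr rfl fun τ _ => ?_
      rw [map_pow, hsm]
      rfl
    rw [h1, h2, ← Finset.prod_pow]
    refine Finset.prod_congr rfl fun τ _ => ?_
    rw [← pow_mul, mul_comm, pow_mul, hB]
  · intro g hg
    rw [IntermediateField.mem_fixingSubgroup_iff] at hg
    have hgL : R g = 1 := by
      apply AlgEquiv.ext
      intro x
      apply Subtype.ext
      rw [hR]
      exact hg _ x.2
    have hζe : (ζ : AlgebraicClosure F) ^ e = 1 := by
      have := hζ.pow_eq_one
      exact_mod_cast congrArg (fun x : L => (x : AlgebraicClosure F)) this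
    rw [hψ, psi_pow_sum hζe, map_prod, ← Finset.prod_mul_distrib]
    refine Finset.prod_congr rfl fun τ _ => ?_
    have h1 := hκ g τ
    rw [hgL, one_mul] at h1
    have h2 : z τ ^ t τ = (ζ : AlgebraicClosure F) := by
      have h3 := congrArg (algebraMap L (AlgebraicClosure F)) (ht τ).2
      rw [map_pow] at h3
      exact h3
    rw [map_pow, h1, mul_pow, ← pow_mul, mul_comm (κ g τ).val, pow_mul, h2]

end StarkR
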