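import Pool.Agent.Lib.MP_d9bae3_nt.EX.Base
import Pool.Agent.Lib.MP_d9bae3_nt.SG.CHil

/-!
# Module EX-RadE: existence of Kummer radicals
-/

namespace StarkR

open NumberField IsDedekindDomain

private theorem RadE_add {K : Type} [Field K] {e k : ℕ} [NeZero k] {ζ : K} (hζ : ζ ^ e = 1)
    (hk : k ∣ e) (a b : ZMod k) :
    ζ ^ ((e / k) * (a + b).val) = ζ ^ ((e / k) * a.val) * ζ ^ ((e / k) * b.val) := by
  have h1 : (ζ ^ (e / k)) ^ k = 1 := by rw [← pow_mul, Nat.div_mul_cancel hk, hζ]
  rw [ZMod.val_add, pow_mul, pow_mul, pow_mul, ← pow_add, pow_eq_pow_mod (a.val + b.val) h1]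

private theorem RadE_hilb {K E : Type} [Field K] [Field E] [Algebra K E] [FiniteDimensional K E]
    {e k : ℕ} [NeZero k] {ζ : K} (he : 0 < e) (hζ : IsPrimitiveRoot ζ e)
    (hk : k ∣ e) (φ : Gal(E/K) → ZMod k) (hφ : ∀ σ τ, φ (σ * τ) = φ σ + φ τ) :
    ∃ x : E, x ≠ 0 ∧ ∀ σ : Gal(E/K), σ x = algebraMap K E (ζ ^ ((e / k) * (φ σ).val)) * x := by
  have hζ0 : ζ ≠ 0 := hζ.ne_zero he.ne'
  have hne : ∀ σ : Gal(E/K), algebraMap K E (ζ ^ ((e / k) * (φ σ).val)) ≠ 0 := fun σ =>
    (map_ne_zero _).2 (pow_ne_zero _ hζ0)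
  let f : Gal(E/K) → Eˣ := fun σ => Units.mk0 _ (hne σ)
  have hf : groupCohomology.IsMulCocycle₁ f := by
    intro g h
    apply Units.ext
    have h1 : ((g • f h : Eˣ) : E) = g (f h : E) := rfl
    rw [Units.val_mul, h1]
    simp only [f, Units.val_mk0]
    rw [AlgEquiv.commutes, hφ, RadE_add hζ.pow_eq_one hk, map_mul, mul_comm]
  obtain ⟨x, hx⟩ := groupCohomology.isMulCoboundary₁_of_isMulCocycle₁_of_aut_to_units f hf
  refine ⟨x, x.ne_zero, fun σ => ?_⟩
  have h2 := hx σ
  rw [div_eq_iff_eq_mul] at h2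
  have h3 := congrArg Units.val h2
  rw [Units.val_mul] at h3
  exact h3

variable {F : Type} [Field F] [NumberField F] {L : IntermediateField F (AlgebraicClosure F)} [NumberField L]
variable {m : ℕ} {n : Fin m → ℕ} [∀ i, NeZero (n i)]

theorem rad_exists [IsGalois F L] {e : ℕ} (he : 0 < e) {ζ : L} (hζ : IsPrimitiveRoot ζ e) (hn : ∀ i, n i ∣ e)
    {φ : Gal(AlgebraicClosure F/F) →* Multiplicative (V n)} (hφ : Cts φ) : ∃ x : Fin m → L, RadOf e ζ φ x := by
  obtain ⟨N, hN1, hN2, hN3⟩ := hφ
  have : FiniteDimensional F L := inferInstance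
  have : FiniteDimensional F (N ⊔ L : IntermediateField F (AlgebraicClosure F)) :=
    IntermediateField.finiteDimensional_sup N L
  have : Normal F (N ⊔ L : IntermediateField F (AlgebraicClosure F)) :=
    IntermediateField.normal_sup F (AlgebraicClosure F) N L
  have hLN : L ≤ N ⊔ L := le_sup_right
  let M : IntermediateField L (AlgebraicClosure F) := IntermediateField.extendScalars hLN
  have hMF : M.restrictScalars F = N ⊔ L := IntermediateField.extendScalars_restrictScalars hLN
  have hnF : Normal F M := by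
    have : Normal F (M.restrictScalars F) := by rw [hMF]; infer_instance
    exact this
  have hfF : FiniteDimensional F M := by
    have : FiniteDimensional F (M.restrictScalars F) := by rw [hMF]; infer_instance
    exact this
  have hnL : Normal L M := Normal.tower_top_of_normal F L M
  have hfL : FiniteDimensional L M := FiniteDimensional.right F L M
  have : IsGalois L M := ⟨⟩
  -- the homomorphism on `Gal(Ω/L)`
  let ψ : Gal(AlgebraicClosure F/L) →* Multiplicative (V n) :=
    { toFun := fun h => φ (h.restrictScalars F)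
      map_one' := by
        have : (1 : Gal(AlgebraicClosure F/L)).restrictScalars F = 1 := rfl
        rw [this, map_one]
      map_mul' := fun h h' => by
        have : (h * h').restrictScalars F = h.restrictScalars F * h'.restrictScalars F := rfl
        rw [this, map_mul] }
  let ρ : Gal(AlgebraicClosure F/L) →* Gal(M/L) := AlgEquiv.restrictNormalHom M
  have hρ : Function.Surjective ρ := AlgEquiv.restrictNormalHom_surjective (AlgebraicClosure F)
  have hρc : ∀ (h : Gal(AlgebraicClosure F/L)) (x : M), ((ρ h x : M) : AlgebraicClosure F) = h x :=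
    fun h x => AlgEquiv.restrictNormal_commutes h M x
  have hker : ρ.ker ≤ ψ.ker := by
    intro h hh
    rw [MonoidHom.mem_ker] at hh ⊢
    refine hN3 _ ?_
    rw [IntermediateField.mem_fixingSubgroup_iff]
    intro x hx
    have hxM : x ∈ M := (le_sup_left : N ≤ N ⊔ L) hx
    have h1 := hρc h ⟨x, hxM⟩
    rw [hh] at h1
    exact h1.symm
  let κ : Gal(M/L) →* Multiplicative (V n) := ρ.liftOfSurjective hρ ⟨ψ, hker⟩
  have hκ : ∀ h, κ (ρ h) = ψ h := fun h =>
    MonoidHom.liftOfRightInverse_comp_apply ρ _ (Function.rightInverse_surjInv hρ) ⟨ψ, hker⟩ h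
  have hex : ∀ i : Fin m, ∃ x : M, x ≠ 0 ∧ ∀ σ : Gal(M/L),
      σ x = algebraMap L M (ζ ^ ((e / n i) * ((κ σ).toAdd i).val)) * x := fun i =>
    RadE_hilb he hζ (hn i) (fun σ => (κ σ).toAdd i) fun σ τ => by rw [map_mul]; rfl
  choose α hα0 hα using hex
  have hfix : ∀ i, ∃ y : L, algebraMap L M y = α i ^ n i := by
    intro i
    rw [← Set.mem_range, IsGalois.mem_range_algebraMap_iff_fixed]
    intro σ
    rw [map_pow, hα, mul_pow, ← map_pow, ← pow_mul]
    have : e / n i * ((κ σ).toAdd i).val * n i = e * ((κ σ).toAdd i).val := by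
      rw [mul_right_comm, Nat.div_mul_cancel (hn i)]
    rw [this, pow_mul, hζ.pow_eq_one, one_pow, map_one, one_mul]
  choose y hy using hfix
  refine ⟨y, fun i h0 => ?_, fun i => (α i : AlgebraicClosure F), fun i => ?_, fun g hg i => ?_⟩
  · have h1 := hy i
    rw [h0, map_zero] at h1
    exact hα0 i (pow_eq_zero_iff (NeZero.ne _) |>.1 h1.symm)
  · have h1 : ((algebraMap L M (y i) : M) : AlgebraicClosure F) =
        ((α i ^ n i : M) : AlgebraicClosure F) := by rw [hy i]
    exact h1.symm
  · let h : Gal(AlgebraicClosure F/L) := IntermediateField.fixingSubgroupEquiv L ⟨g, hg⟩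
    have hh : h.restrictScalars F = g := rfl
    have h1 : κ (ρ h) = φ g := by rw [hκ]; show φ (h.restrictScalars F) = φ g; rw [hh]
    have h2 := hρc h (α i)
    rw [hα, h1] at h2
    have h3 : h (α i : AlgebraicClosure F) = g (α i) := rfl
    rw [← h3, ← h2]
    have h4 : ∀ (u : L) (v : M), ((algebraMap L M u * v : M) : AlgebraicClosure F) =
      (u : AlgebraicClosure F) * (v : AlgebraicClosure F) := fun u v => rfl
    rw [h4]
    rfl

end StarkR
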